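import Pool.Agent.MD.A.Defs
import Pool.Agent.QD.KDefs

/-!
# MD/S, the symmetric square: definitions (see `md_paper2.md`)
-/

namespace Pool.Agent.MD

open NumberField IsDedekindDomain
open Pool.Agent.QD Pool.Agent.QD.SysD Pool.Agent.LD
open Pool.Agent.HWR (FinOrd nrm Away)

/-- the additional axioms of the system -/
structure IsExt (S : SysD) : Prop where
  Z_one : ∀ m g, S.R m g → ¬ S.Sq m g → S.Zf m g 1 = 0
  Z_ne : S.Zf 0 1 1 ≠ 0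
  Z1_ext : ∃ Z : ℂ → ℂ, Differentiable ℂ Z ∧ ∀ w : ℂ, 1 < w.re → Z w = (w - 1) * S.Z1 w
  GG_mid : ∀ c, DifferentiableOn ℂ (S.GG c) {s : ℂ | s.re < 3 / 2} ∧
    ∀ s : ℂ, 1 / 2 < s.re → s.re < 3 / 2 → S.GG c s ≠ 0

/-- Euler factor of the symmetric square at `2 s`: `((1 - α² X)(1 - β² X)(1 - q X))⁻¹`,
`X = q^(-2s)`, `α + β = lam`, `α β = q` -/
noncomputable def sfac (q : ℕ) (lam : ℝ) (s : ℂ) : ℂ :=
  (E2 q lam ((q : ℂ) ^ (-(2 * s))) * (1 - (q : ℂ) * (q : ℂ) ^ (-(2 * s))))⁻¹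

/-- the symmetric square L-function of the system -/
noncomputable def Sym (S : SysD) (s : ℂ) : ℂ := ∏' v, sfac (S.N v) (S.lam v) s

/-- the symmetric square L-function of a number field, without the Euler factors at `T` -/
noncomputable def SP (F : Type) [Field F] [NumberField F] (a : ℕ → ℝ) (T : Finset ℕ) (s : ℂ) : ℂ :=
  ∏' v : {v : HeightOneSpectrum (𝓞 F) // Away F T v}, sfac (nrm v.1) (a (nrm v.1)) s

/-- the local factor at a place of `V` -/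
noncomputable def lcf (q : ℕ) (lam : ℝ) (s : ℂ) : ℂ :=
  ((q : ℂ) - (Real.sqrt q : ℂ)) * (1 - (q : ℂ) ^ (2 * s - 2)) *
    (1 - (lam : ℂ) * (q : ℂ) ^ (s - 3 / 2) + (q : ℂ) ^ (2 * s - 2))

/-- near `z` on the right, `log ‖f (z + δ)‖` is `x log δ` up to a bounded function -/
def LogO (f : ℂ → ℂ) (z : ℂ) (x : ℝ) : Prop :=
  ∃ C δ0 : ℝ, 0 < δ0 ∧ ∀ δ : ℝ, 0 < δ → δ < δ0 → f (z + (δ : ℂ)) ≠ 0 ∧
    |Real.log ‖f (z + (δ : ℂ))‖ - x * Real.log δ| ≤ C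

variable {T : Finset ℕ} (D : LocData T)

/-- Hasse-Weil with an unspecified sign in the functional equation -/
def HWpm (a : ℕ → ℝ) (F : Type) [Field F] [NumberField F] : Prop :=
  ∃ Lam : ℂ → ℂ, Differentiable ℂ Lam ∧ FinOrd Lam ∧
    ((∀ s : ℂ, Lam s = Lam (2 - s)) ∨ ∀ s : ℂ, Lam s = -Lam (2 - s)) ∧
    ∀ s : ℂ, 3 / 2 < s.re → Lam s = D.Lam a F s

end Pool.Agent.MD
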