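import Pool.Agent.MD.S.Fin
import Pool.Agent.MD.F.Core
import Pool.Agent.QD.Inst

/-!
# MD/S-Main: quadratic towers of bounded length, `Λ(E/k, s)` is entire
-/

namespace Pool.Agent.MD

open NumberField IsDedekindDomain Pool.Agent.HWR Pool.Agent.QD Pool.Agent.QD.In Pool.Agent.LD
  Pool.Agent.H73.AL

/-- an extension of `F` as an extension of `k` -/
private noncomputable def up {k : Type} [Field k] [NumberField k] (F : Ext k) (L : Type) [Field L]
    [NumberField L] [Algebra F.F L] : Ext k :=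
  { F := L
    alg := ((algebraMap F.F L).comp (algebraMap k F.F)).toAlgebra }

private noncomputable instance upAlg {k : Type} [Field k] [NumberField k] (F : Ext k) (L : Type)
    [Field L] [NumberField L] [i : Algebra F.F L] : Algebra F.F (up F L).F := i

private instance upTow {k : Type} [Field k] [NumberField k] (F : Ext k) (L : Type) [Field L]
    [NumberField L] [Algebra F.F L] : IsScalarTower k F.F (up F L).F :=
  IsScalarTower.of_algebraMap_eq' rfl

private theorem up_QTn {k : Type} [Field k] [NumberField k] {n : ℕ} {F : Ext k} (h : QTn k n F)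
    (L : Type) [Field L] [NumberField L] [Algebra F.F L] (hd : Module.finrank F.F L = 2) :
    QTn k (n + 1) (up F L) :=
  QTn.step (F := F) (F' := up F L) (upAlg F L) (upTow F L) h hd

theorem hwpm_of_hw {T : Finset ℕ} (D : LocData T) {a : ℕ → ℝ} (F : Type) [Field F]
    [NumberField F] (h : D.HW a F) : HWpm D a F := by
  obtain ⟨L, h1, h2, h3, h4⟩ := h
  refine ⟨L, h1, h2, ?_, h4⟩
  have hw := w_sq (T := T) (D := D) (F := F)
  rcases hw with hw | hw
  · left
    intro s
    rw [h3 s, hw, one_mul]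
  · right
    intro s
    rw [h3 s, hw, neg_one_mul]

section

variable {k : Type} [Field k] [NumberField k] {T : Finset ℕ} (D : LocData T) (a : ℕ → ℝ)
  {V : Finset (HeightOneSpectrum (𝓞 k))} {N : ℕ}

private theorem hw4 (H : ∀ n : ℕ, n ≤ N + 2 → ∀ F : Ext k, QTn k n F → AllEven V F → D.HW a F.F)
    {F : Ext k} (hF : QTn k 0 F) : HW4 D a (od_fin V F).toFinset := by
  intro x hx L _ _ _ θ hd hθ M _ _ _ hM
  have h1 : QTn k 1 (up F L) := up_QTn hF L hd
  have h2 : AllEven V (up F L) :=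
    even_up (F := F) (up F L) x θ hθ fun w hw => hx w ((od_fin V F).mem_toFinset.2 hw)
  let i1 : Algebra (up F L).F M := inferInstanceAs (Algebra L M)
  exact H 2 (by omega) (up (up F L) M) (up_QTn h1 M hM)
    (od_down (F := up F L) (up (up F L) M) h2)

private theorem hw_all (H : ∀ F : Ext k, QTn k 1 F → D.HW a F.F)
    {F : Ext k} (hF : QTn k 0 F) (L : Type) [Field L] [NumberField L] [Algebra F.F L]
    (hd : Module.finrank F.F L = 2) : D.HW a L :=
  H (up F L) (up_QTn hF L hd)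

end

theorem p1b (k : Type) [Field k] [NumberField k] (T : Finset ℕ) (hTp : ∀ p ∈ T, p.Prime)
    (hT : ∀ p : ℕ, p.Prime → p < 101 → p ∈ T) (D : LocData T) (a : ℕ → ℝ)
    (ha : ∀ q : ℕ, |a q| ≤ 2 * Real.sqrt q) (hfr : FrobRel T a)
    (V : Finset (HeightOneSpectrum (𝓞 k))) (hV : ∀ v ∈ V, Away k T v) (N : ℕ)
    (H : ∀ n : ℕ, n ≤ N + 2 → ∀ F : Ext k, QTn k n F → AllEven V F → D.HW a F.F) :
    (∀ n : ℕ, n ≤ N → ∀ F : Ext k, QTn k (n + 1) F → D.HW a F.F) ∧ HWpm D a k := by
  obtain ⟨c1, c2, c3⟩ := towersN k T hTp hT D a ha hfr V hV N H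
  refine ⟨c1, ?_⟩
  by_cases hE : AllEven V ⟨k⟩
  · exact hwpm_of_hw D k (H 0 (by omega) ⟨k⟩ QTn.base hE)
  have hne : (od_fin V (⟨k⟩ : Ext k)).toFinset.Nonempty := by
    rw [Set.Finite.toFinset_nonempty, Set.nonempty_iff_ne_empty]
    exact fun h0 => hE ((allEven_iff _).2 h0)
  obtain ⟨R1, hR1, hR1e⟩ := Pool.Agent.QD.right_half k T hTp hT D a ha (by
    intro L _ _ _ hd
    exact hw_all D a (c1 0 (by omega)) (F := ⟨k⟩) QTn.base L hd)
  exact hwpm_of k T hTp hT D a ha hfr (od_fin V (⟨k⟩ : Ext k)).toFinset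
    (fun w hw => od_away hV (⟨k⟩ : Ext k) w ((od_fin V (⟨k⟩ : Ext k)).mem_toFinset.1 hw)) hne
    (c3 0 (by omega) _ QTn.base) (hw4 D a H QTn.base) R1 hR1 hR1e (c2 0 (by omega) ⟨k⟩ QTn.base)

end Pool.Agent.MD
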