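import Pool.Agent.MD.S.Defs
import Pool.Agent.QD.F.MkPole

/-!
# MD/S-Bfun: the factor between `Ls` and the completed L-function

The factor is a product of the finite Euler factors, of `pl` and of the inverse of the archimedean factor.
-/

namespace Pool.Agent.MD

open NumberField IsDedekindDomain Pool.Agent.HWR Pool.Agent.QD Pool.Agent.LD

open scoped TensorProduct

private theorem bf_cd_pos (K : Type) [Field K] [NumberField K] {T : Finset ℕ} (D : LocData T) :
    0 < D.cd K := by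
  classical
  unfold LocData.cd
  refine Finset.prod_pos fun p hp => ?_
  split_ifs with h
  · have := Fact.mk h
    exact D.cond_pos p (ℚ_[p] ⊗[ℚ] K)
  · exact one_pos

private theorem bf_A_pos (K : Type) [Field K] [NumberField K] {T : Finset ℕ} (D : LocData T) :
    0 < D.A K := by
  unfold LocData.A
  have h1 : (NumberField.discr K : ℝ) ≠ 0 := by exact_mod_cast NumberField.discr_ne_zero K
  have h2 := bf_cd_pos K D
  positivity

private theorem bf_pl_ne (K : Type) [Field K] [NumberField K] {T : Finset ℕ} (D : LocData T)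
    {t : ℂ} (ht : 1 / 2 < t.re) : D.pl K t ≠ 0 := by
  classical
  unfold LocData.pl
  refine Finset.prod_ne_zero_iff.2 fun p hp => ?_
  split_ifs with h
  · have := Fact.mk h
    intro h0
    have h1 := D.pol_root p (ℚ_[p] ⊗[ℚ] K) _ h0
    have hp0 : 0 < p := h.pos
    rw [Complex.norm_natCast_cpow_of_pos hp0, Complex.neg_re] at h1
    have hp1 : (1 : ℝ) < p := by exact_mod_cast h.one_lt
    rw [Real.rpow_le_rpow_left_iff hp1] at h1
    linarith
  · exact one_ne_zero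

private theorem bf_pl_diff (K : Type) [Field K] [NumberField K] {T : Finset ℕ} (D : LocData T) :
    Differentiable ℂ (D.pl K) := by
  classical
  unfold LocData.pl
  refine Differentiable.fun_finsetProd fun p hp => ?_
  split_ifs with h
  · have := Fact.mk h
    have hp0 : (p : ℂ) ≠ 0 := by exact_mod_cast h.ne_zero
    have h2 : Differentiable ℂ (fun s : ℂ => (p : ℂ) ^ (-s)) := by
      intro s
      exact (differentiableAt_id.neg).const_cpow (Or.inl hp0)
    exact Differentiable.fun_comp (Polynomial.differentiable _) h2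
  · exact differentiable_const _

private theorem bf_quad_diff (a : ℕ → ℝ) {q : ℕ} (hq : q ≠ 0) :
    Differentiable ℂ fun t : ℂ => 1 - (a q : ℂ) * (q : ℂ) ^ (-t) + (q : ℂ) ^ (1 - 2 * t) := by
  have hq0 : (q : ℂ) ≠ 0 := by exact_mod_cast hq
  intro t
  refine ((differentiableAt_const _).sub ((differentiableAt_const _).mul ?_)).add ?_
  · exact (differentiableAt_id.neg).const_cpow (Or.inl hq0)
  · exact ((differentiableAt_const _).sub ((differentiableAt_const _).mul
      differentiableAt_id)).const_cpow (Or.inl hq0)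

private theorem bf_gam_ne {t : ℂ} (ht : 0 < t.re) : gam1 t ≠ 0 := by
  unfold gam1
  refine mul_ne_zero ?_ (Complex.Gamma_ne_zero_of_re_pos ht)
  have h : (2 * (Real.pi : ℂ)) ≠ 0 := by
    have := Real.pi_ne_zero
    exact mul_ne_zero two_ne_zero (by exact_mod_cast this)
  rw [Complex.cpow_def_of_ne_zero h]
  exact Complex.exp_ne_zero _

private theorem bf_gam_diff {t : ℂ} (ht : 0 < t.re) : DifferentiableAt ℂ gam1 t := by
  unfold gam1
  have h : (2 * (Real.pi : ℂ)) ≠ 0 := by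
    have := Real.pi_ne_zero
    exact mul_ne_zero two_ne_zero (by exact_mod_cast this)
  refine ((differentiableAt_id.neg).const_cpow (Or.inl h)).mul ?_
  refine Complex.differentiableAt_Gamma t fun m hm => ?_
  rw [hm] at ht
  simp at ht
  have : (0 : ℝ) ≤ (m : ℝ) := Nat.cast_nonneg m
  linarith

private theorem bf_quad_ne {a : ℕ → ℝ} (ha : ∀ q : ℕ, |a q| ≤ 2 * Real.sqrt q) {q : ℕ}
    (hq : 101 ≤ q) {t : ℂ} (ht : 1 / 2 < t.re) :
    1 - (a q : ℂ) * (q : ℂ) ^ (-t) + (q : ℂ) ^ (1 - 2 * t) ≠ 0 := by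
  have hq0 : 0 < q := by omega
  have hq1 : (1 : ℝ) < q := by
    have h : (1 : ℕ) < q := by omega
    exact_mod_cast h
  have hqp : (0 : ℝ) < q := by linarith
  have hqc : (q : ℂ) ≠ 0 := by exact_mod_cast hq0.ne'
  have h1 : Real.sqrt q * ‖(q : ℂ) ^ (-t)‖ < 1 := by
    rw [Complex.norm_natCast_cpow_of_pos hq0, Complex.neg_re, Real.sqrt_eq_rpow,
      ← Real.rpow_add hqp]
    refine Real.rpow_lt_one_of_one_lt_of_neg hq1 ?_
    linarith
  have h2 := quad_ne (Real.sqrt_nonneg (q : ℝ)) (ha q) (Real.sq_sqrt hqp.le).symm h1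
  have h3 : (q : ℂ) ^ (1 - 2 * t) = ((q : ℝ) : ℂ) * ((q : ℂ) ^ (-t)) ^ 2 := by
    have h4 : (1 - 2 * t : ℂ) = 1 + (-t + -t) := by ring
    rw [h4, Complex.cpow_add _ _ hqc, Complex.cpow_one, Complex.cpow_add _ _ hqc, sq]
    push_cast
    rfl
  rw [h3]
  exact h2

theorem exists_b (K : Type) [Field K] [NumberField K] (T : Finset ℕ) (hTp : ∀ p ∈ T, p.Prime)
    (hT : ∀ p : ℕ, p.Prime → p < 101 → p ∈ T) (D : LocData T) (a : ℕ → ℝ)
    (ha : ∀ q : ℕ, |a q| ≤ 2 * Real.sqrt q) (S : SysD) (F : Finset (HeightOneSpectrum (𝓞 K)))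
    (hF : ∀ v ∈ F, Away K T v)
    (hLs : ∀ s : ℂ, 3 / 2 < s.re → LT K a T s = S.Ls s * ∏ v ∈ F, efac a (nrm v) s) :
    ∃ b : ℂ → ℂ, DifferentiableOn ℂ b {s : ℂ | 1 / 2 < s.re} ∧
      (∀ s : ℂ, 1 / 2 < s.re → b s ≠ 0) ∧
      ∀ s : ℂ, 3 / 2 < s.re → S.Ls s = b s * D.Lam a K s := by
  have hA : ((D.A K : ℝ) : ℂ) ≠ 0 := by exact_mod_cast (bf_A_pos K D).ne'
  have hq : ∀ v ∈ F, 101 ≤ nrm v := fun v hv => nrm_away K T hT v (hF v hv)
  obtain ⟨E, hE⟩ : ∃ E : ℂ → ℂ, E = fun t => D.pl K t *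
      (((D.A K : ℝ) : ℂ) ^ (t / 2) * gam1 t ^ Module.finrank ℚ K)⁻¹ *
      ∏ v ∈ F, (1 - (a (nrm v) : ℂ) * (nrm v : ℂ) ^ (-t) + (nrm v : ℂ) ^ (1 - 2 * t)) := ⟨_, rfl⟩
  have hpow : ∀ t : ℂ, ((D.A K : ℝ) : ℂ) ^ (t / 2) ≠ 0 := fun t => by
    rw [Complex.cpow_def_of_ne_zero hA]
    exact Complex.exp_ne_zero _
  have hden : ∀ t : ℂ, 0 < t.re →
      ((D.A K : ℝ) : ℂ) ^ (t / 2) * gam1 t ^ Module.finrank ℚ K ≠ 0 := fun t ht =>
    mul_ne_zero (hpow t) (pow_ne_zero _ (bf_gam_ne ht))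
  have hEd : ∀ t : ℂ, 0 < t.re → DifferentiableAt ℂ E t := by
    intro t ht
    rw [hE]
    refine ((bf_pl_diff K D t).mul (DifferentiableAt.inv ?_ (hden t ht))).mul ?_
    · exact ((differentiableAt_id.div_const 2).const_cpow (Or.inl hA)).mul
        ((bf_gam_diff ht).pow _)
    · refine DifferentiableAt.fun_finsetProd fun v hv => ?_
      have := hq v hv
      exact bf_quad_diff a (q := nrm v) (by omega) t
  have hEne : ∀ t : ℂ, 1 / 2 < t.re → E t ≠ 0 := by
    intro t ht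
    rw [hE]
    refine mul_ne_zero (mul_ne_zero (bf_pl_ne K D ht) (inv_ne_zero (hden t (by linarith)))) ?_
    exact Finset.prod_ne_zero_iff.2 fun v hv => bf_quad_ne ha (hq v hv) ht
  refine ⟨E, fun t ht => (hEd t ?_).differentiableWithinAt, hEne, fun t ht' => ?_⟩
  · have h1 : (1 / 2 : ℝ) < t.re := ht
    linarith
  · have h2 := hLs t ht'
    have h3 : (∏ v ∈ F, efac a (nrm v) t) *
        ∏ v ∈ F, (1 - (a (nrm v) : ℂ) * (nrm v : ℂ) ^ (-t) + (nrm v : ℂ) ^ (1 - 2 * t)) = 1 := by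
      rw [← Finset.prod_mul_distrib]
      refine Finset.prod_eq_one fun v hv => ?_
      unfold efac
      exact inv_mul_cancel₀ (bf_quad_ne ha (hq v hv) (by linarith))
    have h4 := hden t (by linarith)
    have h5 := bf_pl_ne K D (t := t) (by linarith)
    have h6 : S.Ls t = LT K a T t *
        ∏ v ∈ F, (1 - (a (nrm v) : ℂ) * (nrm v : ℂ) ^ (-t) + (nrm v : ℂ) ^ (1 - 2 * t)) := by
      rw [h2, mul_assoc, h3, mul_one]
    rw [h6, hE]
    unfold LocData.Lam
    simp only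
    generalize ((D.A K : ℝ) : ℂ) ^ (t / 2) * gam1 t ^ Module.finrank ℚ K = X at h4 ⊢
    field_simp

end Pool.Agent.MD
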