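import Pool.Agent.MD.S.Defs
import Pool.Agent.QD.In.GGX
import Pool.Agent.QD.In.EllX
import Pool.Agent.QD.A.LocSeq

/-!
# MD/S-GMid: the factor of the functional equation in the critical strip

PLAN.  `GGX S D a x s = wx * (D0^2 cdx)^(1-s) * (gam1(2-s) (gam1 s)⁻¹)^(2n) * (plx s (plx (2-s))⁻¹) * ∏ (FF(2-s) (FF s)⁻¹)` (QD/In/Def).  For `Re s < 3/2`, i.e. `Re (2 - s) > 1/2`: `gam1 (2 - s) = (2π)^(-(2-s)) Γ(2-s)` is differentiable, `(gam1 s)⁻¹` is entire
(`invgam1_diff`, QD/In/Gam), `plx` entire, `plx (2-s) ≠ 0` (`plx_ne`, QD/In/EllX), `(FF s)⁻¹` entire (`ffi_diff`, QD/In/LocF), `FF (2-s)` is the inverse of a polynomial expression which does not vanish for `Re (2-s) > 1/2` (roots of `1 - a X + q X²` have modulus `q^(-1/2)`: `quad_ne`,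
QD/A/LocSeq, with `r = √q`; three types `t = 1, -1, 0` of `FF`, see HWR/Defs).  Compare the proofs of `GGX_diff` (QD/In/GGX.lean) and `ff_ne`.  Nonvanishing for `1/2 < Re s < 3/2`: both `Re s, Re (2-s) > 1/2`: `gam1 ≠ 0` (`gam1_ne`), `plx ≠ 0`, the polynomial expressions are not `0`,
`wx ≠ 0` (`wx_cases`), `D0^2 cdx > 0`.
-/

namespace Pool.Agent.MD

open NumberField IsDedekindDomain Pool.Agent.HWR Pool.Agent.QD Pool.Agent.QD.In Pool.Agent.LD

private theorem efi_ne_half {a : ℕ → ℝ} (ha : ∀ q : ℕ, |a q| ≤ 2 * Real.sqrt q) {q : ℕ}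
    (hq : 101 ≤ q) {s : ℂ} (hs : 1 / 2 < s.re) : efi a q s ≠ 0 := by
  have hq1 : (1 : ℝ) < q := by exact_mod_cast (by omega : 1 < q)
  have hq0 : (0 : ℝ) < q := by linarith
  have h0 : (q : ℂ) ≠ 0 := by exact_mod_cast hq0.ne'
  have e1 : (q : ℂ) ^ (1 - 2 * s) = (((q : ℝ)) : ℂ) * ((q : ℂ) ^ (-s)) ^ 2 := by
    have h1 : (1 : ℂ) - 2 * s = 1 + (-s + -s) := by ring
    rw [h1, Complex.cpow_add _ _ h0, Complex.cpow_one, Complex.cpow_add _ _ h0, pow_two,
      Complex.ofReal_natCast]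
  unfold efi
  rw [e1]
  refine quad_ne (Real.sqrt_nonneg (q : ℝ)) (ha q) (Real.sq_sqrt hq0.le).symm ?_
  rw [Complex.norm_natCast_cpow_of_pos (by omega), Complex.neg_re, Real.sqrt_eq_rpow,
    ← Real.rpow_add hq0]
  exact Real.rpow_lt_one_of_one_lt_of_neg hq1 (by linarith)

private theorem ffi_ne_half {a : ℕ → ℝ} (ha : ∀ q : ℕ, |a q| ≤ 2 * Real.sqrt q) {q : ℕ}
    (hq : 101 ≤ q) (u : ℂ) {s : ℂ} (hs : 1 / 2 < s.re) : (FF a q u s)⁻¹ ≠ 0 := by
  rw [ffi_eq]
  have hq2 : 101 ≤ q ^ 2 := by nlinarith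
  split_ifs
  · exact pow_ne_zero 2 (efi_ne_half ha hq hs)
  · exact efi_ne_half ha hq2 hs
  · exact efi_ne_half ha hq hs

private theorem ff_ne_half {a : ℕ → ℝ} (ha : ∀ q : ℕ, |a q| ≤ 2 * Real.sqrt q) {q : ℕ}
    (hq : 101 ≤ q) (u : ℂ) {s : ℂ} (hs : 1 / 2 < s.re) : FF a q u s ≠ 0 := fun h =>
  ffi_ne_half ha hq u hs (by rw [h, inv_zero])

private theorem re_two_sub (s : ℂ) : (2 - s).re = 2 - s.re := by
  rw [Complex.sub_re]
  rfl

private theorem ff_ratio_diff_half {a : ℕ → ℝ} (ha : ∀ q : ℕ, |a q| ≤ 2 * Real.sqrt q) {q : ℕ}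
    (hq : 101 ≤ q) (u : ℂ) {s : ℂ} (hs : s.re < 3 / 2) :
    DifferentiableAt ℂ (fun s => FF a q u (2 - s) * (FF a q u s)⁻¹) s := by
  have hq0 : q ≠ 0 := by omega
  have h1 : DifferentiableAt ℂ (fun s => (FF a q u s)⁻¹) s := ffi_diff a hq0 u s
  have h2 : DifferentiableAt ℂ (fun z => ((fun s => (FF a q u s)⁻¹) (2 - z))⁻¹) s := by
    refine DifferentiableAt.inv ?_ (ffi_ne_half ha hq u (by rw [re_two_sub]; linarith))
    exact ((ffi_diff a hq0 u).comp ((differentiable_const _).sub differentiable_id)) s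
  have h3 : (fun z => ((fun s => (FF a q u s)⁻¹) (2 - z))⁻¹) = fun z => FF a q u (2 - z) := by
    funext z
    simp only [inv_inv]
  rw [h3] at h2
  exact h2.mul h1

variable {K : Type} [Field K] [NumberField K] {T : Finset ℕ} (D : LocData T)
  (S : Finset (HeightOneSpectrum (𝓞 K))) {a : ℕ → ℝ}

private theorem plx_diff (x : Kˣ) : Differentiable ℂ (plx D x) := by
  by_cases h : IsSquare x
  · have : plx D x = fun s => D.pl K s ^ 2 := by
      funext s
      unfold plx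
      rw [dif_pos h]
    rw [this]
    exact (pl_diff D K).pow 2
  · have : plx D x = D.pl (qf h).L := by
      funext s
      unfold plx
      rw [dif_neg h]
    rw [this]
    exact pl_diff D _

private theorem plx_ratio_diff (x : Kˣ) {s : ℂ} (hs : s.re < 3 / 2) :
    DifferentiableAt ℂ (fun s => plx D x s * (plx D x (2 - s))⁻¹) s := by
  refine DifferentiableAt.mul (plx_diff D x s) (DifferentiableAt.inv ?_
    (plx_ne D x (by rw [re_two_sub]; linarith)))
  exact ((plx_diff D x).comp ((differentiable_const _).sub differentiable_id)) s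

private theorem gam1_ne_half {s : ℂ} (hs : 1 / 2 < s.re) : gam1 s ≠ 0 := by
  unfold gam1
  refine mul_ne_zero ?_ (Complex.Gamma_ne_zero_of_re_pos (by linarith))
  rw [Complex.cpow_ne_zero_iff]
  left
  exact_mod_cast (by positivity : (2 * Real.pi : ℝ) ≠ 0)

private theorem AA_pos (x : Kˣ) : 0 < D0 S x ^ 2 * cdx D x :=
  mul_pos (pow_pos (D0_pos S x) 2) (cdx_pos D x)

theorem GGX_mid (hT : ∀ p : ℕ, p.Prime → p < 101 → p ∈ T)
    (ha : ∀ q : ℕ, |a q| ≤ 2 * Real.sqrt q) (x : Kˣ) :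
    DifferentiableOn ℂ (GGX S D a x) {s : ℂ | s.re < 3 / 2} := by
  classical
  intro s hs
  have hs' : s.re < 3 / 2 := hs
  refine DifferentiableAt.differentiableWithinAt ?_
  have h0 : ((D0 S x ^ 2 * cdx D x : ℝ) : ℂ) ≠ 0 := by
    exact_mod_cast (AA_pos D S x).ne'
  have h1 : DifferentiableAt ℂ (fun s : ℂ => ((D0 S x ^ 2 * cdx D x : ℝ) : ℂ) ^ (1 - s)) s :=
    DifferentiableAt.const_cpow (by fun_prop) (Or.inl h0)
  have h2 : DifferentiableAt ℂ
      (fun s : ℂ => (gam1 (2 - s) * (gam1 s)⁻¹) ^ (2 * Module.finrank ℚ K)) s :=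
    (gam1_ratio_diff (by linarith)).pow _
  have h3 := plx_ratio_diff D x hs'
  have h4 : ∀ R : Finset (HeightOneSpectrum (𝓞 K)), (∀ v ∈ R, Away K T v) →
      DifferentiableAt ℂ (fun s => ∏ v ∈ R,
        (FF a (nrm v) (tt x v) (2 - s) * (FF a (nrm v) (tt x v) s)⁻¹)) s := by
    intro R
    induction R using Finset.induction_on with
    | empty =>
      intro _
      simp only [Finset.prod_empty]
      exact differentiableAt_const _
    | insert v R hv ih =>
      intro hR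
      have h5 := ih fun w hw => hR w (Finset.mem_insert_of_mem hw)
      have h6 := ff_ratio_diff_half ha (nrm_ge K T hT v (hR v (Finset.mem_insert_self v R)))
        (tt x v : ℂ) hs'
      have h7 : (fun s => ∏ v ∈ insert v R,
          (FF a (nrm v) (tt x v) (2 - s) * (FF a (nrm v) (tt x v) s)⁻¹)) =
          fun s => (FF a (nrm v) (tt x v) (2 - s) * (FF a (nrm v) (tt x v) s)⁻¹) *
            ∏ v ∈ R, (FF a (nrm v) (tt x v) (2 - s) * (FF a (nrm v) (tt x v) s)⁻¹) := by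
        funext z
        rw [Finset.prod_insert hv]
      rw [h7]
      exact h6.mul h5
  have h5 := h4 (S.filter fun v => Away K T v) fun v hv => (Finset.mem_filter.1 hv).2
  exact ((((differentiableAt_const (wx D x)).mul h1).mul h2).mul h3).mul h5

theorem GGX_mid_ne (hT : ∀ p : ℕ, p.Prime → p < 101 → p ∈ T)
    (ha : ∀ q : ℕ, |a q| ≤ 2 * Real.sqrt q) (x : Kˣ) {s : ℂ} (h1 : 1 / 2 < s.re)
    (h2 : s.re < 3 / 2) : GGX S D a x s ≠ 0 := by
  classical
  have hre : 1 / 2 < (2 - s).re := by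
    rw [re_two_sub]
    linarith
  have hw : wx D x ≠ 0 := by
    rcases wx_cases D x with h | h <;> rw [h] <;> norm_num
  have hA : ((D0 S x ^ 2 * cdx D x : ℝ) : ℂ) ^ (1 - s) ≠ 0 := by
    rw [Complex.cpow_ne_zero_iff]
    left
    exact_mod_cast (AA_pos D S x).ne'
  unfold GGX
  refine mul_ne_zero (mul_ne_zero (mul_ne_zero (mul_ne_zero hw hA) (pow_ne_zero _
    (mul_ne_zero (gam1_ne_half hre) (inv_ne_zero (gam1_ne_half h1)))))
    (mul_ne_zero (plx_ne D x h1) (inv_ne_zero (plx_ne D x hre)))) ?_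
  refine Finset.prod_ne_zero_iff.2 fun v hv => ?_
  have hq := nrm_ge K T hT v (Finset.mem_filter.1 hv).2
  exact mul_ne_zero (ff_ne_half ha hq _ hre) (ffi_ne_half ha hq _ h1)

end Pool.Agent.MD
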