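import Pool.Agent.MD.S.Defs
import Pool.Agent.HWR.SumNrm
import Pool.Agent.QD.F.MkPole

/-!
# MD/S-SymD: the symmetric square for `Re s > 1`

PLAN.  General index set.  `sfac q lam s = (1 - W)⁻¹` with `W = (lam² - q) X + (..) X² + ..`, `X = q^(-2s)`, `‖X‖ = q^(-2 Re s) ≤ q^(-2)`, `|lam² - 2q| ≤ 2q`: `E2 X = 1 - (lam²-2q) X + q² X²`; both factors are `1 + O(q^(1 - 2 Re s))`; `‖W‖ ≤ 4 q^(1 - 2 Re s) ≤ 1/2`-like
(`q ≥ 101`).  Convergence, holomorphy and nonvanishing of the product as for `Ls` (LD/A/Euler.lean: `Ls_diff`, `Ls_ne`, the private general lemmas of QD/A/Euler may be copied).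
`gen_log`: as `log_Ls` (LD/E/Log.lean): `|- log ‖1 - W‖ - Re W| ≤ ‖W‖²`, `‖W‖² ≤ 16 q^(-2)`, `|Re W - (lam² - q) Re X| ≤ C q² ‖X‖² ≤ C q^(-2)`, summable (`hsum 2`).
`SP_diff`, `SP_ne`, `SP_log`: index set `{v // Away F T v}`, `nrm_away` (QD/F/MkPole), `summable_nrm` (HWR/SumNrm).
-/

namespace Pool.Agent.MD

open NumberField IsDedekindDomain Pool.Agent.QD Pool.Agent.QD.SysD Pool.Agent.LD
open Pool.Agent.HWR (FinOrd nrm Away)

/-! generic infinite products (copied from LD/A/Euler.lean) -/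

private theorem sy_mult {ι : Type} {f : ι → ℂ} (h : Summable fun i => ‖f i - 1‖) :
    Multipliable f := by
  have h := multipliable_one_add_of_summable (f := fun i => f i - 1) h
  simpa only [add_sub_cancel] using h

private theorem sy_ne {ι : Type} {f : ι → ℂ} (h : Summable fun i => ‖f i - 1‖)
    (h0 : ∀ i, f i ≠ 0) : ∏' i, f i ≠ 0 := by
  have h := tprod_one_add_ne_zero_of_summable (f := fun i => f i - 1)
    (fun i => by rw [add_sub_cancel]; exact h0 i) h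
  simpa only [add_sub_cancel] using h

private theorem sy_diff {ι : Type} {f : ι → ℂ → ℂ} {σ₀ : ℝ} {u : ℝ → ι → ℝ}
    (hu : ∀ b, σ₀ < b → Summable (u b))
    (hb : ∀ b, σ₀ < b → ∀ s : ℂ, b ≤ s.re → ∀ i, ‖f i s - 1‖ ≤ u b i)
    (hd : ∀ i (s : ℂ), σ₀ < s.re → DifferentiableAt ℂ (f i) s) :
    DifferentiableOn ℂ (fun s => ∏' i, f i s) {s : ℂ | σ₀ < s.re} := by
  intro s hs
  have hs' : σ₀ < s.re := hs
  have hb0 : σ₀ < (σ₀ + s.re) / 2 := by linarith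
  have hU : IsOpen {z : ℂ | (σ₀ + s.re) / 2 < z.re} := isOpen_lt continuous_const Complex.continuous_re
  have hsU : s ∈ {z : ℂ | (σ₀ + s.re) / 2 < z.re} := by
    change (σ₀ + s.re) / 2 < s.re
    linarith
  have h1 := Summable.hasProdLocallyUniformlyOn_one_add (f := fun i z => f i z - 1) hU (hu _ hb0)
    (Filter.Eventually.of_forall fun i z hz => hb _ hb0 z (le_of_lt hz) i)
    (fun i z hz => ((hd i z (hb0.trans hz)).continuousAt.sub continuousAt_const).continuousWithinAt)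
  simp only [add_sub_cancel] at h1
  rw [hasProdLocallyUniformlyOn_iff_tendstoLocallyUniformlyOn] at h1
  have h2 := h1.differentiableOn (Filter.Eventually.of_forall fun t z hz => by
    refine DifferentiableAt.differentiableWithinAt ?_
    exact DifferentiableAt.fun_finsetProd fun i _ => hd i z (hb0.trans hz)) hU
  exact (h2.differentiableAt (hU.mem_nhds hsU)).differentiableWithinAt

private theorem sy_inv_sub_one {w : ℂ} {y C : ℝ} (hw : ‖w‖ ≤ C * y)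
    (h1 : ‖w‖ ≤ 21 / 100) : ‖(1 - w)⁻¹ - 1‖ ≤ 2 * C * y := by
  have d1 : 79 / 100 ≤ ‖1 - w‖ := by
    have h2 : ‖(1 : ℂ)‖ - ‖w‖ ≤ ‖1 - w‖ := norm_sub_norm_le _ _
    rw [norm_one] at h2
    linarith
  have hne : 1 - w ≠ 0 := by
    intro h; rw [h, norm_zero] at d1; linarith
  have e : (1 - w)⁻¹ - 1 = w / (1 - w) := by field_simp; ring
  rw [e, norm_div, div_le_iff₀ (by linarith)]
  have hC : 0 ≤ C * y := (norm_nonneg _).trans hw
  nlinarith

private theorem sy_log {w : ℂ} (h1 : ‖w‖ ≤ 1 / 2) : |Real.log ‖(1 - w)⁻¹‖ - w.re| ≤ ‖w‖ ^ 2 := by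
  have h2 := Complex.norm_log_one_add_sub_self_le (z := -w) (by rw [norm_neg]; linarith)
  rw [norm_neg] at h2
  have h3 := (Complex.abs_re_le_norm _).trans h2
  have e : (Complex.log (1 + -w) - -w).re = -(Real.log ‖(1 - w)⁻¹‖ - w.re) := by
    rw [norm_inv, Real.log_inv, Complex.sub_re, Complex.log_re, Complex.neg_re, ← sub_eq_add_neg]
    ring
  rw [e, abs_neg] at h3
  refine h3.trans ?_
  have h4 : (1 - ‖w‖)⁻¹ ≤ 2 := by
    rw [inv_le_comm₀ (by linarith) two_pos]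
    linarith
  have h5 := sq_nonneg ‖w‖
  nlinarith

/-! local estimates -/

private noncomputable def syW (q : ℕ) (lam : ℝ) (s : ℂ) : ℂ :=
  ((lam ^ 2 - q : ℝ) : ℂ) * (q : ℂ) ^ (-(2 * s)) -
    (q * (lam ^ 2 - q) : ℝ) * ((q : ℂ) ^ (-(2 * s))) ^ 2 + (q : ℂ) ^ 3 * ((q : ℂ) ^ (-(2 * s))) ^ 3

private theorem sy_eq (q : ℕ) (lam : ℝ) (s : ℂ) : sfac q lam s = (1 - syW q lam s)⁻¹ := by
  unfold sfac syW E2
  congr 1
  push_cast
  ring

private theorem sy_normX {q : ℕ} (hq : 101 ≤ q) (s : ℂ) :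
    ‖(q : ℂ) ^ (-(2 * s))‖ = (q : ℝ) ^ (-(2 * s.re)) := by
  rw [Complex.norm_natCast_cpow_of_pos (by omega)]
  congr 1
  simp

private theorem sy_y {q : ℕ} (hq : 101 ≤ q) (s : ℂ) :
    (q : ℝ) * ‖(q : ℂ) ^ (-(2 * s))‖ = (q : ℝ) ^ (-(2 * s.re - 1)) := by
  have hq0 : (0 : ℝ) < q := by exact_mod_cast (by omega : 0 < q)
  rw [sy_normX hq]
  conv_lhs => rw [← Real.rpow_one (q : ℝ)]
  rw [← Real.rpow_mul hq0.le, one_mul, ← Real.rpow_add hq0]
  congr 1
  ring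

private theorem sy_small {q : ℕ} (hq : 101 ≤ q) {x : ℝ} (h : x ≤ -1) : (q : ℝ) ^ x ≤ 1 / 101 := by
  have hN : (101 : ℝ) ≤ q := by exact_mod_cast hq
  refine (Real.rpow_le_rpow_of_exponent_le (by linarith) h).trans ?_
  rw [Real.rpow_neg_one, ← one_div]
  exact one_div_le_one_div_of_le (by norm_num) hN

private theorem sy_lam {q : ℕ} {lam : ℝ} (hl : |lam| ≤ 2 * Real.sqrt q) :
    |lam ^ 2 - q| ≤ 3 * q := by
  have h1 : lam ^ 2 ≤ 4 * q := by
    have h2 := Real.sq_sqrt (Nat.cast_nonneg q : (0 : ℝ) ≤ q)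
    have h3 := sq_abs lam
    have h4 := abs_nonneg lam
    have h5 := Real.sqrt_nonneg (q : ℝ)
    nlinarith
  have h2 := sq_nonneg lam
  have h3 : (0 : ℝ) ≤ q := Nat.cast_nonneg q
  rw [abs_le]
  constructor <;> linarith

private theorem sy_parts {q : ℕ} (hq : 101 ≤ q) {lam : ℝ} (hl : |lam| ≤ 2 * Real.sqrt q) {s : ℂ}
    (hs : 1 < s.re) {y : ℝ} (hy : y = (q : ℝ) ^ (-(2 * s.re - 1))) :
    ‖((lam ^ 2 - q : ℝ) : ℂ) * (q : ℂ) ^ (-(2 * s))‖ ≤ 3 * y ∧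
      ‖(q * (lam ^ 2 - q) : ℝ) * ((q : ℂ) ^ (-(2 * s))) ^ 2‖ ≤ 3 * y ^ 2 ∧
      ‖(q : ℂ) ^ 3 * ((q : ℂ) ^ (-(2 * s))) ^ 3‖ ≤ y ^ 3 ∧ 0 ≤ y ∧ y ≤ 1 / 101 := by
  have h0 := sy_y hq s
  rw [← hy] at h0
  have hl2 := sy_lam hl
  have hq0 : (0 : ℝ) < q := by exact_mod_cast (by omega : 0 < q)
  have hX := norm_nonneg ((q : ℂ) ^ (-(2 * s)))
  refine ⟨?_, ?_, ?_, ?_, ?_⟩
  · rw [norm_mul, Complex.norm_real, Real.norm_eq_abs]
    calc |lam ^ 2 - q| * ‖(q : ℂ) ^ (-(2 * s))‖ ≤ (3 * q) * ‖(q : ℂ) ^ (-(2 * s))‖ := by gcongr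
      _ = 3 * y := by rw [← h0]; ring
  · rw [norm_mul, norm_pow, Complex.norm_real, Real.norm_eq_abs, abs_mul, abs_of_pos hq0]
    calc q * |lam ^ 2 - q| * ‖(q : ℂ) ^ (-(2 * s))‖ ^ 2 ≤
        q * (3 * q) * ‖(q : ℂ) ^ (-(2 * s))‖ ^ 2 := by gcongr
      _ = 3 * y ^ 2 := by rw [← h0]; ring
  · rw [norm_mul, norm_pow, norm_pow, Complex.norm_natCast, ← mul_pow, h0]
  · rw [hy]; positivity
  · rw [hy]; exact sy_small hq (by linarith)

private theorem sy_W {q : ℕ} (hq : 101 ≤ q) {lam : ℝ} (hl : |lam| ≤ 2 * Real.sqrt q) {s : ℂ}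
    (hs : 1 < s.re) : ‖syW q lam s‖ ≤ 4 * (q : ℝ) ^ (-(2 * s.re - 1)) ∧
      |(syW q lam s).re - (lam ^ 2 - q) * ((q : ℂ) ^ (-(2 * s))).re| ≤
        4 * ((q : ℝ) ^ (-(2 * s.re - 1))) ^ 2 ∧ ‖syW q lam s‖ ≤ 4 / 101 := by
  obtain ⟨h1, h2, h3, h4, h5⟩ := sy_parts hq hl hs rfl
  generalize (q : ℝ) ^ (-(2 * s.re - 1)) = y at h1 h2 h3 h4 h5 ⊢
  have hb : ‖syW q lam s - ((lam ^ 2 - q : ℝ) : ℂ) * (q : ℂ) ^ (-(2 * s))‖ ≤ 4 * y ^ 2 := by
    have e : syW q lam s - ((lam ^ 2 - q : ℝ) : ℂ) * (q : ℂ) ^ (-(2 * s)) =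
        (q : ℂ) ^ 3 * ((q : ℂ) ^ (-(2 * s))) ^ 3 -
          (q * (lam ^ 2 - q) : ℝ) * ((q : ℂ) ^ (-(2 * s))) ^ 2 := by
      unfold syW
      ring
    rw [e]
    have h6 := norm_sub_le ((q : ℂ) ^ 3 * ((q : ℂ) ^ (-(2 * s))) ^ 3)
      ((q * (lam ^ 2 - q) : ℝ) * ((q : ℂ) ^ (-(2 * s))) ^ 2)
    have h7 : y ^ 3 ≤ y ^ 2 := by nlinarith [sq_nonneg y]
    linarith
  have hW : ‖syW q lam s‖ ≤ 4 * y := by
    have h6 := norm_le_norm_sub_add (syW q lam s) (((lam ^ 2 - q : ℝ) : ℂ) * (q : ℂ) ^ (-(2 * s)))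
    have h7 : 4 * y ^ 2 ≤ y := by nlinarith
    linarith
  refine ⟨hW, ?_, by linarith⟩
  have h6 := (Complex.abs_re_le_norm _).trans hb
  have e : (syW q lam s - ((lam ^ 2 - q : ℝ) : ℂ) * (q : ℂ) ^ (-(2 * s))).re =
      (syW q lam s).re - (lam ^ 2 - q) * ((q : ℂ) ^ (-(2 * s))).re := by
    rw [Complex.sub_re, Complex.re_ofReal_mul]
  rw [e] at h6
  exact h6

private theorem sy_sub_one {q : ℕ} (hq : 101 ≤ q) {lam : ℝ} (hl : |lam| ≤ 2 * Real.sqrt q) {s : ℂ}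
    (hs : 1 < s.re) : ‖sfac q lam s - 1‖ ≤ 8 * (q : ℝ) ^ (-(2 * s.re - 1)) := by
  obtain ⟨h1, -, h3⟩ := sy_W hq hl hs
  rw [sy_eq]
  have h4 := sy_inv_sub_one h1 (by linarith)
  linarith

private theorem sy_inv (q : ℕ) (lam : ℝ) (s : ℂ) : (sfac q lam s)⁻¹ =
    E2 q lam ((q : ℂ) ^ (-(2 * s))) * (1 - (q : ℂ) * (q : ℂ) ^ (-(2 * s))) := by
  unfold sfac
  rw [inv_inv]

/-- the finite factors -/
theorem sfac_diff {q : ℕ} (hq : 101 ≤ q) {lam : ℝ} (hl : |lam| ≤ 2 * Real.sqrt q) :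
    Differentiable ℂ (fun s => (sfac q lam s)⁻¹) := by
  have hq0 : (q : ℂ) ≠ 0 := by exact_mod_cast (by omega : q ≠ 0)
  have hX : Differentiable ℂ fun s : ℂ => (q : ℂ) ^ (-(2 * s)) := by
    intro s
    exact ((differentiableAt_id.const_mul (2 : ℂ)).neg).const_cpow (Or.inl hq0)
  have e : (fun s => (sfac q lam s)⁻¹) = fun s => E2 q lam ((q : ℂ) ^ (-(2 * s))) *
      (1 - (q : ℂ) * (q : ℂ) ^ (-(2 * s))) := by
    funext s
    exact sy_inv q lam s
  rw [e]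
  unfold E2
  exact (((differentiable_const _).sub ((differentiable_const _).mul hX)).add
    ((differentiable_const _).mul (hX.pow 2))).mul
    ((differentiable_const _).sub ((differentiable_const _).mul hX))

private theorem sy_quad {c : ℝ} (hc : |c| ≤ 2) {w : ℂ} (hw : ‖w‖ < 1) :
    1 - (c : ℂ) * w + w ^ 2 ≠ 0 := by
  intro h
  have h1 := congrArg Complex.re h
  have h2 := congrArg Complex.im h
  simp only [Complex.add_re, Complex.sub_re, Complex.one_re, pow_two,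
    Complex.mul_re, Complex.zero_re, Complex.ofReal_re, Complex.ofReal_im, zero_mul, sub_zero] at h1
  simp only [Complex.add_im, Complex.sub_im, Complex.one_im, pow_two,
    Complex.mul_im, Complex.zero_im, Complex.ofReal_re, Complex.ofReal_im, zero_mul, add_zero] at h2
  have h3 : w.re * w.re + w.im * w.im < 1 := by
    have h4 := Complex.sq_norm w
    rw [Complex.normSq_apply] at h4
    have h5 := norm_nonneg w
    nlinarith
  obtain ⟨hc1, hc2⟩ := abs_le.1 hc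
  have h5 : w.im * (2 * w.re - c) = 0 := by linarith
  rcases mul_eq_zero.1 h5 with h6 | h6
  · rw [h6] at h1 h3
    rcases le_total 0 w.re with h7 | h7
    · have h8 := mul_nonneg (show 0 ≤ 2 - c by linarith) h7
      have h9 : (w.re - 1) ^ 2 = 0 := le_antisymm (by nlinarith) (sq_nonneg _)
      have h10 : w.re = 1 := by
        have := pow_eq_zero_iff (two_ne_zero) |>.1 h9
        linarith
      rw [h10] at h3
      linarith
    · have h8 := mul_nonneg (show 0 ≤ 2 + c by linarith) (neg_nonneg.2 h7)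
      have h9 : (w.re + 1) ^ 2 = 0 := le_antisymm (by nlinarith) (sq_nonneg _)
      have h10 : w.re = -1 := by
        have := pow_eq_zero_iff (two_ne_zero) |>.1 h9
        linarith
      rw [h10] at h3
      linarith
  · have h7 : c = 2 * w.re := by linarith
    rw [h7] at h1
    nlinarith

theorem sfac_ne {q : ℕ} (hq : 101 ≤ q) {lam : ℝ} (hl : |lam| ≤ 2 * Real.sqrt q) {s : ℂ}
    (hs : 1 / 2 < s.re) : sfac q lam s ≠ 0 := by
  have hq0 : (0 : ℝ) < q := by exact_mod_cast (by omega : 0 < q)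
  have hq1 : (1 : ℝ) < q := by exact_mod_cast (by omega : 1 < q)
  have hw : ‖(q : ℂ) * (q : ℂ) ^ (-(2 * s))‖ < 1 := by
    rw [norm_mul, Complex.norm_natCast, sy_y hq]
    exact Real.rpow_lt_one_of_one_lt_of_neg hq1 (by linarith)
  unfold sfac
  apply inv_ne_zero
  apply mul_ne_zero
  · have h1 : E2 q lam ((q : ℂ) ^ (-(2 * s))) = 1 - (((lam ^ 2 - 2 * q) / q : ℝ) : ℂ) *
        ((q : ℂ) * (q : ℂ) ^ (-(2 * s))) + ((q : ℂ) * (q : ℂ) ^ (-(2 * s))) ^ 2 := by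
      unfold E2
      have hq0' : (q : ℂ) ≠ 0 := by exact_mod_cast (by omega : q ≠ 0)
      push_cast
      field_simp
    rw [h1]
    refine sy_quad ?_ hw
    rw [abs_div, abs_of_pos hq0, div_le_iff₀ hq0]
    have h2 := sy_lam hl
    have h1' : lam ^ 2 ≤ 4 * q := by
      have := (abs_le.1 h2).2
      linarith
    have h3 := sq_nonneg lam
    rw [abs_le]
    constructor <;> linarith
  · intro h
    have h1 : (q : ℂ) * (q : ℂ) ^ (-(2 * s)) = 1 := by linear_combination -h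
    rw [h1, norm_one] at hw
    exact lt_irrefl _ hw

section gen

variable {ι : Type} (N : ι → ℕ) (lam : ι → ℝ) (hN : ∀ v, 101 ≤ N v)
  (hlam : ∀ v, |lam v| ≤ 2 * Real.sqrt (N v))
  (hsum : ∀ x : ℝ, 1 < x → Summable fun v => (N v : ℝ) ^ (-x))

include hN hlam hsum

theorem gen_diff : DifferentiableOn ℂ (fun s => ∏' v, sfac (N v) (lam v) s)
    {s : ℂ | 1 < s.re} := by
  refine sy_diff (u := fun b v => 8 * (N v : ℝ) ^ (-(2 * b - 1)))
    (fun b hb => (hsum _ (by linarith)).mul_left 8) ?_ ?_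
  · intro b hb s hs v
    refine (sy_sub_one (hN v) (hlam v) (by linarith)).trans ?_
    have h1 : (1 : ℝ) ≤ N v := by exact_mod_cast (by have := hN v; omega : 1 ≤ N v)
    have h2 := Real.rpow_le_rpow_of_exponent_le h1 (show -(2 * s.re - 1) ≤ -(2 * b - 1) by linarith)
    linarith
  · intro v s hs
    have h1 := (sfac_diff (hN v) (hlam v)) s
    have h2 : (fun s => sfac (N v) (lam v) s) = fun s => ((sfac (N v) (lam v) s)⁻¹)⁻¹ := by
      funext s
      rw [inv_inv]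
    show DifferentiableAt ℂ (fun s => sfac (N v) (lam v) s) s
    rw [h2]
    exact h1.inv (inv_ne_zero (sfac_ne (hN v) (hlam v) (by linarith)))

theorem gen_sum {s : ℂ} (hs : 1 < s.re) :
    Summable fun v => ‖sfac (N v) (lam v) s - 1‖ :=
  Summable.of_nonneg_of_le (fun _ => norm_nonneg _) (fun v => sy_sub_one (hN v) (hlam v) hs)
    ((hsum (2 * s.re - 1) (by linarith)).mul_left 8)

theorem gen_ne {s : ℂ} (hs : 1 < s.re) : ∏' v, sfac (N v) (lam v) s ≠ 0 :=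
  sy_ne (gen_sum N lam hN hlam hsum hs) fun v => sfac_ne (hN v) (hlam v) (by linarith)

theorem gen_log : ∃ C : ℝ, ∀ s : ℂ, 1 < s.re →
    |Real.log ‖∏' v, sfac (N v) (lam v) s‖ -
      ∑' v, (lam v ^ 2 - N v) * ((N v : ℂ) ^ (-(2 * s))).re| ≤ C := by
  refine ⟨∑' v, 20 * (N v : ℝ) ^ (-(2 : ℝ)), fun s hs => ?_⟩
  have hE1 : ∀ v, ‖sfac (N v) (lam v) s - 1‖ ≤ 8 * (N v : ℝ) ^ (-(2 * s.re - 1)) := fun v =>
    sy_sub_one (hN v) (hlam v) hs
  have hy : ∀ v, (N v : ℝ) ^ (-(2 * s.re - 1)) ≤ 1 / 101 := fun v => sy_small (hN v) (by linarith)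
  have hss : Summable fun v => (N v : ℝ) ^ (-(2 * s.re - 1)) := hsum _ (by linarith)
  have hne : ∀ v, sfac (N v) (lam v) s ≠ 0 := fun v => sfac_ne (hN v) (hlam v) (by linarith)
  have hlog : Summable fun v => Complex.log (sfac (N v) (lam v) s) := by
    refine Summable.of_norm_bounded (hss.mul_left 12) fun v => ?_
    have h1 := Complex.norm_log_one_add_half_le_self (z := sfac (N v) (lam v) s - 1)
      (by have := hE1 v; have := hy v; linarith)
    rw [add_sub_cancel] at h1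
    have h2 := hE1 v
    linarith
  have hexp := Complex.cexp_tsum_eq_tprod hne hlog
  have hre : Real.log ‖∏' v, sfac (N v) (lam v) s‖ =
      ∑' v, Real.log ‖sfac (N v) (lam v) s‖ := by
    rw [← hexp, Complex.norm_exp, Real.log_exp, Complex.re_tsum hlog]
    exact tsum_congr fun v => Complex.log_re _
  have hs1 : Summable fun v => Real.log ‖sfac (N v) (lam v) s‖ := by
    have h1 := (Complex.hasSum_re hlog.hasSum).summable
    refine h1.congr fun v => ?_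
    exact Complex.log_re _
  have hs2 : Summable fun v => (lam v ^ 2 - N v) * ((N v : ℂ) ^ (-(2 * s))).re := by
    refine Summable.of_norm_bounded (hss.mul_left 3) fun v => ?_
    obtain ⟨h1, -⟩ := sy_parts (hN v) (hlam v) hs rfl
    have h2 := (Complex.abs_re_le_norm _).trans h1
    rw [Complex.re_ofReal_mul] at h2
    rw [Real.norm_eq_abs]
    exact h2
  rw [hre, ← hs1.tsum_sub hs2]
  have hb : Summable fun v => 20 * (N v : ℝ) ^ (-(2 : ℝ)) := (hsum 2 one_lt_two).mul_left 20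
  rw [← Real.norm_eq_abs]
  refine tsum_of_norm_bounded hb.hasSum fun v => ?_
  rw [Real.norm_eq_abs]
  obtain ⟨h1, h2, h3⟩ := sy_W (hN v) (hlam v) hs
  have h4 := sy_log (w := syW (N v) (lam v) s) (by linarith)
  rw [← sy_eq] at h4
  have hN1 : (1 : ℝ) ≤ N v := by exact_mod_cast (by have := hN v; omega : 1 ≤ N v)
  have h5 : (N v : ℝ) ^ (-(2 * s.re - 1)) ≤ (N v : ℝ) ^ (-1 : ℝ) :=
    Real.rpow_le_rpow_of_exponent_le hN1 (by linarith)
  have h6 : ((N v : ℝ) ^ (-1 : ℝ)) ^ 2 = (N v : ℝ) ^ (-(2 : ℝ)) := by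
    rw [← Real.rpow_natCast, ← Real.rpow_mul (by linarith)]
    norm_num
  have h7 : ((N v : ℝ) ^ (-(2 * s.re - 1))) ^ 2 ≤ (N v : ℝ) ^ (-(2 : ℝ)) := by
    rw [← h6]
    exact pow_le_pow_left₀ (by positivity) h5 2
  have h8 : ‖syW (N v) (lam v) s‖ ^ 2 ≤ 16 * ((N v : ℝ) ^ (-(2 * s.re - 1))) ^ 2 := by
    calc ‖syW (N v) (lam v) s‖ ^ 2 ≤ (4 * (N v : ℝ) ^ (-(2 * s.re - 1))) ^ 2 :=
          pow_le_pow_left₀ (norm_nonneg _) h1 2
      _ = _ := by ring
  rw [abs_le] at h4 h2 ⊢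
  constructor <;> linarith [h4.1, h4.2, h2.1, h2.2]

end gen

end Pool.Agent.MD
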