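import Pool.Agent.MD.S.ZExt
import Pool.Agent.MD.S.GMid
import Pool.Agent.MD.S.SymD
import Pool.Agent.MD.I.Inst

/-!
# MD/S-Inst2: the instantiation with the additional axioms
-/

namespace Pool.Agent.MD

open NumberField IsDedekindDomain Pool.Agent.HWR Pool.Agent.QD Pool.Agent.QD.In Pool.Agent.LD

private theorem i2_away {K : Type} [Field K] [NumberField K] {T : Finset ℕ}
    (S : Finset (HeightOneSpectrum (𝓞 K))) (hST : ∀ v, ¬ Away K T v → v ∈ S) (v : Io S) :
    Away K T v.1 := by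
  by_contra h
  exact v.2 (hST v.1 h)

private theorem i2_sum {K : Type} [Field K] [NumberField K] {T : Finset ℕ}
    (x : ℝ) (hx : 1 < x) :
    Summable fun v : {v : HeightOneSpectrum (𝓞 K) // Away K T v} => (nrm v.1 : ℝ) ^ (-x) :=
  (summable_nrm K hx).comp_injective (Subtype.val_injective (p := fun w => Away K T w))

open Classical in
private theorem i2_split {K : Type} [Field K] [NumberField K] {T : Finset ℕ}
    (S : Finset (HeightOneSpectrum (𝓞 K))) (hST : ∀ v, ¬ Away K T v → v ∈ S)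
    (f : HeightOneSpectrum (𝓞 K) → ℂ)
    (hf : Summable fun v : {v : HeightOneSpectrum (𝓞 K) // Away K T v} => ‖f v.1 - 1‖) :
    ∏' v : {v : HeightOneSpectrum (𝓞 K) // Away K T v}, f v.1 =
      (∏ v ∈ S with Away K T v, f v) * ∏' v : Io S, f v.1 := by
  have h1 := tprod_split (S.subtype fun v => Away K T v) (fun v => f v.1) hf
  rw [h1]
  congr 1
  · rw [← Finset.prod_subtype_eq_prod_filter]
  · have hmem : ∀ v : Io S, (⟨v.1, i2_away S hST v⟩ :
        {v : HeightOneSpectrum (𝓞 K) // Away K T v}) ∉ S.subtype fun v => Away K T v := by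
      intro v h
      rw [Finset.mem_subtype] at h
      exact v.2 h
    let e : {v : {v : HeightOneSpectrum (𝓞 K) // Away K T v} //
        v ∉ S.subtype fun v => Away K T v} ≃ Io S :=
      { toFun := fun v => ⟨v.1.1, fun h => v.2 (Finset.mem_subtype.2 h)⟩
        invFun := fun v => ⟨⟨v.1, i2_away S hST v⟩, hmem v⟩
        left_inv := fun v => Subtype.ext (Subtype.ext rfl)
        right_inv := fun v => Subtype.ext rfl }
    exact Equiv.tprod_eq e (fun v : Io S => f v.1)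

theorem instS (K : Type) [Field K] [NumberField K] (T : Finset ℕ) (hTp : ∀ p ∈ T, p.Prime)
    (hT : ∀ p : ℕ, p.Prime → p < 101 → p ∈ T) (D : LocData T) (a : ℕ → ℝ)
    (ha : ∀ q : ℕ, |a q| ≤ 2 * Real.sqrt q) (ha2 : SqRel K T a)
    (V : Finset (HeightOneSpectrum (𝓞 K))) (hV : ∀ v ∈ V, Away K T v) (hne : V.Nonempty)
    (H : HWV D a V) :
    ∃ (S : SysD) (Hs : Subgroup S.G) (Kn : Set S.G) (M0 : S.G → ℂ → ℂ)
      (e p : {v // v ∈ V} → S.G) (F : Finset (HeightOneSpectrum (𝓞 K))),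
      IsSys0 S ∧ IsKn S Kn ∧ IsLocs S Hs Kn M0 e p (fun i : {v // v ∈ V} => nrm i.1)
        (fun i : {v // v ∈ V} => a (nrm i.1)) ∧ IsExt S ∧ (∀ v ∈ F, Away K T v) ∧
      (∀ s : ℂ, 3 / 2 < s.re → LT K a T s = S.Ls s * ∏ v ∈ F, efac a (nrm v) s) ∧
      ∀ s : ℂ, 1 < s.re → SP K a T s = Sym S s * ∏ v ∈ F, sfac (nrm v) (a (nrm v)) s := by
  classical
  have h2T : 2 ∈ T := hT 2 Nat.prime_two (by norm_num)
  obtain ⟨T1, S1, hTT, hT1p, hO, hG, hd1⟩ := exists_goodV K T hTp h2T V hV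
  have hS1 : Nic T1 S1 := ⟨hT1p, hTT h2T, S1, hO, hG, subset_rfl⟩
  obtain ⟨U, hU, hsep⟩ := exists_sep hS1 hd1 (101 * ∏ i : {v // v ∈ V}, nrm i.1)
  obtain ⟨S', hSe⟩ : ∃ S', U ∪ S1 = S' := ⟨_, rfl⟩
  have hS' : Nic T1 S' := by
    rw [← hSe]
    exact ⟨hT1p, hTT h2T, S1, hO, hG, Finset.subset_union_right⟩
  have hS : Nic T1 (V ∪ S') := by
    rw [← hSe]
    exact ⟨hT1p, hTT h2T, S1, hO, hG,
      Finset.subset_union_right.trans Finset.subset_union_right⟩
  have hd : ∀ v ∈ V, v ∉ S' := by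
    intro v hv h
    rw [← hSe, Finset.mem_union] at h
    rcases h with h | h
    · exact hU v hv h
    · exact hd1 v hv h
  have hsep' : ∀ (x : Kˣ) (b : Io (V ∪ S') →₀ ℕ), x ∈ Pool.Agent.QD.HSub S' →
      (∀ v : Io (V ∪ S'), ordK v.1 x = (b v : ℤ)) →
      (b.prod fun v k => nrm v.1 ^ k) < 101 * ∏ i : {v // v ∈ V}, nrm i.1 → IsSquare x := by
    subst hSe
    exact hsep
  have hST' : ∀ v, ¬ Away K T v → v ∈ S' := by
    intro v hv
    rw [← hSe, Finset.mem_union]
    exact Or.inr ((hO v).2 fun h => hv fun q hq => h q (hTT hq))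
  have hST : ∀ v, ¬ Away K T v → v ∈ V ∪ S' := fun v hv =>
    Finset.mem_union_right _ (hST' v hv)
  obtain ⟨E, P, hE⟩ := exists_EP hS' hd
  refine ⟨sys (V ∪ S') D a, HV (V ∪ S') V, KV (V ∪ S') V, M0V S' V,
    fun i => QuotientGroup.mk (E i), fun i => QuotientGroup.mk (P i),
    (V ∪ S').filter (fun v => Away K T v), isSys0 D hS hST hT ha ha2,
    isKn D hS hST hT ha ha2 Finset.subset_union_left hne H
      (fun x => GGX_inv D (V ∪ S') hT ha x),
    isLocs D hS' hST' hT ha ha2 hd hE hsep', ?_, ?_, ?_, ?_⟩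
  · exact { Z_one := fun m g h hn => zext_one D hS m g h hn
            Z_ne := zext_ne D hS
            Z1_ext := zext_ext D (V ∪ S')
            GG_mid := fun c => ⟨GGX_mid D (V ∪ S') hT ha (Quotient.out c),
              fun s h1 h2 => GGX_mid_ne D (V ∪ S') hT ha (Quotient.out c) h1 h2⟩ }
  · intro v hv
    exact (Finset.mem_filter.1 hv).2
  · intro s hs
    rw [LT_split (V ∪ S') hST hT ha hs]
    rfl
  · intro s hs
    have hg := gen_sum (fun v : {v : HeightOneSpectrum (𝓞 K) // Away K T v} => nrm v.1)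
      (fun v => a (nrm v.1)) (fun v => nrm_ge K T hT v.1 v.2) (fun v => ha _)
      (fun x hx => i2_sum x hx) hs
    unfold SP
    rw [i2_split (V ∪ S') hST (fun v => sfac (nrm v) (a (nrm v)) s) hg, mul_comm]
    rfl

end Pool.Agent.MD
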