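import Pool.Agent.MD.S.QA
import Pool.Agent.MD.S.Inst2
import Pool.Agent.MD.S.Bfun

/-!
# MD/S-SymK: the product of the L-function and the symmetric square

PLAN.  `instS`, `exists_Q` (`κ = {v // v ∈ V}`, `classical`), `exists_b`.  `N s = Q s * ∏ i, ka (2 - s)`; `B s = c0 * GG (2 - s) * ∏ lcf * b s * b (s + 1/2) * (2 s - 2) * Z (2 s - 1) * (∏ v ∈ F, (sfac (nrm v) (a (nrm v)) s)⁻¹)` with `Z` from `hE.Z1_ext`.  Both are differentiable on
`1/2 < Re s < 3/2` (`GG_mid` at `2 - s`, `sfac_diff`; `ka` is differentiable).  Identity: both sides are differentiable on the convex open set `1 < Re s < R + 1` (`B` also there: `GG (2 - s)` for `Re s > 1/2`, `b` for `Re s > 1/2`; `R1 s`, `R1 (s + 1/2)`; `SP = Sym * ∏ sfac`, `gen_diff`) and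
agree for `R < Re s < R + 1`: `exists_Q`, `Ls = b Lam = b R1` at `s` and `s + 1/2`, `(2s-2)^2 Z1 (2s-1) = (2s-2) Z (2s-1)`.  `B (5/4) ≠ 0`: `GG_mid`, `lcf_ne`, `b ≠ 0`, `Z (3/2) = (1/2) Z1 (3/2) ≠ 0` (`Z1_ne`), `sfac_ne`; `c0 ≠ 0`.
-/

namespace Pool.Agent.MD

open NumberField IsDedekindDomain Pool.Agent.HWR Pool.Agent.QD Pool.Agent.LD

private theorem sk_strip (a b : ℝ) : IsOpen {s : ℂ | a < s.re ∧ s.re < b} :=
  (isOpen_lt continuous_const Complex.continuous_re).inter
    (isOpen_lt Complex.continuous_re continuous_const)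

private theorem sk_half (a : ℝ) : IsOpen {s : ℂ | a < s.re} :=
  isOpen_lt continuous_const Complex.continuous_re

private theorem sk_conv (a b : ℝ) : Convex ℝ {s : ℂ | a < s.re ∧ s.re < b} := by
  have h : {s : ℂ | a < s.re ∧ s.re < b} = Complex.reLm ⁻¹' Set.Ioo a b := rfl
  rw [h]
  exact (convex_Ioo a b).linear_preimage Complex.reLm

private theorem sk_ka {q : ℕ} (hq : 101 ≤ q) (lam : ℝ) : Differentiable ℂ (ka q lam) := by
  have h0 : (q : ℂ) ≠ 0 := by
    have : q ≠ 0 := by omega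
    exact_mod_cast this
  have h1 : Differentiable ℂ (fun s : ℂ => (q : ℂ) ^ (1 - s)) := fun s =>
    ((differentiableAt_const _).sub differentiableAt_id).const_cpow (Or.inl h0)
  have h2 : Differentiable ℂ (fun s : ℂ => (q : ℂ) ^ (3 - 2 * s)) := fun s =>
    ((differentiableAt_const _).sub (differentiableAt_id.const_mul 2)).const_cpow (Or.inl h0)
  exact ((differentiable_const (1 : ℂ)).add (h1.const_mul (lam : ℂ))).add h2

theorem symK (K : Type) [Field K] [NumberField K] (T : Finset ℕ) (hTp : ∀ p ∈ T, p.Prime)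
    (hT : ∀ p : ℕ, p.Prime → p < 101 → p ∈ T) (D : LocData T) (a : ℕ → ℝ)
    (ha : ∀ q : ℕ, |a q| ≤ 2 * Real.sqrt q) (ha2 : SqRel K T a)
    (V : Finset (HeightOneSpectrum (𝓞 K))) (hV : ∀ v ∈ V, Away K T v) (hne : V.Nonempty)
    (H : HWV D a V) (R1 : ℂ → ℂ) (hR1 : DifferentiableOn ℂ R1 {s : ℂ | 1 < s.re})
    (hR1e : ∀ s : ℂ, 3 / 2 < s.re → R1 s = D.Lam a K s) :
    ∃ N B : ℂ → ℂ, DifferentiableOn ℂ N {s : ℂ | 1 / 2 < s.re ∧ s.re < 3 / 2} ∧
      DifferentiableOn ℂ B {s : ℂ | 1 / 2 < s.re ∧ s.re < 3 / 2} ∧ B (5 / 4) ≠ 0 ∧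
      ∀ s : ℂ, 1 < s.re → s.re < 3 / 2 → N s = B s * R1 s * R1 (s + 1 / 2) * SP K a T s := by
  classical
  obtain ⟨S, Hs, Kn, M0, e, p, F, hS, hG, hL, hE, hF, hLs, hSP⟩ :=
    instS K T hTp hT D a ha ha2 V hV hne H
  obtain ⟨R, c0, Q, hR, hc0, hQd, hQe⟩ := exists_Q hS hE hG hL
  obtain ⟨b, hbd, hbn, hbe⟩ := exists_b K T hTp hT D a ha S F hF hLs
  obtain ⟨Z, hZd, hZe⟩ := hE.Z1_ext
  have hq : ∀ v, Away K T v → 101 ≤ nrm v := fun v hv => nrm_away K T hT v hv
  set N : ℂ → ℂ := fun s => Q s * ∏ i : {v // v ∈ V}, ka (nrm i.1) (a (nrm i.1)) (2 - s) with hN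
  set B : ℂ → ℂ := fun s => c0 * S.GG (cl e p fun _ => ef false) (2 - s) *
    (∏ i : {v // v ∈ V}, lcf (nrm i.1) (a (nrm i.1)) s) *
    (b s * b (s + 1 / 2) * ((2 * s - 2) * Z (2 * s - 1))) *
    ∏ v ∈ F, (sfac (nrm v) (a (nrm v)) s)⁻¹ with hB
  -- differentiability
  have hNd : DifferentiableOn ℂ N {s : ℂ | 0 < s.re ∧ s.re < R + 1} := by
    rw [hN]
    refine hQd.mul (Differentiable.differentiableOn ?_)
    refine Differentiable.fun_finset_prod fun i _ => ?_
    exact (sk_ka (hq _ (hV _ i.2)) _).comp ((differentiable_const 2).sub differentiable_id)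
  have hBd : DifferentiableOn ℂ B {s : ℂ | 1 / 2 < s.re} := by
    rw [hB]
    refine DifferentiableOn.mul (DifferentiableOn.mul (DifferentiableOn.mul
      (DifferentiableOn.const_mul ?_ c0) ?_) ?_) ?_
    · refine (hE.GG_mid _).1.comp
        ((differentiable_const (2 : ℂ)).sub differentiable_id).differentiableOn ?_
      intro s hs
      have h1 : 1 / 2 < s.re := hs
      show ((2 : ℂ) - s).re < 3 / 2
      rw [Complex.sub_re]
      norm_num
      linarith
    · refine Differentiable.differentiableOn ?_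
      exact Differentiable.fun_finset_prod fun i _ => lcf_diff (hq _ (hV _ i.2)) _
    · refine (hbd.mul ?_).mul (Differentiable.differentiableOn ?_)
      · refine hbd.comp (differentiable_id.add (differentiable_const (1 / 2))).differentiableOn ?_
        intro s hs
        have h1 : 1 / 2 < s.re := hs
        show 1 / 2 < (s + 1 / 2 : ℂ).re
        rw [Complex.add_re]
        norm_num
        linarith
      · refine Differentiable.mul ((differentiable_id.const_mul 2).sub (differentiable_const 2)) ?_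
        exact hZd.comp ((differentiable_id.const_mul 2).sub (differentiable_const 1))
    · refine Differentiable.differentiableOn ?_
      exact Differentiable.fun_finset_prod fun v hv => sfac_diff (hq _ (hF v hv)) (ha _)
  have hSPd : DifferentiableOn ℂ (SP K a T) {s : ℂ | 1 < s.re} := by
    refine gen_diff (fun v : {v : HeightOneSpectrum (𝓞 K) // Away K T v} => nrm v.1)
      (fun v => a (nrm v.1)) (fun v => hq _ v.2) (fun v => ha _) ?_
    intro x hx
    exact (Pool.Agent.HWR.summable_nrm K hx).comp_injective Subtype.val_injective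
  refine ⟨N, B, ?_, ?_, ?_, ?_⟩
  · refine hNd.mono ?_
    rintro s ⟨h1, h2⟩
    exact ⟨by linarith, by linarith⟩
  · exact hBd.mono fun s hs => hs.1
  · have r54 : ((5 / 4 : ℂ)).re = 5 / 4 := by norm_num
    have h1 : S.GG (cl e p fun _ => ef false) (2 - 5 / 4) ≠ 0 := by
      apply (hE.GG_mid _).2
      · norm_num
      · norm_num
    have h2 : ∀ i : {v // v ∈ V}, lcf (nrm i.1) (a (nrm i.1)) (5 / 4) ≠ 0 := fun i =>
      lcf_ne (hq _ (hV _ i.2)) (ha _)
    have h3 : b (5 / 4) ≠ 0 := hbn _ (by norm_num)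
    have h4 : b (5 / 4 + 1 / 2) ≠ 0 := hbn _ (by norm_num)
    have h5 : Z (2 * (5 / 4) - 1) ≠ 0 := by
      rw [hZe _ (by norm_num)]
      refine mul_ne_zero (by norm_num) (Z1_ne hS (by norm_num))
    have h6 : ∀ v ∈ F, sfac (nrm v) (a (nrm v)) (5 / 4) ≠ 0 := fun v hv =>
      sfac_ne (hq _ (hF v hv)) (ha _) (by norm_num)
    show c0 * S.GG (cl e p fun _ => ef false) (2 - 5 / 4) *
      (∏ i : {v // v ∈ V}, lcf (nrm i.1) (a (nrm i.1)) (5 / 4)) *
      (b (5 / 4) * b (5 / 4 + 1 / 2) * ((2 * (5 / 4) - 2) * Z (2 * (5 / 4) - 1))) *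
      ∏ v ∈ F, (sfac (nrm v) (a (nrm v)) (5 / 4))⁻¹ ≠ 0
    refine mul_ne_zero (mul_ne_zero (mul_ne_zero (mul_ne_zero hc0 h1) ?_) ?_) ?_
    · exact Finset.prod_ne_zero_iff.2 fun i _ => h2 i
    · exact mul_ne_zero (mul_ne_zero h3 h4) (mul_ne_zero (by norm_num) h5)
    · exact Finset.prod_ne_zero_iff.2 fun v hv => inv_ne_zero (h6 v hv)
  · -- identity theorem
    set G2 : ℂ → ℂ := fun s => B s * R1 s * R1 (s + 1 / 2) * SP K a T s with hG2
    have hU := sk_strip 1 (R + 1)
    have hNU : DifferentiableOn ℂ N {s : ℂ | 1 < s.re ∧ s.re < R + 1} :=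
      hNd.mono fun s hs => ⟨by linarith [hs.1], hs.2⟩
    have hR1' : DifferentiableOn ℂ (fun s => R1 (s + 1 / 2)) {s : ℂ | 1 < s.re} := by
      refine hR1.comp (differentiable_id.add (differentiable_const (1 / 2))).differentiableOn ?_
      intro s hs
      have h1 : 1 < s.re := hs
      show 1 < (s + 1 / 2 : ℂ).re
      rw [Complex.add_re]
      norm_num
      linarith
    have hGU : DifferentiableOn ℂ G2 {s : ℂ | 1 < s.re ∧ s.re < R + 1} := by
      have h1 : DifferentiableOn ℂ B {s : ℂ | 1 < s.re} :=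
        hBd.mono fun s hs => by
          have h2 : 1 < s.re := hs
          show 1 / 2 < s.re
          linarith
      exact (((h1.mul hR1).mul hR1').mul hSPd).mono fun s hs => hs.1
    have hagree : ∀ s : ℂ, R < s.re → s.re < R + 1 → N s = G2 s := by
      intro s h1 h2
      have h3 : N s = _ := hQe s h1 h2
      have h4 : S.Ls s = b s * R1 s := by
        rw [hbe s (by linarith), hR1e s (by linarith)]
      have hre : (s + 1 / 2 : ℂ).re = s.re + 1 / 2 := by
        rw [Complex.add_re]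
        norm_num
      have h5 : S.Ls (s + 1 / 2) = b (s + 1 / 2) * R1 (s + 1 / 2) := by
        rw [hbe _ (by rw [hre]; linarith), hR1e _ (by rw [hre]; linarith)]
      have h6 : (2 * s - 2) ^ 2 * S.Z1 (2 * s - 1) = (2 * s - 2) * Z (2 * s - 1) := by
        have hre2 : (2 * s - 1 : ℂ).re = 2 * s.re - 1 := by
          rw [Complex.sub_re, Complex.mul_re]
          norm_num
        rw [hZe _ (by rw [hre2]; linarith)]
        ring
      have h7 : Sym S s = SP K a T s * ∏ v ∈ F, (sfac (nrm v) (a (nrm v)) s)⁻¹ := by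
        rw [hSP s (by linarith), Finset.prod_inv_distrib, mul_assoc, mul_inv_cancel₀, mul_one]
        exact Finset.prod_ne_zero_iff.2 fun v hv => sfac_ne (hq _ (hF v hv)) (ha _) (by linarith)
      rw [h3, h4, h5, h6, h7, hG2, hB]
      ring
    have hev : N =ᶠ[nhds ((R + 1 / 2 : ℝ) : ℂ)] G2 := by
      have hmem : {s : ℂ | R < s.re ∧ s.re < R + 1} ∈ nhds ((R + 1 / 2 : ℝ) : ℂ) := by
        refine (sk_strip R (R + 1)).mem_nhds ⟨?_, ?_⟩
        · rw [Complex.ofReal_re]
          linarith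
        · rw [Complex.ofReal_re]
          linarith
      filter_upwards [hmem] with s hs
      exact hagree s hs.1 hs.2
    have heq := (hNU.analyticOnNhd hU).eqOn_of_preconnected_of_eventuallyEq
      (hGU.analyticOnNhd hU) (sk_conv 1 (R + 1)).isPreconnected
      (show ((R + 1 / 2 : ℝ) : ℂ) ∈ {s : ℂ | 1 < s.re ∧ s.re < R + 1} from by
        refine ⟨?_, ?_⟩
        · rw [Complex.ofReal_re]
          linarith
        · rw [Complex.ofReal_re]
          linarith) hev
    intro s h1 h2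
    exact heq ⟨h1, by linarith⟩

end Pool.Agent.MD
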