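import Pool.Agent.QD.A.LocSeq
import Pool.Agent.QD.A.LocQfe

/-!
# MD/S-Loc: the column polynomials at `y = 1/N`

PLAN.  `Qw_one`: from LocQfe.lean (its private lemmas on power series may be copied): `(∑ Qw (2m) y X^m) * D = [(1+NX)(1+NXy)(1+N²Xy²) - l² X y (1+N² X y)]`, `D = E2(X) E2(N X y²) (1 - N⁴ X² y²)`; at `y = 1/N`:
numerator `= (1 + N X) ((1 + X)² - l² X / N) = (1 + N X) E2(X / N)`, `D = E2(X) E2(X/N) (1 - N² X²)`, so (power series with constant coefficient `1` can be cancelled) `(∑ Qw (2m) (1/N) X^m) * (E2(X) (1 - N X)) = 1`, and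
`1/E2(X) = ∑ l2 i X^i`, `1/(1 - N X) = ∑ N^j X^j`.  (Or directly by induction.)  `loc_one`: Cauchy product (`HasSum.mul..`, `tsum_mul_tsum_eq_tsum_sum_antidiagonal_of_summable_norm`, `summable_norm_sum_mul_antidiagonal_of_summable_norm`) of `lseq_gen` (`l2_par`) and the geometric
series (`N ‖X‖ < 1`).  Checked numerically.
-/

namespace Pool.Agent.MD

open Pool.Agent.QD

open PowerSeries

private theorem lq_three {P Q : PowerSeries ℂ} (h0 : coeff 0 P = coeff 0 Q)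
    (h1 : coeff 1 P = coeff 1 Q) (h2 : ∀ n, coeff (n + 2) P = coeff (n + 2) Q) : P = Q := by
  ext n
  match n with
  | 0 => exact h0
  | 1 => exact h1
  | (n + 2) => exact h2 n

private theorem lq_quad (S : PowerSeries ℂ) (a b : ℂ) :
    S * (1 - C a * X + C b * X ^ 2) = S - C a * (X * S) + C b * (X * (X * S)) := by
  ring

private theorem lq_c0 (S : PowerSeries ℂ) (a b : ℂ) :
    coeff 0 (S * (1 - C a * X + C b * X ^ 2)) = coeff 0 S := by
  rw [lq_quad, map_add, map_sub, coeff_C_mul, coeff_C_mul, coeff_zero_X_mul, coeff_zero_X_mul]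
  ring

private theorem lq_c1 (S : PowerSeries ℂ) (a b : ℂ) :
    coeff 1 (S * (1 - C a * X + C b * X ^ 2)) = coeff 1 S - a * coeff 0 S := by
  have h1 : coeff 1 (X * S) = coeff 0 S := coeff_succ_X_mul 0 S
  have h2 : coeff 1 (X * (X * S)) = coeff 0 (X * S) := coeff_succ_X_mul 0 (X * S)
  rw [lq_quad, map_add, map_sub, coeff_C_mul, coeff_C_mul, h1, h2, coeff_zero_X_mul]
  ring

private theorem lq_c2 (S : PowerSeries ℂ) (a b : ℂ) (n : ℕ) :
    coeff (n + 2) (S * (1 - C a * X + C b * X ^ 2)) =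
      coeff (n + 2) S - a * coeff (n + 1) S + b * coeff n S := by
  rw [lq_quad, map_add, map_sub, coeff_C_mul, coeff_C_mul, coeff_succ_X_mul, coeff_succ_X_mul,
    coeff_succ_X_mul]

private theorem lseq_ps (p q : ℝ) (c : ℂ) :
    (PowerSeries.mk fun i => (lseq p q i : ℂ) * c ^ i) *
      (1 - C ((p : ℂ) * c) * X + C ((q : ℂ) * c ^ 2) * X ^ 2) = 1 := by
  apply lq_three
  · rw [lq_c0, coeff_mk, coeff_one, if_pos rfl]
    simp [lseq]
  · rw [lq_c1, coeff_mk, coeff_mk, coeff_one, if_neg one_ne_zero]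
    simp [lseq]
  · intro n
    rw [lq_c2, coeff_mk, coeff_mk, coeff_mk, coeff_one, if_neg (by omega)]
    have h : (lseq p q (n + 2) : ℂ) = (p : ℂ) * lseq p q (n + 1) - q * lseq p q n := by
      rw [lseq]; push_cast; ring
    rw [h]
    ring

private theorem l1_four (N l : ℝ) (n : ℕ) :
    l1 N l (n + 4) = (l ^ 2 - 2 * N) * l1 N l (n + 2) - N ^ 2 * l1 N l n := by
  have h2 : l1 N l (n + 2) = l * l1 N l (n + 1) - N * l1 N l n := by
    unfold l1; rw [lseq]
  have h3 : l1 N l (n + 3) = l * l1 N l (n + 2) - N * l1 N l (n + 1) := by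
    unfold l1; rw [lseq]
  have h4 : l1 N l (n + 4) = l * l1 N l (n + 3) - N * l1 N l (n + 2) := by
    unfold l1; rw [lseq]
  rw [h4, h3]
  linear_combination N * h2

/-- even part of `1/E` -/
private theorem l1_even_ps (N l : ℝ) :
    (PowerSeries.mk fun k => (l1 N l (2 * k) : ℂ)) *
      (1 - C ((l : ℂ) ^ 2 - 2 * (N : ℂ)) * X + C ((N : ℂ) ^ 2) * X ^ 2) = 1 + C (N : ℂ) * X := by
  apply lq_three
  · rw [lq_c0, coeff_mk]
    simp [l1, lseq]
  · rw [lq_c1, coeff_mk, coeff_mk]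
    simp only [map_add, coeff_one, coeff_C_mul, coeff_one_X, l1, lseq]
    push_cast
    simp
    ring
  · intro n
    rw [lq_c2, coeff_mk, coeff_mk, coeff_mk]
    have h : (l1 N l (2 * (n + 2)) : ℂ) = ((l : ℂ) ^ 2 - 2 * (N : ℂ)) * l1 N l (2 * (n + 1)) -
        (N : ℂ) ^ 2 * l1 N l (2 * n) := by
      have := l1_four N l (2 * n)
      rw [show 2 * (n + 2) = 2 * n + 4 by ring, show 2 * (n + 1) = 2 * n + 2 by ring, this]
      push_cast
      ring
    rw [h, map_add, coeff_one, coeff_C_mul, coeff_X, if_neg (by omega), if_neg (by omega)]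
    ring

private theorem geo2_ps (c : ℂ) :
    (PowerSeries.mk fun k => if Even k then c ^ (k / 2) else 0) *
      (1 - C (0 : ℂ) * X + C (-c) * X ^ 2) = 1 := by
  apply lq_three
  · rw [lq_c0, coeff_mk]
    simp
  · rw [lq_c1, coeff_mk, coeff_mk]
    simp [coeff_one]
  · intro n
    rw [lq_c2, coeff_mk, coeff_mk, coeff_mk, coeff_one, if_neg (show n + 2 ≠ 0 by omega)]
    by_cases h : Even n
    · rw [if_pos (h.add even_two), if_pos h, show (n + 2) / 2 = n / 2 + 1 by omega]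
      ring
    · rw [if_neg (fun h' => h ((Nat.even_add.1 h').2 even_two)), if_neg h]
      ring

private theorem conv2 (g h : ℕ → ℂ) {r M : ℕ} (hM : r < M) :
    coeff r ((PowerSeries.mk fun k => if Even k then g (k / 2) else 0) * PowerSeries.mk h) =
      ∑ j ∈ Finset.range M, if 2 * j ≤ r then g j * h (r - 2 * j) else 0 := by
  rw [coeff_mul, Finset.Nat.sum_antidiagonal_eq_sum_range_succ
    (fun i j => coeff i (PowerSeries.mk fun k => if Even k then g (k / 2) else 0) *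
      coeff j (PowerSeries.mk h)) r]
  simp only [coeff_mk, ite_mul, zero_mul]
  rw [← Finset.sum_filter, ← Finset.sum_filter]
  refine Finset.sum_nbij' (fun k => k / 2) (fun j => 2 * j) ?_ ?_ ?_ ?_ ?_
  · intro k hk
    rw [Finset.mem_filter, Finset.mem_range] at hk ⊢
    omega
  · intro j hj
    rw [Finset.mem_filter, Finset.mem_range] at hj ⊢
    exact ⟨by omega, even_two_mul j⟩
  · intro k hk
    rw [Finset.mem_filter] at hk
    obtain ⟨t, ht⟩ := hk.2
    show 2 * (k / 2) = k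
    omega
  · intro j hj
    show 2 * j / 2 = j
    omega
  · intro k hk
    rw [Finset.mem_filter] at hk
    obtain ⟨t, ht⟩ := hk.2
    show g (k / 2) * h (r - k) = g (k / 2) * h (r - 2 * (k / 2))
    rw [show 2 * (k / 2) = k by omega]

private theorem conv3 (f g h : ℕ → ℂ) {m M : ℕ} (hM : m < M) :
    ∑ i ∈ Finset.range M, ∑ j ∈ Finset.range M,
      (if i + 2 * j ≤ m then f i * g j * h (m - (i + 2 * j)) else 0) =
    coeff m (PowerSeries.mk f *
      ((PowerSeries.mk fun k => if Even k then g (k / 2) else 0) * PowerSeries.mk h)) := by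
  rw [coeff_mul, Finset.Nat.sum_antidiagonal_eq_sum_range_succ
    (fun i j => coeff i (PowerSeries.mk f) *
      coeff j ((PowerSeries.mk fun k => if Even k then g (k / 2) else 0) * PowerSeries.mk h)) m]
  rw [← Finset.sum_subset (Finset.range_mono (show m + 1 ≤ M from hM))]
  · refine Finset.sum_congr rfl fun i hi => ?_
    rw [Finset.mem_range] at hi
    rw [coeff_mk, conv2 g h (show m - i < M by omega), Finset.mul_sum]
    refine Finset.sum_congr rfl fun j _ => ?_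
    by_cases h1 : i + 2 * j ≤ m
    · rw [if_pos h1, if_pos (by omega), show m - i - 2 * j = m - (i + 2 * j) by omega]
      ring
    · rw [if_neg h1, if_neg (by omega), mul_zero]
  · intro i _ hi
    rw [Finset.mem_range, not_lt] at hi
    refine Finset.sum_eq_zero fun j _ => ?_
    rw [if_neg (by omega)]

/-- the first factor -/
private noncomputable def qS1 (N l : ℝ) (y : ℂ) : PowerSeries ℂ :=
  PowerSeries.mk fun i => (l2 N l i : ℂ) * ((N : ℂ) * y ^ 2) ^ i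

/-- the second factor -/
private noncomputable def qS2 (N : ℝ) (y : ℂ) : PowerSeries ℂ :=
  PowerSeries.mk fun k => if Even k then ((N : ℂ) ^ 4 * y ^ 2) ^ (k / 2) else 0

private noncomputable def qHe (N l : ℝ) (y : ℂ) : ℕ → ℂ := fun k =>
  (1 - y) * ((l1 N l (2 * k) : ℂ) -
    (if 2 ≤ k then (N : ℂ) ^ 3 * (l1 N l (2 * (k - 2)) : ℂ) * y ^ 2 else 0)) +
    (if k = 0 then y else 0) + (if k = 1 then (N : ℂ) ^ 2 * y ^ 2 else 0)

private theorem Qw_even (N l : ℝ) (y : ℂ) (m : ℕ) :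
    Qw N l (2 * m) y = coeff m (qS1 N l y * (qS2 N y * PowerSeries.mk (qHe N l y))) := by
  unfold qS1 qS2
  rw [← conv3 (fun i => (l2 N l i : ℂ) * ((N : ℂ) * y ^ 2) ^ i)
    (fun j => ((N : ℂ) ^ 4 * y ^ 2) ^ j) (qHe N l y) (show m < 2 * m + 1 by omega)]
  unfold Qw
  refine Finset.sum_congr rfl fun i _ => Finset.sum_congr rfl fun j _ => ?_
  by_cases h : i + 2 * j ≤ m
  · rw [if_pos h, if_pos (by omega), if_pos (even_two_mul m)]
    unfold qHe
    have h1 : 2 * m - (2 * i + 4 * j) = 2 * (m - (i + 2 * j)) := by omega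
    rw [h1]
    set k := m - (i + 2 * j) with hk
    have e1 : (if 4 ≤ 2 * k then (N : ℂ) ^ 3 * (l1 N l (2 * k - 4) : ℂ) * y ^ 2 else 0) =
        if 2 ≤ k then (N : ℂ) ^ 3 * (l1 N l (2 * (k - 2)) : ℂ) * y ^ 2 else 0 := by
      by_cases h2 : 2 ≤ k
      · rw [if_pos h2, if_pos (by omega), show 2 * k - 4 = 2 * (k - 2) by omega]
      · rw [if_neg h2, if_neg (by omega)]
    have e2 : (if 2 * k = 0 then y else 0) = if k = 0 then y else 0 := by
      by_cases h2 : k = 0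
      · rw [if_pos h2, if_pos (by omega)]
      · rw [if_neg h2, if_neg (by omega)]
    have e3 : (if 2 * k = 2 then (N : ℂ) ^ 2 * y ^ 2 else 0) =
        if k = 1 then (N : ℂ) ^ 2 * y ^ 2 else 0 := by
      by_cases h2 : k = 1
      · rw [if_pos h2, if_pos (by omega)]
      · rw [if_neg h2, if_neg (by omega)]
    rw [e1, e2, e3]
    ring
  · rw [if_neg h, if_neg (by omega)]

private theorem qHe_ps (N l : ℝ) (y : ℂ) :
    PowerSeries.mk (qHe N l y) = C (1 - y) * ((PowerSeries.mk fun k => (l1 N l (2 * k) : ℂ)) -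
      C ((N : ℂ) ^ 3 * y ^ 2) * (X ^ 2 * PowerSeries.mk fun k => (l1 N l (2 * k) : ℂ))) +
      C y + C ((N : ℂ) ^ 2 * y ^ 2) * X := by
  ext k
  rw [coeff_mk, map_add, map_add, coeff_C_mul, map_sub, coeff_C_mul, coeff_X_pow_mul', coeff_mk,
    coeff_C, coeff_C_mul, coeff_X]
  unfold qHe
  by_cases h2 : 2 ≤ k
  · rw [if_pos h2, if_pos h2, coeff_mk]
    simp only [mul_ite, mul_one, mul_zero]
    ring
  · rw [if_neg h2, if_neg h2]
    simp only [mul_ite, mul_one, mul_zero]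

/-- the common denominator `D` -/
private noncomputable def qD (N l : ℝ) (y : ℂ) : PowerSeries ℂ :=
  (1 - C ((l : ℂ) ^ 2 - 2 * (N : ℂ)) * X + C ((N : ℂ) ^ 2) * X ^ 2) *
    ((1 - C ((l : ℂ) ^ 2 - 2 * (N : ℂ)) * (C ((N : ℂ) * y ^ 2) * X) +
      C ((N : ℂ) ^ 2) * (C ((N : ℂ) * y ^ 2) * X) ^ 2) *
      (1 - C ((N : ℂ) ^ 4 * y ^ 2) * X ^ 2))

private theorem qS_D (N l : ℝ) (y : ℂ) (H : PowerSeries ℂ) :
    (qS1 N l y * (qS2 N y * H)) * qD N l y =
      H * (1 - C ((l : ℂ) ^ 2 - 2 * (N : ℂ)) * X + C ((N : ℂ) ^ 2) * X ^ 2) := by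
  have h1 := lseq_ps (l ^ 2 - 2 * N) (N ^ 2) ((N : ℂ) * y ^ 2)
  have h2 := geo2_ps ((N : ℂ) ^ 4 * y ^ 2)
  have h1' : qS1 N l y * (1 - C ((l : ℂ) ^ 2 - 2 * (N : ℂ)) * (C ((N : ℂ) * y ^ 2) * X) +
      C ((N : ℂ) ^ 2) * (C ((N : ℂ) * y ^ 2) * X) ^ 2) = 1 := by
    refine Eq.trans ?_ h1
    have e1 : ((l ^ 2 - 2 * N : ℝ) : ℂ) = (l : ℂ) ^ 2 - 2 * (N : ℂ) := by push_cast; ring
    have e2 : ((N ^ 2 : ℝ) : ℂ) = (N : ℂ) ^ 2 := by push_cast; ring
    rw [e1, e2]
    unfold qS1 l2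
    rw [map_mul C ((l : ℂ) ^ 2 - 2 * (N : ℂ)), map_mul C ((N : ℂ) ^ 2),
      map_pow C ((N : ℂ) * y ^ 2)]
    ring
  have h2' : qS2 N y * (1 - C ((N : ℂ) ^ 4 * y ^ 2) * X ^ 2) = 1 := by
    refine Eq.trans ?_ h2
    unfold qS2
    rw [map_zero, map_neg]
    ring
  unfold qD
  linear_combination (H * (1 - C ((l : ℂ) ^ 2 - 2 * (N : ℂ)) * X + C ((N : ℂ) ^ 2) * X ^ 2)) *
    (qS2 N y * (1 - C ((N : ℂ) ^ 4 * y ^ 2) * X ^ 2)) * h1' +
    (H * (1 - C ((l : ℂ) ^ 2 - 2 * (N : ℂ)) * X + C ((N : ℂ) ^ 2) * X ^ 2)) * h2'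

private theorem qD_ne (N l : ℝ) (y : ℂ) : qD N l y ≠ 0 := by
  intro h
  have h1 := congrArg (constantCoeff (R := ℂ)) h
  unfold qD at h1
  simp at h1

/-- numerator, even case -/
private theorem q_even_num (N l : ℝ) (y : ℂ) :
    (qS1 N l y * (qS2 N y * PowerSeries.mk (qHe N l y))) * qD N l y =
      (1 + C (N : ℂ) * X) * (1 + C ((N : ℂ) * y) * X) * (1 + C ((N : ℂ) ^ 2 * y ^ 2) * X) -
        C ((l : ℂ) ^ 2 * y) * X * (1 + C ((N : ℂ) ^ 2 * y) * X) := by
  rw [qS_D, qHe_ps]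
  have h := l1_even_ps N l
  set A := PowerSeries.mk fun k => (l1 N l (2 * k) : ℂ) with hA
  simp only [map_mul, map_pow, map_sub, map_one, map_ofNat] at h ⊢
  linear_combination ((1 - C y) * (1 - C (N : ℂ) ^ 3 * C y ^ 2 * X ^ 2)) * h

theorem Qw_one {N l : ℝ} (hN : N ≠ 0) (k : ℕ) :
    Qw N l (2 * k) ((N : ℂ)⁻¹) =
      ∑ i ∈ Finset.range (k + 1), (l2 N l i : ℂ) * (N : ℂ) ^ (k - i) := by
  have hN' : (N : ℂ) ≠ 0 := by exact_mod_cast hN
  set y : ℂ := (N : ℂ)⁻¹ with hy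
  have hNy : (N : ℂ) * y = 1 := mul_inv_cancel₀ hN'
  have hC : C (N : ℂ) * C y = (1 : PowerSeries ℂ) := by
    rw [← map_mul, hNy, map_one]
  have key : qS1 N l y * (qS2 N y * PowerSeries.mk (qHe N l y)) =
      (PowerSeries.mk fun i => (l2 N l i : ℂ)) * (PowerSeries.mk fun j => (N : ℂ) ^ j) := by
    have h1 := q_even_num N l y
    set Q := qS1 N l y * (qS2 N y * PowerSeries.mk (qHe N l y)) with hQ
    unfold qD at h1
    simp only [map_mul, map_pow, map_sub, map_ofNat] at h1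
    have hE : (PowerSeries.mk fun i => (l2 N l i : ℂ)) *
        (1 - (C (l : ℂ) ^ 2 - 2 * C (N : ℂ)) * X + C (N : ℂ) ^ 2 * X ^ 2) = 1 := by
      have h2 := lseq_ps (l ^ 2 - 2 * N) (N ^ 2) 1
      refine Eq.trans ?_ h2
      have e1 : ((l ^ 2 - 2 * N : ℝ) : ℂ) = (l : ℂ) ^ 2 - 2 * (N : ℂ) := by push_cast; ring
      have e2 : ((N ^ 2 : ℝ) : ℂ) = (N : ℂ) ^ 2 := by push_cast; ring
      rw [e1, e2]
      simp only [one_pow, mul_one, map_mul, map_pow, map_sub, map_ofNat]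
      rfl
    have hG : (PowerSeries.mk fun j => (N : ℂ) ^ j) * (1 - C (N : ℂ) * X) = 1 := by
      ext n
      cases n with
      | zero =>
        rw [mul_sub, map_sub, mul_one, coeff_mk, ← mul_assoc, coeff_zero_mul_X, coeff_one,
          if_pos rfl]
        simp
      | succ n =>
        rw [mul_sub, map_sub, mul_one, coeff_mk, ← mul_assoc, coeff_succ_mul_X, mul_comm,
          coeff_C_mul, coeff_mk, coeff_one, if_neg (Nat.succ_ne_zero n)]
        ring
    have hM : (1 + C (N : ℂ) * X) * ((1 + X) ^ 2 - C (l : ℂ) ^ 2 * C y * X) ≠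
        (0 : PowerSeries ℂ) := by
      intro h
      have h3 := congrArg (constantCoeff (R := ℂ)) h
      simp at h3
    apply mul_right_cancel₀ hM
    have h4 : Q * ((1 - (C (l : ℂ) ^ 2 - 2 * C (N : ℂ)) * X + C (N : ℂ) ^ 2 * X ^ 2) *
        (((1 + X) ^ 2 - C (l : ℂ) ^ 2 * C y * X) * ((1 - C (N : ℂ) * X) * (1 + C (N : ℂ) * X)))) =
        (1 + C (N : ℂ) * X) * ((1 + X) ^ 2 - C (l : ℂ) ^ 2 * C y * X) := by
      have f1 : C (N : ℂ) * C y ^ 2 = (C y : PowerSeries ℂ) := by linear_combination C y * hC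
      have f2 : C (N : ℂ) ^ 2 * C y ^ 2 = (1 : PowerSeries ℂ) := by
        linear_combination (C (N : ℂ) * C y + 1) * hC
      have f3 : C (N : ℂ) ^ 4 * C y ^ 2 = (C (N : ℂ) ^ 2 : PowerSeries ℂ) := by
        linear_combination C (N : ℂ) ^ 2 * (C (N : ℂ) * C y + 1) * hC
      have f4 : C (N : ℂ) ^ 2 * C y = (C (N : ℂ) : PowerSeries ℂ) := by
        linear_combination C (N : ℂ) * hC
      rw [f1, f2, f3, f4, hC] at h1
      have f5 : (1 : PowerSeries ℂ) - (C (l : ℂ) ^ 2 - 2 * C (N : ℂ)) * (C y * X) +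
          C (N : ℂ) ^ 2 * (C y * X) ^ 2 = (1 + X) ^ 2 - C (l : ℂ) ^ 2 * C y * X := by
        linear_combination (2 * X + (C (N : ℂ) * C y + 1) * X ^ 2) * hC
      rw [f5] at h1
      linear_combination h1
    linear_combination
      ((PowerSeries.mk fun i => (l2 N l i : ℂ)) * (PowerSeries.mk fun j => (N : ℂ) ^ j)) * h4 -
      (Q * ((1 + X) ^ 2 - C (l : ℂ) ^ 2 * C y * X) * (1 + C (N : ℂ) * X) *
        ((PowerSeries.mk fun j => (N : ℂ) ^ j) * (1 - C (N : ℂ) * X))) * hE -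
      (Q * ((1 + X) ^ 2 - C (l : ℂ) ^ 2 * C y * X) * (1 + C (N : ℂ) * X)) * hG
  rw [Qw_even, key, coeff_mul, Finset.Nat.sum_antidiagonal_eq_sum_range_succ
    (fun i j => coeff i (PowerSeries.mk fun i => (l2 N l i : ℂ)) *
      coeff j (PowerSeries.mk fun j => (N : ℂ) ^ j)) k]
  simp only [coeff_mk]

theorem loc_one {N l : ℝ} (hN : 101 ≤ N) (hl : |l| ≤ 2 * Real.sqrt N) {X : ℂ}
    (hX : N * ‖X‖ < 1) :
    HasSum (fun k : ℕ => Qw N l (2 * k) ((N : ℂ)⁻¹) * X ^ k)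
      ((E2 N l X * (1 - (N : ℂ) * X))⁻¹) := by
  have hN0 : N ≠ 0 := by linarith
  obtain ⟨p1, p2, p3⟩ := l2_par hN hl
  have h1 : HasSum (fun n : ℕ => (l2 N l n : ℂ) * X ^ n) (E2 N l X)⁻¹ := by
    have h := lseq_gen p1 p2 p3 hX
    have e : (1 - ((l ^ 2 - 2 * N : ℝ) : ℂ) * X + ((N ^ 2 : ℝ) : ℂ) * X ^ 2) = E2 N l X := by
      unfold E2
      push_cast
      ring
    rw [e] at h
    exact h
  have h2 : HasSum (fun n : ℕ => ((N : ℂ) * X) ^ n) (1 - (N : ℂ) * X)⁻¹ := by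
    apply hasSum_geometric_of_norm_lt_one
    rw [norm_mul, Complex.norm_real, Real.norm_eq_abs, abs_of_nonneg p1]
    exact hX
  have n1 := h1.summable.norm
  have n2 := h2.summable.norm
  have h3 := tsum_mul_tsum_eq_tsum_sum_antidiagonal_of_summable_norm n1 n2
  have h4 := (summable_norm_sum_mul_antidiagonal_of_summable_norm n1 n2).of_norm.hasSum
  rw [← h3, h1.tsum_eq, h2.tsum_eq, ← mul_inv] at h4
  have e : (fun k : ℕ => Qw N l (2 * k) ((N : ℂ)⁻¹) * X ^ k) =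
      fun n => ∑ kl ∈ Finset.HasAntidiagonal.antidiagonal n, (l2 N l kl.1 : ℂ) * X ^ kl.1 * ((N : ℂ) * X) ^ kl.2 := by
    funext k
    rw [Qw_one hN0, Finset.Nat.sum_antidiagonal_eq_sum_range_succ
      (fun i j => (l2 N l i : ℂ) * X ^ i * ((N : ℂ) * X) ^ j) k, Finset.sum_mul]
    refine Finset.sum_congr rfl fun i hi => ?_
    have hik : i + (k - i) = k := by
      rw [Finset.mem_range] at hi
      omega
    conv_lhs => rw [← hik, pow_add, Nat.add_sub_cancel_left]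
    rw [mul_pow]
    ring
  rw [e]
  exact h4

end Pool.Agent.MD
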