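import Pool.Agent.MD.S.Defs
import Pool.Agent.MD.S.Loc
import Pool.Agent.QD.A.EP
import Pool.Agent.QD.A.LocBd
import Pool.Agent.LD.A.Glob

/-!
# MD/S-EpS: the Euler product of the symmetric square

`ep_hasSum` (QD/A/EP) with `f v j = Qw (N v) (lam v) (2 j) (N v)⁻¹ * (N_v^(-(2 s)))^j` (`Qw_zero`);
`nJ_cpow` (LD/A/Glob). The local sums: `loc_one`. Summability over `(v, j)`: `Qw_bd` (QD/A/LocBd)
with `B = 0` and `glob_geo` (LD/A/Glob).
-/

namespace Pool.Agent.MD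

open Pool.Agent.QD Pool.Agent.QD.SysD Pool.Agent.LD

variable {S : SysD}

private theorem eps_norm {q : ℕ} (hq : 101 ≤ q) (s : ℂ) :
    ‖(q : ℂ) ^ (-(2 * s))‖ = (q : ℝ) ^ (-(2 * s.re)) := by
  have h1 : 0 < q := by omega
  rw [Complex.norm_natCast_cpow_of_pos h1]
  simp

private theorem eps_loc (hS : IsSys0 S) (v : S.ι) {s : ℂ} (hs : 1 < s.re) :
    ∑' j : ℕ, Qw (S.N v) (S.lam v) (2 * j) ((S.N v : ℂ)⁻¹) * ((S.N v : ℂ) ^ (-(2 * s))) ^ j =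
      sfac (S.N v) (S.lam v) s := by
  have h1 : (101 : ℝ) ≤ S.N v := by exact_mod_cast hS.hN v
  have h0 : (0 : ℝ) < S.N v := by linarith
  have h2 : (S.N v : ℝ) * ‖(S.N v : ℂ) ^ (-(2 * s))‖ < 1 := by
    rw [eps_norm (hS.hN v)]
    have h3 : (S.N v : ℝ) * (S.N v : ℝ) ^ (-(2 * s.re)) = (S.N v : ℝ) ^ (1 + -(2 * s.re)) := by
      rw [Real.rpow_add h0, Real.rpow_one]
    rw [h3]
    exact Real.rpow_lt_one_of_one_lt_of_neg (by linarith) (by linarith)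
  have h3 := (loc_one h1 (hS.hlam v) h2).tsum_eq
  simp only [Complex.ofReal_natCast] at h3
  rw [h3]
  rfl

theorem sym_hasSum (hS : IsSys0 S) : ∃ A : ℝ, 6 ≤ A ∧ ∀ s : ℂ, A < s.re →
    HasSum (fun f : S.J => (S.nJ f : ℂ) ^ (-(2 * s)) *
      ∏ v ∈ f.support, Qw (S.N v) (S.lam v) (2 * f v) ((S.N v : ℂ)⁻¹)) (Sym S s) := by
  classical
  obtain ⟨A, hA0, hA⟩ := Qw_bd 0 le_rfl
  refine ⟨A + 6, by linarith, fun s hs => ?_⟩
  have hx : 1 < 2 * s.re - 2 * A := by linarith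
  have hnn : ∀ v : S.ι, 0 ≤ (S.N v : ℝ) ^ (-(2 * s.re - 2 * A)) :=
    fun v => Real.rpow_nonneg (Nat.cast_nonneg _) _
  have hgeo := glob_geo hnn (fun v => glob_small hS v hx.le) (hS.sumN _ hx)
  have key := ep_hasSum (fun (v : S.ι) (j : ℕ) =>
    Qw (S.N v) (S.lam v) (2 * j) ((S.N v : ℂ)⁻¹) * ((S.N v : ℂ) ^ (-(2 * s))) ^ j)
    (fun v => by rw [mul_zero, Qw_zero, pow_zero, mul_one]) (by
      refine Summable.of_nonneg_of_le (fun p => norm_nonneg _) (fun p => ?_) hgeo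
      obtain ⟨v, j⟩ := p
      dsimp only
      have h1 : (101 : ℝ) ≤ S.N v := by exact_mod_cast hS.hN v
      have h0 : (0 : ℝ) < S.N v := by linarith
      have hy : ‖((S.N v : ℂ))⁻¹‖ ≤ (S.N v : ℝ) ^ (0 : ℝ) := by
        rw [Real.rpow_zero, norm_inv, Complex.norm_natCast]
        exact inv_le_one_of_one_le₀ (by linarith)
      have h2 := hA (S.N v) (S.lam v) h1 (hS.hlam v) (2 * (j + 1)) ((S.N v : ℂ)⁻¹) hy
      rw [norm_mul, norm_pow, eps_norm (hS.hN v)]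
      have h3 : (S.N v : ℝ) ^ (-(2 * s.re - 2 * A)) =
          (S.N v : ℝ) ^ (2 * A) * (S.N v : ℝ) ^ (-(2 * s.re)) := by
        rw [← Real.rpow_add h0]
        congr 1
        ring
      have h4 : (S.N v : ℝ) ^ (A * ((2 * (j + 1) : ℕ) : ℝ)) = ((S.N v : ℝ) ^ (2 * A)) ^ (j + 1) := by
        rw [← Real.rpow_natCast, ← Real.rpow_mul h0.le]
        congr 1
        push_cast
        ring
      rw [h3, mul_pow, ← h4]
      exact mul_le_mul_of_nonneg_right h2 (pow_nonneg (Real.rpow_nonneg h0.le _) _))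
  have h5 : (fun f : S.J => (S.nJ f : ℂ) ^ (-(2 * s)) *
      ∏ v ∈ f.support, Qw (S.N v) (S.lam v) (2 * f v) ((S.N v : ℂ)⁻¹)) =
      fun m : S.ι →₀ ℕ => ∏ v ∈ m.support,
        Qw (S.N v) (S.lam v) (2 * m v) ((S.N v : ℂ)⁻¹) * ((S.N v : ℂ) ^ (-(2 * s))) ^ m v := by
    funext m
    rw [nJ_cpow, ← Finset.prod_mul_distrib]
    exact Finset.prod_congr rfl fun v _ => mul_comm _ _
  rw [h5]
  unfold Sym
  rw [show (∏' v, sfac (S.N v) (S.lam v) s) = ∏' v : S.ι, ∑' j : ℕ,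
      Qw (S.N v) (S.lam v) (2 * j) ((S.N v : ℂ)⁻¹) * ((S.N v : ℂ) ^ (-(2 * s))) ^ j from
    tprod_congr fun v => (eps_loc hS v (by linarith)).symm]
  exact key

end Pool.Agent.MD
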