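import Pool.Agent.MD.S.DD1
import Pool.Agent.MD.S.EpS

/-!
# MD/S-One: the double Dirichlet series at `w = 1`

At `w = 1` only the squares `m = 2 • f` contribute, and the sum over `f` is the symmetric square.
-/

namespace Pool.Agent.MD

open Pool.Agent.QD Pool.Agent.QD.SysD Pool.Agent.LD

variable {S : SysD}

private theorem one_supp (f : S.J) : (2 • f).support = f.support := by
  ext v
  rw [Finsupp.mem_support_iff, Finsupp.mem_support_iff, Finsupp.smul_apply, smul_eq_mul]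
  omega

private theorem one_cpow (hS : IsSys0 S) (f : S.J) (s : ℂ) :
    (S.nJ (2 • f) : ℂ) ^ (-s) = (S.nJ f : ℂ) ^ (-(2 * s)) := by
  have h0 : (S.nJ f : ℂ) ≠ 0 := Nat.cast_ne_zero.2 (nJ_pos hS f).ne'
  rw [nJ_two, sq, Nat.cast_mul, Complex.natCast_mul_natCast_cpow, ← Complex.cpow_add _ _ h0]
  congr 1
  ring

theorem YR_one (hS : IsSys0 S) (hE : IsExt S) : ∃ A : ℝ, 6 ≤ A ∧ ∀ (c : S.G) (s : ℂ), A < s.re →
    YR S c s (s + 1 / 2) = (S.cU : ℂ)⁻¹ * S.Zf 0 1 1 *
      (S.Ls s * S.Ls (s + 1 / 2) * ((2 * s - 2) ^ 2 * S.Z1 (2 * s - 1))) * Sym S s := by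
  classical
  obtain ⟨A, hA6, hA⟩ := sym_hasSum hS
  refine ⟨A, hA6, fun c s hs => ?_⟩
  have hw : ww s (s + 1 / 2) = 1 := by
    unfold ww
    ring
  have hwp : wp s (s + 1 / 2) = 2 * s - 1 := by
    unfold wp
    ring
  set F : S.J → ℂ := fun m => (S.nJ m : ℂ) ^ (-s) * S.DD m c 1 with hF
  have hinj : Function.Injective fun f : S.J => 2 • f := by
    intro f g hfg
    ext v
    have h1 := DFunLike.congr_fun hfg v
    simp only [Finsupp.smul_apply, smul_eq_mul] at h1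
    omega
  have hsup : Function.support F ⊆ Set.range fun f : S.J => 2 • f := by
    intro m hm
    have h1 : ∀ v, Even (m v) := by
      by_contra h2
      apply hm
      rw [hF]
      simp only
      rw [DD_one hS hE, if_neg h2, mul_zero]
    refine ⟨m.mapRange (fun n => n / 2) rfl, ?_⟩
    ext v
    simp only [Finsupp.smul_apply, smul_eq_mul, Finsupp.mapRange_apply]
    exact Nat.two_mul_div_two_of_even (h1 v)
  have hterm : ∀ f : S.J, F (2 • f) = ((S.cU : ℂ)⁻¹ * S.Zf 0 1 1) *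
      ((S.nJ f : ℂ) ^ (-(2 * s)) *
        ∏ v ∈ f.support, Qw (S.N v) (S.lam v) (2 * f v) ((S.N v : ℂ)⁻¹)) := by
    intro f
    rw [hF]
    simp only
    rw [DD_one hS hE, if_pos, one_cpow hS, one_supp]
    · have h2 : ∏ v ∈ f.support, Qw (S.N v) (S.lam v) ((2 • f) v) ((S.N v : ℂ)⁻¹) =
          ∏ v ∈ f.support, Qw (S.N v) (S.lam v) (2 * f v) ((S.N v : ℂ)⁻¹) :=
        Finset.prod_congr rfl fun v _ => by rw [Finsupp.smul_apply, smul_eq_mul]
      rw [h2]
      ring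
    · intro v
      rw [Finsupp.smul_apply, smul_eq_mul]
      exact even_two_mul _
  have hFF : FF S c s (s + 1 / 2) = (S.cU : ℂ)⁻¹ * S.Zf 0 1 1 * Sym S s := by
    unfold FF
    rw [hw]
    have h1 : ∑' m : S.J, (S.nJ m : ℂ) ^ (-s) * S.DD m c 1 = ∑' f : S.J, F (2 • f) :=
      (hinj.tsum_eq hsup).symm
    rw [h1, tsum_congr hterm, tsum_mul_left, (hA s hs).tsum_eq]
  unfold YR Pi2
  rw [hFF, hwp]
  ring

end Pool.Agent.MD
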