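import Pool.Agent.MD.S.Defs
import Pool.Agent.LD.A.Euler
import Pool.Agent.LD.A.DDa

/-!
# MD/S-DD1: the columns at `w = 1`

PLAN.  `Zf_two`: both are entire (`Zf_diff`, `R_two`, `R_one`) and agree for `Re w > 1` (`Zf_eq`, `Lchi (2 • f) 1 = ∏' (1 - N^(-w))⁻¹ = Lchi 0 1` by `u_two`; `0 = 2 • 0`): identity theorem (`AnalyticOnNhd.eq_of_eventuallyEq` at the point `2`).
`DD_one`: definition of `DD`; in the sum over `g` the terms with `¬ Sq m g` vanish (`hE.Z_one`); `Sq m g` means `g = 1` and all `m v` even; then `m = 2 • f` (`f v = m v / 2`, finitely supported), `R m 1` (`R_two`), `B 1 c = 1` (`B_mul` with `g = h = 1` and `B_sq`), `Zf_two`,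
`Q m 1 1 = ∏ Qw (m v) ((if Even (m v) then u v m 1 else 1) * N^(-1))` with `u v (2 • f) 1 = 1` (`u_two`), `(N : ℂ)^(-(1:ℂ)) = N⁻¹` (`Complex.cpow_neg_one`).
If some `m v` is odd no term survives.
-/

namespace Pool.Agent.MD

open Pool.Agent.QD Pool.Agent.QD.SysD Pool.Agent.LD

variable {S : SysD}

theorem Zf_two (hS : IsSys0 S) (f : S.J) : S.Zf (2 • f) 1 = S.Zf 0 1 := by
  have h0 : ∀ f : S.J, ∀ w : ℂ, 1 < w.re → S.Zf (2 • f) 1 w =
      (w - 1) ^ 2 * S.Z1 w * ∏' v, (1 - 1 * (S.N v : ℂ) ^ (-w))⁻¹ := by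
    intro f w hw
    rw [hS.Zf_eq _ _ (hS.R_two f) w hw]
    unfold Lchi
    simp only [hS.u_two f]
  have e0 : (0 : S.J) = 2 • (0 : S.J) := by simp
  have d1 : Differentiable ℂ (S.Zf (2 • f) 1) := hS.Zf_diff _ _ (hS.R_two f)
  have d2 : Differentiable ℂ (S.Zf 0 1) := hS.Zf_diff _ _ hS.R_one
  have a1 : AnalyticOnNhd ℂ (S.Zf (2 • f) 1) Set.univ :=
    Complex.analyticOnNhd_univ_iff_differentiable.2 d1
  have a2 : AnalyticOnNhd ℂ (S.Zf 0 1) Set.univ :=
    Complex.analyticOnNhd_univ_iff_differentiable.2 d2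
  refine AnalyticOnNhd.eq_of_eventuallyEq (z₀ := 2) a1 a2 ?_
  have hU : IsOpen {z : ℂ | 1 < z.re} := isOpen_lt continuous_const Complex.continuous_re
  have h2 : (2 : ℂ) ∈ {z : ℂ | 1 < z.re} := by
    change 1 < (2 : ℂ).re
    norm_num
  filter_upwards [hU.mem_nhds h2] with w hw
  have hw' : 1 < w.re := hw
  rw [h0 f w hw']
  conv_rhs => rw [e0]
  rw [h0 0 w hw']

private theorem B_one (hS : IsSys0 S) (c : S.G) : S.B 1 c = 1 := by
  have h := hS.B_mul 1 1 c
  rw [mul_one] at h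
  rcases hS.B_sq 1 c with h1 | h1
  · exact h1
  · rw [h1] at h
    norm_num at h

open Classical in
theorem DD_one (hS : IsSys0 S) (hE : IsExt S) (m : S.J) (c : S.G) :
    S.DD m c 1 = if ∀ v, Even (m v) then (S.cU : ℂ)⁻¹ * S.Zf 0 1 1 *
      ∏ v ∈ m.support, Qw (S.N v) (S.lam v) (m v) ((S.N v : ℂ)⁻¹) else 0 := by
  unfold DD
  by_cases hm : ∀ v, Even (m v)
  · rw [if_pos hm]
    have hf : ∃ f : S.J, m = 2 • f := by
      refine ⟨m.mapRange (fun k => k / 2) rfl, ?_⟩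
      ext v
      rw [Finsupp.smul_apply, Finsupp.mapRange_apply]
      obtain ⟨r, hr⟩ := hm v
      rw [hr, smul_eq_mul]
      omega
    obtain ⟨f, rfl⟩ := hf
    rw [Finset.sum_eq_single (1 : S.G)]
    · rw [if_pos (hS.R_two f), B_one hS, Zf_two hS]
      unfold Q
      have h1 : ∀ v ∈ (2 • f : S.J).support, Qw (S.N v) (S.lam v) ((2 • f : S.J) v)
          ((if Even ((2 • f : S.J) v) then S.u v (2 • f) 1 else 1) * (S.N v : ℂ) ^ (-(1 : ℂ))) =
          Qw (S.N v) (S.lam v) ((2 • f : S.J) v) ((S.N v : ℂ)⁻¹) := by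
        intro v _
        rw [if_pos (hm v), hS.u_two, one_mul, Complex.cpow_neg_one]
      rw [Finset.prod_congr rfl h1]
      ring
    · intro g _ hg
      by_cases hR : S.R (2 • f) g
      · rw [if_pos hR, hE.Z_one _ _ hR (fun h => hg h.1)]
        ring
      · rw [if_neg hR]
    · intro h
      exact absurd (Finset.mem_univ _) h
  · rw [if_neg hm]
    rw [Finset.sum_eq_zero, mul_zero]
    intro g _
    by_cases hR : S.R m g
    · rw [if_pos hR, hE.Z_one _ _ hR (fun h => hm h.2)]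
      ring
    · rw [if_neg hR]

end Pool.Agent.MD
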