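import Pool.Agent.MD.S.SymD
import Pool.Agent.QD.N4Main
import Pool.Agent.QD.In.Def
import Pool.Agent.QD.N4.Regroup
import Pool.Agent.QD.In.CongZ

/-!
# MD/S-Quad: the symmetric square over a quadratic extension

PLAN.  `SP_base`: `gen_log` for `{v // Away K T v}`; the difference of the sums over `{v // Away K T v}` and over `Io S` is a finite sum over the places of `S` away from `T` of terms of modulus `≤ 3 q q^(-2)` (`|a² - q| ≤ 3 q`, `|q^(-2s)| ≤ q^(-2)`).
`SP_quad`: `SP L a T s = ∏' w, ..` over the places `w` of `L` away from `T`; `regroup` (QD/N4/Regroup; or LT_quad'' and `LT_ext` in HWR/LTExtA.lean for the version with `Away`) groups the places of `L` over those of `K`: two places of norm `q` (`ty = 1`), one of norm `q²` (`ty = -1`), one of norm `q`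
(`ty = 0`): `SP L a T s = ∏' v away, (sfac q (a q) s)^2, sfac (q²) (a (q²)) s, sfac q (a q) s`.  Take logarithms: `log ‖sfac q lam s‖ = (lam² - q) Re q^(-2s) + O(q^(-2))`, and for `q²`: `O(q² q^(-4))`.  So the sum of `(1 + t_v) (a² - q) Re q^(-2s)` up to a bounded error (`∑ q^(-2) < ∞`),
`t_v = ty K L v = uK v x` outside `S` (`tt_uK`, `ty_odd`); the finitely many places of `S` contribute a bounded amount.
-/

namespace Pool.Agent.MD

open NumberField IsDedekindDomain Pool.Agent.HWR Pool.Agent.QD Pool.Agent.QD.In Pool.Agent.LD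

/-- the main term of the logarithm of a factor -/
private noncomputable def qq (a : ℕ → ℝ) (s : ℂ) (q : ℕ) : ℝ :=
  (a q ^ 2 - q) * ((q : ℂ) ^ (-(2 * s))).re

private theorem qq_le {a : ℕ → ℝ} (ha : ∀ q : ℕ, |a q| ≤ 2 * Real.sqrt q) (s : ℂ) {q : ℕ}
    (hq : 0 < q) : |qq a s q| ≤ 3 * (q : ℝ) ^ (-(2 * s.re - 1)) := by
  have hq0 : (0 : ℝ) < q := by exact_mod_cast hq
  have h1 : |a q ^ 2 - q| ≤ 3 * q := by
    have h2 : a q ^ 2 ≤ 4 * q := by
      have h3 := pow_le_pow_left₀ (abs_nonneg _) (ha q) 2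
      rw [sq_abs, mul_pow, Real.sq_sqrt hq0.le] at h3
      linarith
    rw [abs_le]
    constructor
    · nlinarith [sq_nonneg (a q)]
    · linarith
  have h4 : |((q : ℂ) ^ (-(2 * s))).re| ≤ (q : ℝ) ^ (-(2 * s.re)) := by
    refine (Complex.abs_re_le_norm _).trans (le_of_eq ?_)
    rw [Complex.norm_natCast_cpow_of_pos hq]
    congr 1
    simp
  unfold qq
  rw [abs_mul]
  calc |a q ^ 2 - q| * |((q : ℂ) ^ (-(2 * s))).re|
      ≤ (3 * q) * (q : ℝ) ^ (-(2 * s.re)) :=
        mul_le_mul h1 h4 (abs_nonneg _) (by positivity)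
    _ = 3 * (q : ℝ) ^ (-(2 * s.re - 1)) := by
        have h5 : (-(2 * s.re - 1) : ℝ) = 1 + -(2 * s.re) := by ring
        rw [h5, Real.rpow_add hq0, Real.rpow_one]
        ring

private theorem qq_three {a : ℕ → ℝ} (ha : ∀ q : ℕ, |a q| ≤ 2 * Real.sqrt q) {s : ℂ}
    (hs : 1 < s.re) {q : ℕ} (hq : 0 < q) : |qq a s q| ≤ 3 := by
  refine (qq_le ha s hq).trans ?_
  have h1 : (q : ℝ) ^ (-(2 * s.re - 1)) ≤ 1 := by
    apply Real.rpow_le_one_of_one_le_of_nonpos
    · exact_mod_cast hq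
    · linarith
  linarith

private theorem qq_sq {a : ℕ → ℝ} (ha : ∀ q : ℕ, |a q| ≤ 2 * Real.sqrt q) {s : ℂ}
    (hs : 1 < s.re) {q : ℕ} (hq : 0 < q) : |qq a s (q ^ 2)| ≤ 3 * (q : ℝ) ^ (-(2 : ℝ)) := by
  refine (qq_le ha s (pow_pos hq 2)).trans ?_
  have h1 : (1 : ℝ) ≤ q := by exact_mod_cast hq
  have h2 : (((q ^ 2 : ℕ) : ℝ)) ^ (-(2 * s.re - 1)) ≤ (q : ℝ) ^ (-(2 : ℝ)) := by
    rw [Nat.cast_pow, ← Real.rpow_natCast (q : ℝ) 2, ← Real.rpow_mul (by linarith)]
    apply Real.rpow_le_rpow_of_exponent_le h1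
    push_cast
    linarith
  linarith

/-- comparison of two sums, which differ at finitely many places -/
private theorem sum_diff {ι : Type} (S : Finset ι) (A : ι → Prop) (hA : ∀ v, v ∉ S → A v)
    (g : ι → ℝ) (hg : Summable g) {B : ℝ} (hB : ∀ v, |g v| ≤ B) :
    |∑' v : {v // A v}, g v.1 - ∑' v : {v // v ∉ S}, g v.1| ≤ B * S.card := by
  classical
  have e1 : ∑' v : {v // A v}, g v.1 = ∑' v, ({v | A v} : Set ι).indicator g v :=
    tsum_subtype {v | A v} g
  have e2 : ∑' v : {v // v ∉ S}, g v.1 = ∑' v, ({v | v ∉ S} : Set ι).indicator g v :=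
    tsum_subtype {v | v ∉ S} g
  rw [e1, e2, ← (hg.indicator _).tsum_sub (hg.indicator _)]
  rw [tsum_eq_sum (s := S) (fun v hv => by
    rw [Set.indicator_of_mem (show v ∈ {v | A v} from hA v hv),
      Set.indicator_of_mem (show v ∈ {v | v ∉ S} from hv), sub_self])]
  refine (Finset.abs_sum_le_sum_abs _ _).trans ?_
  rw [mul_comm, ← nsmul_eq_mul]
  apply Finset.sum_le_card_nsmul
  intro v hv
  rw [Set.indicator_of_notMem (show v ∉ {v | v ∉ S} from fun h => h hv), sub_zero]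
  by_cases h : A v
  · rw [Set.indicator_of_mem (show v ∈ {v | A v} from h)]
    exact hB v
  · rw [Set.indicator_of_notMem (show v ∉ {v | A v} from h), abs_zero]
    exact (abs_nonneg _).trans (hB v)

private theorem away_under (K : Type) [Field K] [NumberField K] (K' : Type) [Field K']
    [NumberField K'] [Algebra K K'] (T : Finset ℕ) (w : HeightOneSpectrum (𝓞 K')) :
    Away K T (HeightOneSpectrum.under (𝓞 K) w) ↔ Away K' T w := by
  unfold Away
  have h : ∀ p : ℕ, ((p : ℕ) : 𝓞 K) ∈ (HeightOneSpectrum.under (𝓞 K) w).asIdeal ↔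
      ((p : ℕ) : 𝓞 K') ∈ w.asIdeal := by
    intro p
    rw [HeightOneSpectrum.under_asIdeal, Ideal.under_def, Ideal.mem_comap, map_natCast]
  simp only [h]

private theorem sum_ext (K : Type) [Field K] [NumberField K] (K' : Type) [Field K']
    [NumberField K'] [Algebra K K'] (T : Finset ℕ) (G : ℕ → ℝ)
    (hG : Summable fun w : {w : HeightOneSpectrum (𝓞 K') // Away K' T w} => G (nrm w.1)) :
    ∑' w : {w : HeightOneSpectrum (𝓞 K') // Away K' T w}, G (nrm w.1) =
      ∑' v : {v : HeightOneSpectrum (𝓞 K) // Away K T v},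
      ∑ᶠ w ∈ v.1.asIdeal.primesOver (𝓞 K'), G (Ideal.absNorm w) := by
  let π : {w : HeightOneSpectrum (𝓞 K') // Away K' T w} →
      {v : HeightOneSpectrum (𝓞 K) // Away K T v} :=
    fun w => ⟨HeightOneSpectrum.under (𝓞 K) w.1, (away_under K K' T w.1).2 w.2⟩
  let f : ∀ v : {v : HeightOneSpectrum (𝓞 K) // Away K T v},
      {w : {w : HeightOneSpectrum (𝓞 K') // Away K' T w} // π w = v} →
        v.1.asIdeal.primesOver (𝓞 K') := fun v w =>
    ⟨w.1.1.asIdeal, w.1.1.isPrime, ⟨(congrArg (fun x => x.1.asIdeal) w.2).symm⟩⟩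
  have hf : ∀ v, Function.Bijective (f v) := by
    intro v
    constructor
    · intro w1 w2 h
      have h1 : w1.1.1.asIdeal = w2.1.1.asIdeal := congrArg Subtype.val h
      exact Subtype.ext (Subtype.ext (HeightOneSpectrum.ext h1))
    · rintro ⟨P, hP⟩
      have hPb : P ≠ ⊥ := Ideal.ne_bot_of_mem_primesOver v.1.ne_bot hP
      have hu : HeightOneSpectrum.under (𝓞 K) (⟨P, hP.1, hPb⟩ : HeightOneSpectrum (𝓞 K')) = v.1 := by
        apply HeightOneSpectrum.ext
        rw [HeightOneSpectrum.under_asIdeal]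
        exact hP.2.over.symm
      have hA : Away K' T (⟨P, hP.1, hPb⟩ : HeightOneSpectrum (𝓞 K')) := by
        rw [← away_under K K' T, hu]
        exact v.2
      exact ⟨⟨⟨⟨P, hP.1, hPb⟩, hA⟩, Subtype.ext hu⟩, rfl⟩
  have hfinS : ∀ v : {v : HeightOneSpectrum (𝓞 K) // Away K T v},
      (v.1.asIdeal.primesOver (𝓞 K')).Finite := fun v =>
    have := v.1.isPrime.isMaximal v.1.ne_bot
    IsDedekindDomain.primesOver_finite v.1.asIdeal (𝓞 K')
  have hfin : ∀ v : {v : HeightOneSpectrum (𝓞 K) // Away K T v},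
      Finite {w : {w : HeightOneSpectrum (𝓞 K') // Away K' T w} // π w = v} := by
    intro v
    have := (hfinS v).to_subtype
    exact Finite.of_injective (f v) (hf v).1
  rw [← (Equiv.sigmaFiberEquiv π).tsum_eq]
  rw [Summable.tsum_sigma']
  · refine tsum_congr fun v => ?_
    have := (hfinS v).to_subtype
    rw [← finsum_set_coe_eq_finsum_mem, ← tsum_eq_finsum
      (L := SummationFilter.unconditional (v.1.asIdeal.primesOver (𝓞 K'))) (Set.toFinite _),
      ← (Equiv.ofBijective (f v) (hf v)).tsum_eq]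
    rfl
  · intro v
    have := hfin v
    exact summable_of_hasFiniteSupport (Set.toFinite _)
  · exact (Equiv.sigmaFiberEquiv π).summable_iff.2 hG

open Classical in
/-- the sum over the places above `v`, by type -/
private theorem local_sum (K : Type) [Field K] [NumberField K] (K' : Type) [Field K']
    [NumberField K'] [Algebra K K'] (G : ℕ → ℝ) (hdeg : Module.finrank K K' = 2)
    (v : HeightOneSpectrum (𝓞 K)) :
    ∑ᶠ w ∈ v.asIdeal.primesOver (𝓞 K'), G (Ideal.absNorm w) =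
      (1 + (ty K K' v : ℝ)) * G (nrm v) + (if ty K K' v = -1 then G (nrm v ^ 2) else 0) := by
  rcases quad_types K K' hdeg v with ⟨hsp, hw⟩ | ⟨w, hw, hw2⟩
  · have ht : ty K K' v = 1 := by unfold ty; rw [if_pos hsp]
    obtain ⟨x, y, hxy, hS⟩ := Set.ncard_eq_two.mp hsp
    have hx : Ideal.absNorm x = nrm v := hw x (by rw [hS]; simp)
    have hy : Ideal.absNorm y = nrm v := hw y (by rw [hS]; simp)
    rw [hS, finsum_mem_pair hxy, hx, hy, ht, if_neg (by norm_num)]
    push_cast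
    ring
  · have hns : ¬ Splits K K' v := by
      unfold Splits
      rw [hw, Set.ncard_singleton]
      norm_num
    rcases hw2 with ⟨-, hn⟩ | ⟨-, hn⟩
    · have ht : ty K K' v = 0 := by
        unfold ty
        rw [if_neg hns, if_neg]
        rintro ⟨w', hw', hn'⟩
        have h1 : w = w' := Set.singleton_injective (hw.symm.trans hw')
        rw [← h1, hn] at hn'
        have h2 := nrm_ne_zero v
        have h3 := nrm_ne_one v
        have h4 : nrm v * 1 = nrm v * nrm v := by rw [mul_one, ← sq]; exact hn'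
        exact h3 (Nat.eq_of_mul_eq_mul_left (Nat.pos_of_ne_zero h2) h4).symm
      rw [hw, finsum_mem_singleton, hn, ht, if_neg (by norm_num)]
      push_cast
      ring
    · have ht : ty K K' v = -1 := by
        unfold ty
        rw [if_neg hns, if_pos ⟨w, hw, hn⟩]
      rw [hw, finsum_mem_singleton, hn, ht, if_pos rfl]
      push_cast
      ring

private theorem ty_abs (K : Type) [Field K] [NumberField K] (K' : Type) [Field K']
    [NumberField K'] [Algebra K K'] (v : HeightOneSpectrum (𝓞 K)) :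
    |1 + (ty K K' v : ℝ)| ≤ 2 := by
  unfold ty
  split_ifs <;> norm_num

variable {K : Type} [Field K] [NumberField K] (T : Finset ℕ)
  (hT : ∀ p : ℕ, p.Prime → p < 101 → p ∈ T) {a : ℕ → ℝ}
  (ha : ∀ q : ℕ, |a q| ≤ 2 * Real.sqrt q) (S : Finset (HeightOneSpectrum (𝓞 K)))
  (h2 : ∀ v : HeightOneSpectrum (𝓞 K), (2 : 𝓞 K) ∈ v.asIdeal → v ∈ S)
  (hST : ∀ v, ¬ Away K T v → v ∈ S)

include hT ha hST

theorem SP_base : ∃ C : ℝ, ∀ s : ℂ, 1 < s.re →
    |Real.log ‖SP K a T s‖ -
      ∑' v : Io S, (a (nrm v.1) ^ 2 - nrm v.1) * ((nrm v.1 : ℂ) ^ (-(2 * s))).re| ≤ C := by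
  obtain ⟨C, hC⟩ := gen_log (ι := {v : HeightOneSpectrum (𝓞 K) // Away K T v})
    (fun v => nrm v.1) (fun v => a (nrm v.1)) (fun v => nrm_away K T hT v.1 v.2)
    (fun v => ha _) (fun x hx => (summable_nrm K hx).comp_injective Subtype.val_injective)
  refine ⟨C + 3 * S.card, fun s hs => ?_⟩
  have h1 := hC s hs
  have hsum : Summable fun v : HeightOneSpectrum (𝓞 K) => qq a s (nrm v) := by
    refine Summable.of_norm_bounded ((summable_nrm K (x := 2 * s.re - 1)
      (by linarith)).mul_left 3) (fun v => ?_)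
    rw [Real.norm_eq_abs]
    exact qq_le ha s (Nat.pos_of_ne_zero (nrm_ne_zero v))
  have h2 := sum_diff S (fun v => Away K T v) (fun v hv => by
    by_contra h
    exact hv (hST v h)) (fun v => qq a s (nrm v)) hsum
    (fun v => qq_three ha hs (Nat.pos_of_ne_zero (nrm_ne_zero v)))
  have h3 : |Real.log ‖SP K a T s‖ -
      ∑' v : {v : HeightOneSpectrum (𝓞 K) // Away K T v}, qq a s (nrm v.1)| ≤ C := h1
  have h4 : ∑' v : Io S, (a (nrm v.1) ^ 2 - nrm v.1) * ((nrm v.1 : ℂ) ^ (-(2 * s))).re =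
      ∑' v : {v // v ∉ S}, qq a s (nrm v.1) := rfl
  rw [h4]
  rw [abs_le] at h2 h3 ⊢
  constructor <;> linarith [h2.1, h2.2, h3.1, h3.2]

include h2

theorem SP_quad (x : Kˣ) (L : Type) [Field L] [NumberField L] [Algebra K L] (θ : L)
    (hdeg : Module.finrank K L = 2) (hθ : θ ^ 2 = algebraMap K L (x : K)) (hx : ¬ IsSquare x) :
    ∃ C : ℝ, ∀ s : ℂ, 1 < s.re →
    |Real.log ‖SP L a T s‖ - ∑' v : Io S, (1 + (uK v.1 x : ℝ)) *
      ((a (nrm v.1) ^ 2 - nrm v.1) * ((nrm v.1 : ℂ) ^ (-(2 * s))).re)| ≤ C := by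
  classical
  obtain ⟨C, hC⟩ := gen_log (ι := {v : HeightOneSpectrum (𝓞 L) // Away L T v})
    (fun v => nrm v.1) (fun v => a (nrm v.1)) (fun v => nrm_away L T hT v.1 v.2)
    (fun v => ha _) (fun x hx => (summable_nrm L hx).comp_injective Subtype.val_injective)
  have hpos : ∀ v : HeightOneSpectrum (𝓞 K), 0 < nrm v := fun v =>
    Nat.pos_of_ne_zero (nrm_ne_zero v)
  have hs2 : Summable fun v : {v : HeightOneSpectrum (𝓞 K) // Away K T v} =>
      3 * (nrm v.1 : ℝ) ^ (-(2 : ℝ)) :=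
    ((summable_nrm K (x := 2) (by norm_num)).comp_injective Subtype.val_injective).mul_left 3
  refine ⟨C + 6 * S.card + ∑' v : {v : HeightOneSpectrum (𝓞 K) // Away K T v},
      3 * (nrm v.1 : ℝ) ^ (-(2 : ℝ)), fun s hs => ?_⟩
  have h3 : |Real.log ‖SP L a T s‖ -
      ∑' v : {v : HeightOneSpectrum (𝓞 L) // Away L T v}, qq a s (nrm v.1)| ≤ C := hC s hs
  have hG : Summable fun w : {w : HeightOneSpectrum (𝓞 L) // Away L T w} =>
      qq a s (nrm w.1) := by
    refine Summable.of_norm_bounded (((summable_nrm L (x := 2 * s.re - 1)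
      (by linarith)).comp_injective Subtype.val_injective).mul_left 3) (fun v => ?_)
    rw [Real.norm_eq_abs]
    exact qq_le ha s (Nat.pos_of_ne_zero (nrm_ne_zero v.1))
  rw [sum_ext K L T (qq a s) hG] at h3
  simp only [local_sum K L (qq a s) hdeg] at h3
  have hg : Summable fun v : HeightOneSpectrum (𝓞 K) =>
      (1 + (ty K L v : ℝ)) * qq a s (nrm v) := by
    refine Summable.of_norm_bounded ((summable_nrm K (x := 2 * s.re - 1)
      (by linarith)).mul_left 6) (fun v => ?_)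
    rw [Real.norm_eq_abs, abs_mul]
    calc |1 + (ty K L v : ℝ)| * |qq a s (nrm v)|
        ≤ 2 * (3 * (nrm v : ℝ) ^ (-(2 * s.re - 1))) :=
          mul_le_mul (ty_abs K L v) (qq_le ha s (hpos v)) (abs_nonneg _) (by norm_num)
      _ = _ := by ring
  have he : ∀ v : {v : HeightOneSpectrum (𝓞 K) // Away K T v},
      ‖(if ty K L v.1 = -1 then qq a s (nrm v.1 ^ 2) else 0 : ℝ)‖ ≤
        3 * (nrm v.1 : ℝ) ^ (-(2 : ℝ)) := by
    intro v
    rw [Real.norm_eq_abs]
    split_ifs
    · exact qq_sq ha hs (hpos v.1)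
    · rw [abs_zero]
      positivity
  have hes : Summable fun v : {v : HeightOneSpectrum (𝓞 K) // Away K T v} =>
      (if ty K L v.1 = -1 then qq a s (nrm v.1 ^ 2) else 0 : ℝ) :=
    Summable.of_norm_bounded hs2 he
  have he2 : |∑' v : {v : HeightOneSpectrum (𝓞 K) // Away K T v},
      (if ty K L v.1 = -1 then qq a s (nrm v.1 ^ 2) else 0 : ℝ)| ≤
      ∑' v : {v : HeightOneSpectrum (𝓞 K) // Away K T v}, 3 * (nrm v.1 : ℝ) ^ (-(2 : ℝ)) := by
    rw [← Real.norm_eq_abs]
    exact tsum_of_norm_bounded hs2.hasSum he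
  have hgA : Summable fun v : {v : HeightOneSpectrum (𝓞 K) // Away K T v} =>
      (1 + (ty K L v.1 : ℝ)) * qq a s (nrm v.1) := hg.comp_injective Subtype.val_injective
  rw [hgA.tsum_add hes] at h3
  have h2' := sum_diff S (fun v => Away K T v) (fun v hv => by
    by_contra h
    exact hv (hST v h)) (fun v => (1 + (ty K L v : ℝ)) * qq a s (nrm v)) hg (B := 6)
    (fun v => by
      rw [abs_mul]
      calc |1 + (ty K L v : ℝ)| * |qq a s (nrm v)| ≤ 2 * 3 :=
            mul_le_mul (ty_abs K L v) (qq_three ha hs (hpos v)) (abs_nonneg _) (by norm_num)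
        _ = 6 := by norm_num)
  have h4 : ∑' v : Io S, (1 + (uK v.1 x : ℝ)) *
      ((a (nrm v.1) ^ 2 - nrm v.1) * ((nrm v.1 : ℂ) ^ (-(2 * s))).re) =
      ∑' v : {v // v ∉ S}, (1 + (ty K L v.1 : ℝ)) * qq a s (nrm v.1) := by
    refine tsum_congr fun v => ?_
    have h5 : (2 : 𝓞 K) ∉ v.1.asIdeal := fun h => v.2 (h2 v.1 h)
    rw [ty_odd L hdeg x θ hθ hx v.1 h5]
    rfl
  rw [h4]
  rw [abs_le] at h2' h3 he2 ⊢
  constructor <;> linarith [h2'.1, h2'.2, h3.1, h3.2, he2.1, he2.2]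

end Pool.Agent.MD
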