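import Pool.Agent.MD.S.SymO
import Pool.Agent.MD.S.Quad
import Pool.Agent.MD.E.Bes
import Pool.Agent.MD.E.Pick
import Pool.Agent.MD.I.Good
import Pool.Agent.LD.E.Zeta
import Pool.Agent.LD.L.Deg
import Pool.Agent.QD.F.Main

/-!
# MD/S-Even: the zeros of `Λ²` on the line `Re s = 1` have even order

PLAN.  Suppose that `n` is odd.  `sym_ord` for `K`, `V`: `κ` odd, `LogO (SP K) z (κ/2)`.  `exists_many V 36` (MD/E/Pick): `x i`, no squares, no local squares at any `v ∈ V`; `L i = (qf ..).L`, `θ i`: `hH : D.HW a (L i)` (`H (x i)`), with entire function `Λ_i`; `h_i = Λ_i²` has even order at `z`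
(`analyticOrderAt_pow`, finite since `Lam_ne`), so by `sym_ord` for `L i` (`R1 = Λ_i`, `V := {w0}`, `w0` a place of `L i` away from `T`, e.g. a place over some `v ∈ V`: `exists_over'`, LD/L/Deg; `HWV` from `H2`; `SqRel` from `sqRel_of_frob`) `κ_i` is even.
`S` = finite set of places containing those over `2` and those not away from `T` (`not_away_finite`, QD/In/Ex; `2 ∈ T`).  `m δ v = (a² - q) * Re (q^(-(2 (z + δ/2))))`, `v : Io S`.  `SP_base`: `∑' m = log ‖SP K (z + δ/2)‖ + O(1) = (κ/2) log (δ/2) + O(1) = -(κ/2) log (1/δ) + O(1)`; `SP_quad`: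
`∑' (1 + χ_i) m = -(κ_i/2) log (1/δ) + O(1)`; so `∑' χ_i m = ((κ - κ_i)/2) log (1/δ) + O(1)`, `κ - κ_i` odd, `|κ| ≥ 1`, `|κ - κ_i| ≥ 1`.  Put `σ = sign (-κ)`, `σ_i = sign (κ - κ_i)` (integers `±1`): `m' = σ m`, `χ'_i = - σ σ_i χ_i`: `∑ m' = (|κ|/2) log (1/δ) + O(1) ≥ 1/2 log (1/δ) - C`,
`∑ χ'_i m' = - (|κ - κ_i|/2) log (1/δ) + O(1) ≤ - 1/2 log (1/δ) + C`.  `bessel` with `n = 36`, `B = 3`, `κ = 1/2`, `N v = nrm v` (`|m δ v| ≤ 3 q q^(-(2 + δ))`), `psum_le`, `csum_bd`, `cmul_bd` (LD/E/Zeta; the factors `± 1` do not matter).  See the proof of `edgeV` (MD/E/Edge.lean) for the bookkeeping.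
-/

namespace Pool.Agent.MD

open NumberField IsDedekindDomain Pool.Agent.HWR Pool.Agent.QD Pool.Agent.QD.In Pool.Agent.LD
  Pool.Agent.H73.AL

/-- Hasse-Weil for all quadratic extensions of the fields `K(√x)`, `x` a local square at no `v ∈ V` -/
def HW4 {K : Type} [Field K] [NumberField K] {T : Finset ℕ} (D : LocData T) (a : ℕ → ℝ)
    (V : Finset (HeightOneSpectrum (𝓞 K))) : Prop :=
  ∀ x : Kˣ, (∀ v ∈ V, ¬ LSq v x) → ∀ (L : Type) [Field L] [NumberField L] [Algebra K L] (θ : L),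
    Module.finrank K L = 2 → θ ^ 2 = algebraMap K L (x : K) →
    ∀ (M : Type) [Field M] [NumberField M] [Algebra L M], Module.finrank L M = 2 → D.HW a M

private noncomputable def evm (a : ℕ → ℝ) (z : ℂ) (δ : ℝ) (q : ℕ) : ℝ :=
  (a q ^ 2 - q) * ((q : ℂ) ^ (-(2 * (z + ((δ / 2 : ℝ) : ℂ))))).re

private theorem ev_conv {f : ℂ → ℂ} {z : ℂ} (hz : z.re = 1) {x : ℝ} (hf : LogO f z x) {Sf : ℂ → ℝ}
    {C1 : ℝ} (h : ∀ s : ℂ, 1 < s.re → |Real.log ‖f s‖ - Sf s| ≤ C1) :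
    ∃ C δ0 : ℝ, 0 < δ0 ∧ ∀ δ : ℝ, 0 < δ → δ ≤ δ0 →
      |Sf (z + ((δ / 2 : ℝ) : ℂ)) + x * Real.log (1 / δ)| ≤ C := by
  obtain ⟨C2, d0, hd0, h2⟩ := hf
  refine ⟨C1 + C2 + |x| * Real.log 2, d0, hd0, fun δ h3 h4 => ?_⟩
  have h5 : 1 < (z + ((δ / 2 : ℝ) : ℂ)).re := by
    rw [Complex.add_re, Complex.ofReal_re, hz]
    linarith
  have h6 := h _ h5
  have h7 := (h2 (δ / 2) (by linarith) (by linarith)).2
  have h8 : Real.log (δ / 2) = -Real.log (1 / δ) - Real.log 2 := by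
    rw [Real.log_div h3.ne' two_ne_zero, one_div, Real.log_inv]
    ring
  rw [h8] at h7
  have h9 : |x * Real.log 2| = |x| * Real.log 2 := by
    rw [abs_mul, abs_of_pos (Real.log_pos one_lt_two)]
  have h10 := abs_le.1 (le_of_eq h9)
  rw [abs_le] at h6 h7 ⊢
  constructor <;> linarith [h6.1, h6.2, h7.1, h7.2, h10.1, h10.2]

private theorem ev_away {K F : Type} [Field K] [NumberField K] [Field F] [NumberField F]
    [Algebra K F] {T : Finset ℕ} {v : HeightOneSpectrum (𝓞 K)} {w : HeightOneSpectrum (𝓞 F)}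
    (h : Over v w) (hv : Away K T v) : Away F T w := by
  intro p hp hmem
  refine hv p hp ?_
  rw [← h, Ideal.mem_comap, map_natCast]
  exact hmem

/-- an entire function which does not vanish at one point is not locally zero -/
private theorem ev_order {L : ℂ → ℂ} (hL : Differentiable ℂ L) (h2 : L 2 ≠ 0) (z : ℂ) :
    ∃ m : ℕ, analyticOrderAt (fun s => L s ^ 2) z = (2 * m : ℕ) := by
  have hA : AnalyticAt ℂ L z := hL.analyticAt z
  have hne : analyticOrderAt L z ≠ ⊤ := by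
    intro htop
    rw [analyticOrderAt_eq_top] at htop
    have h3 : AnalyticOnNhd ℂ L Set.univ := fun w _ => hL.analyticAt w
    have h4 := h3.eqOn_zero_of_preconnected_of_eventuallyEq_zero isPreconnected_univ
      (Set.mem_univ z) htop
    exact h2 (h4 (Set.mem_univ 2))
  obtain ⟨m, hm⟩ := ENat.ne_top_iff_exists.1 hne
  refine ⟨m, ?_⟩
  have h5 := analyticOrderAt_pow hA 2
  have h6 : (fun s => L s ^ 2) = L ^ 2 := rfl
  rw [h6, h5, ← hm]
  push_cast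
  rw [nsmul_eq_mul]
  rfl

private theorem ev_one (K : Type) [Field K] [NumberField K] (T : Finset ℕ)
    (hTp : ∀ p ∈ T, p.Prime) (hT : ∀ p : ℕ, p.Prime → p < 101 → p ∈ T) (D : LocData T)
    (a : ℕ → ℝ) (ha : ∀ q : ℕ, |a q| ≤ 2 * Real.sqrt q) (hfr : FrobRel T a)
    (V : Finset (HeightOneSpectrum (𝓞 K))) (hV : ∀ v ∈ V, Away K T v) (hne : V.Nonempty)
    (H : HWV D a V) (H2 : HW4 D a V) {z : ℂ} (hz : z.re = 1)
    (S : Finset (HeightOneSpectrum (𝓞 K)))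
    (h2S : ∀ v : HeightOneSpectrum (𝓞 K), (2 : 𝓞 K) ∈ v.asIdeal → v ∈ S)
    (hST : ∀ v, ¬ Away K T v → v ∈ S) (x : Kˣ) (hx : ¬ IsSquare x) (hxV : ∀ v ∈ V, ¬ LSq v x) :
    ∃ κ : ℤ, Even κ ∧ ∃ C δ0 : ℝ, 0 < δ0 ∧ ∀ δ : ℝ, 0 < δ → δ ≤ δ0 →
      |∑' v : Io S, (1 + (uK v.1 x : ℝ)) * evm a z δ (nrm v.1) + (κ / 2) * Real.log (1 / δ)| ≤
        C := by
  obtain ⟨L, θ, hdeg, hθ⟩ := qf hx
  obtain ⟨Lam, hLd, -, -, hLe⟩ := H x hxV L θ hdeg hθ
  obtain ⟨v, hv⟩ := hne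
  obtain ⟨w, hw⟩ := exists_over' L v
  have hwA : Away L T w := ev_away hw (hV v hv)
  have hHWV : HWV D a ({w} : Finset (HeightOneSpectrum (𝓞 L))) := fun y _ M _ _ _ _ hM _ =>
    H2 x hxV L θ hdeg hθ M hM
  have h20 : Lam 2 ≠ 0 := by
    rw [hLe 2 (by norm_num)]
    exact Lam_ne D hTp hT ha L (by norm_num)
  obtain ⟨m, hm⟩ := ev_order hLd h20 z
  obtain ⟨κ, hκ, hO⟩ := sym_ord L T hTp hT D a ha (sqRel_of_frob L T a hfr) {w}
    (fun v hv => by
      rw [Finset.mem_singleton] at hv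
      rw [hv]
      exact hwA) ⟨w, Finset.mem_singleton_self w⟩ hHWV Lam hLd.differentiableOn hLe
    (fun s => Lam s ^ 2) (hLd.pow 2) (fun s hs => by
      show Lam s ^ 2 = _
      rw [hLe s hs]) hz hm
  have hκ' : Even κ := by
    have h1 : Even (((2 * m : ℕ) : ℤ)) := by
      push_cast
      exact even_two_mul _
    exact (Int.even_add.1 hκ).2 h1
  refine ⟨κ, hκ', ?_⟩
  obtain ⟨C1, hC1⟩ := SP_quad T hT ha S h2S hST x L θ hdeg hθ hx
  exact ev_conv hz hO hC1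

private theorem ev_lam {a : ℕ → ℝ} (ha : ∀ q : ℕ, |a q| ≤ 2 * Real.sqrt q) (q : ℕ) :
    |a q ^ 2 - q| ≤ 3 * q := by
  have h1 : a q ^ 2 ≤ 4 * q := by
    have h2 := Real.sq_sqrt (Nat.cast_nonneg q : (0 : ℝ) ≤ q)
    have h3 := sq_abs (a q)
    have h4 := abs_nonneg (a q)
    have h5 := Real.sqrt_nonneg (q : ℝ)
    have h6 := ha q
    nlinarith
  have h2 := sq_nonneg (a q)
  have h3 : (0 : ℝ) ≤ q := Nat.cast_nonneg q
  rw [abs_le]
  constructor <;> linarith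

private theorem ev_bd {a : ℕ → ℝ} (ha : ∀ q : ℕ, |a q| ≤ 2 * Real.sqrt q) {z : ℂ} (hz : z.re = 1)
    (δ : ℝ) {q : ℕ} (hq : 0 < q) : |evm a z δ q| ≤ 3 * (q : ℝ) ^ (-(1 + δ)) := by
  have hq0 : (0 : ℝ) < q := by exact_mod_cast hq
  have h1 : |((q : ℂ) ^ (-(2 * (z + ((δ / 2 : ℝ) : ℂ))))).re| ≤ (q : ℝ) ^ (-(2 + δ)) := by
    refine (Complex.abs_re_le_norm _).trans (le_of_eq ?_)
    rw [Complex.norm_natCast_cpow_of_pos hq]
    congr 1
    simp only [Complex.neg_re, Complex.mul_re, Complex.re_ofNat, Complex.im_ofNat, zero_mul,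
      sub_zero, Complex.add_re, Complex.ofReal_re, hz]
    ring
  unfold evm
  rw [abs_mul]
  have h2 : 3 * (q : ℝ) ^ (-(1 + δ)) = 3 * q * (q : ℝ) ^ (-(2 + δ)) := by
    rw [mul_assoc]
    congr 1
    conv_rhs => rw [← Real.rpow_one (q : ℝ)]
    rw [← Real.rpow_mul hq0.le, one_mul, ← Real.rpow_add hq0]
    congr 1
    ring
  rw [h2]
  exact mul_le_mul (ev_lam ha q) h1 (abs_nonneg _) (by positivity)

theorem even_line (K : Type) [Field K] [NumberField K] (T : Finset ℕ) (hTp : ∀ p ∈ T, p.Prime)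
    (hT : ∀ p : ℕ, p.Prime → p < 101 → p ∈ T) (D : LocData T) (a : ℕ → ℝ)
    (ha : ∀ q : ℕ, |a q| ≤ 2 * Real.sqrt q) (hfr : FrobRel T a)
    (V : Finset (HeightOneSpectrum (𝓞 K))) (hV : ∀ v ∈ V, Away K T v) (hne : V.Nonempty)
    (H : HWV D a V) (H2 : HW4 D a V) (R1 : ℂ → ℂ)
    (hR1 : DifferentiableOn ℂ R1 {s : ℂ | 1 < s.re})
    (hR1e : ∀ s : ℂ, 3 / 2 < s.re → R1 s = D.Lam a K s) (h : ℂ → ℂ) (hd : Differentiable ℂ h)
    (he : ∀ s : ℂ, 3 / 2 < s.re → h s = D.Lam a K s ^ 2) {z : ℂ} (hz : z.re = 1) {n : ℕ}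
    (hn : analyticOrderAt h z = n) : Even n := by
  classical
  by_contra hodd
  have h2T : 2 ∈ T := hT 2 Nat.prime_two (by norm_num)
  obtain ⟨κ, hκ, hO⟩ := sym_ord K T hTp hT D a ha (sqRel_of_frob K T a hfr) V hV hne H R1 hR1 hR1e
    h hd he hz hn
  have hκ1 : ¬ Even κ := by
    intro h1
    have h2 := (Int.even_add.1 hκ).1 h1
    exact hodd (by exact_mod_cast h2)
  obtain ⟨x, hx1, hx2, hx3', -⟩ := exists_many V 36
  have hfinS := not_away_finite K T hTp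
  obtain ⟨S, hS⟩ : ∃ S : Finset (HeightOneSpectrum (𝓞 K)), S = hfinS.toFinset := ⟨_, rfl⟩
  have hST : ∀ v, ¬ Away K T v → v ∈ S := fun v hv => by
    rw [hS, Set.Finite.mem_toFinset]
    exact hv
  have h2S : ∀ v : HeightOneSpectrum (𝓞 K), (2 : 𝓞 K) ∈ v.asIdeal → v ∈ S := fun v hv =>
    hST v fun h => h 2 h2T (by exact_mod_cast hv)
  obtain ⟨CK, hCK⟩ := SP_base T hT ha S hST
  obtain ⟨C3, δ3, hδ3, hC3⟩ := ev_conv hz hO hCK
  have hq4 := fun i => ev_one K T hTp hT D a ha hfr V hV hne H H2 hz S h2S hST (x i) (hx3' i)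
    (hx1 i)
  choose κ' hκ' C4 δ4 hδ4 hC4 using hq4
  have hxs : ∀ i, ¬ IsSquare (x i) := hx3'
  obtain ⟨C0, hC0⟩ := psum_le S
  have hq1 : ∀ i, ∃ C : ℝ, ∀ δ : ℝ, 0 < δ → δ ≤ 1 →
      |∑' v : Io S, (uK v.1 (x i) : ℝ) * (nrm v.1 : ℝ) ^ (-(1 + δ))| ≤ C :=
    fun i => csum_bd S h2S (x i) (hxs i)
  choose C1 hC1 using hq1
  have hq2 : ∀ i j, ∃ C : ℝ, i ≠ j → ∀ δ : ℝ, 0 < δ → δ ≤ 1 →
      |∑' v : Io S, ((uK v.1 (x i) : ℝ) * (uK v.1 (x j) : ℝ)) * (nrm v.1 : ℝ) ^ (-(1 + δ))| ≤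
        C := by
    intro i j
    by_cases hij : i = j
    · exact ⟨0, fun h => absurd hij h⟩
    · obtain ⟨C, hC⟩ := cmul_bd S h2S (x i) (x j) (hx2 i j hij)
      exact ⟨C, fun _ => hC⟩
  choose C2 hC2 using hq2
  obtain ⟨i0, hi0⟩ := Finite.exists_min δ4
  have p1 : 0 ≤ ∑ i, |C1 i| := Finset.sum_nonneg fun i _ => abs_nonneg _
  have p2 : ∀ i, 0 ≤ ∑ j, |C2 i j| := fun i => Finset.sum_nonneg fun j _ => abs_nonneg _
  have p3 : 0 ≤ ∑ i, ∑ j, |C2 i j| := Finset.sum_nonneg fun i _ => p2 i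
  have p4 : 0 ≤ ∑ i, |C4 i| := Finset.sum_nonneg fun i _ => abs_nonneg _
  have q1 : ∀ i, |C1 i| ≤ ∑ i, |C1 i| := fun i =>
    Finset.single_le_sum (f := fun i => |C1 i|) (fun i _ => abs_nonneg _) (Finset.mem_univ i)
  have q2 : ∀ i j, |C2 i j| ≤ ∑ i, ∑ j, |C2 i j| := fun i j =>
    (Finset.single_le_sum (f := fun j => |C2 i j|) (fun i _ => abs_nonneg _)
      (Finset.mem_univ j)).trans
    (Finset.single_le_sum (f := fun i => ∑ j, |C2 i j|) (fun i _ => p2 i) (Finset.mem_univ i))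
  have q4 : ∀ i, |C4 i| ≤ ∑ i, |C4 i| := fun i =>
    Finset.single_le_sum (f := fun i => |C4 i|) (fun i _ => abs_nonneg _) (Finset.mem_univ i)
  obtain ⟨Ct, hCt⟩ : ∃ Ct : ℝ, Ct = |C0| + ∑ i, |C1 i| + ∑ i, ∑ j, |C2 i j| + |C3| +
      ∑ i, |C4 i| := ⟨_, rfl⟩
  have r0 := abs_nonneg C0
  have r3 := abs_nonneg C3
  have t0 : C0 ≤ Ct := by
    have := le_abs_self C0
    linarith
  have t1 : ∀ i, C1 i ≤ Ct := fun i => by
    have := le_abs_self (C1 i)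
    have := q1 i
    linarith
  have t2 : ∀ i j, C2 i j ≤ Ct := fun i j => by
    have := le_abs_self (C2 i j)
    have := q2 i j
    linarith
  have t3 : C3 ≤ Ct := by
    have := le_abs_self C3
    linarith
  have t4 : ∀ i, C3 + C4 i ≤ Ct := fun i => by
    have := le_abs_self (C4 i)
    have := le_abs_self C3
    have := q4 i
    linarith
  have hn0 : ∀ v : Io S, 0 < nrm v.1 := fun v => Nat.pos_of_ne_zero (nrm_ne_zero v.1)
  have hnr : ∀ v : Io S, (0 : ℝ) < nrm v.1 := fun v => by exact_mod_cast hn0 v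
  -- the signs
  have hsg : ∀ k : ℤ, k ≠ 0 → ∃ σ : ℝ, (σ = 1 ∨ σ = -1) ∧ 1 ≤ σ * k := by
    intro k hk
    rcases lt_or_gt_of_ne hk with h1 | h1
    · refine ⟨-1, Or.inr rfl, ?_⟩
      have h2 : (k : ℝ) ≤ -1 := by exact_mod_cast (by omega : k ≤ -1)
      linarith
    · refine ⟨1, Or.inl rfl, ?_⟩
      have h2 : (1 : ℝ) ≤ k := by exact_mod_cast (by omega : 1 ≤ k)
      linarith
  obtain ⟨σ, hσ, hσ1⟩ := hsg (-κ) (by
    intro h1
    apply hκ1
    have : κ = 0 := by omega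
    rw [this]
    exact Even.zero)
  have hsi : ∀ i, ∃ σ : ℝ, (σ = 1 ∨ σ = -1) ∧ 1 ≤ σ * ((κ - κ' i : ℤ) : ℝ) := fun i =>
    hsg (κ - κ' i) (by
      intro h1
      apply hκ1
      have h2 : κ = κ' i := by omega
      rw [h2]
      exact hκ' i)
  choose σ' hσ' hσ1' using hsi
  have habs : ∀ σ : ℝ, (σ = 1 ∨ σ = -1) → |σ| = 1 ∧ σ * σ = 1 := by
    intro σ h
    rcases h with h | h <;> rw [h] <;> norm_num
  have hu : ∀ i (v : Io S), |(uK v.1 (x i) : ℝ)| ≤ 1 := by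
    intro i v
    rcases Pool.Agent.QD.uK_cases v.1 (x i) with h | h | h <;> rw [h] <;> norm_num
  have hsumm : ∀ δ : ℝ, 0 < δ → Summable fun v : Io S => (nrm v.1 : ℝ) ^ (-(1 + δ)) := fun δ hδ =>
    (summable_nrm K (by linarith : 1 < 1 + δ)).comp_injective Subtype.val_injective
  have hs0 : ∀ δ : ℝ, 0 < δ → Summable fun v : Io S => evm a z δ (nrm v.1) := fun δ hδ =>
    Summable.of_norm_bounded ((hsumm δ hδ).mul_left 3) fun v => by
      rw [Real.norm_eq_abs]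
      exact ev_bd ha hz δ (hn0 v)
  have hs1 : ∀ i, ∀ δ : ℝ, 0 < δ →
      Summable fun v : Io S => (uK v.1 (x i) : ℝ) * evm a z δ (nrm v.1) := fun i δ hδ =>
    Summable.of_norm_bounded ((hsumm δ hδ).mul_left 3) fun v => by
      rw [Real.norm_eq_abs, abs_mul]
      have h1 := ev_bd ha hz δ (hn0 v)
      calc |(uK v.1 (x i) : ℝ)| * |evm a z δ (nrm v.1)| ≤ 1 * |evm a z δ (nrm v.1)| := by
            gcongr
            exact hu i v
        _ ≤ _ := by rw [one_mul]; exact h1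
  refine bessel (ι := Io S) (n := 36) (B := 3) (κ := 1 / 2) (fun v => (nrm v.1 : ℝ))
    (by norm_num) (by norm_num) (by norm_num) (fun v => by exact_mod_cast hn0 v)
    (fun y hy => (summable_nrm K hy).comp_injective Subtype.val_injective)
    (fun i v => -(σ * σ' i) * (uK v.1 (x i) : ℝ)) ?_
    (fun δ v => σ * evm a z δ (nrm v.1)) ?_ (C := Ct)
    (δ0 := min 1 (min δ3 (δ4 i0))) (lt_min one_pos (lt_min hδ3 (hδ4 i0))) ?_ ?_ ?_ ?_ ?_
  · intro i v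
    rw [abs_mul, abs_neg, abs_mul, (habs σ hσ).1, (habs _ (hσ' i)).1, one_mul, one_mul]
    exact hu i v
  · intro δ v
    rw [abs_mul, (habs σ hσ).1, one_mul]
    exact ev_bd ha hz δ (hn0 v)
  · intro δ h1 h2
    have := hC0 δ h1 (h2.trans (min_le_left _ _))
    linarith
  · intro i δ h1 h2
    have h3 := (hC1 i δ h1 (h2.trans (min_le_left _ _))).trans (t1 i)
    have h4 : ∑' v : Io S, -(σ * σ' i) * (uK v.1 (x i) : ℝ) * (nrm v.1 : ℝ) ^ (-(1 + δ)) =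
        -(σ * σ' i) * ∑' v : Io S, (uK v.1 (x i) : ℝ) * (nrm v.1 : ℝ) ^ (-(1 + δ)) := by
      rw [← tsum_mul_left]
      exact tsum_congr fun v => by ring
    rw [h4, abs_mul, abs_neg, abs_mul, (habs σ hσ).1, (habs _ (hσ' i)).1, one_mul, one_mul]
    exact h3
  · intro i j δ hij h1 h2
    have h3 := (hC2 i j hij δ h1 (h2.trans (min_le_left _ _))).trans (t2 i j)
    have h4 : ∑' v : Io S, (-(σ * σ' i) * (uK v.1 (x i) : ℝ) * (-(σ * σ' j) *
        (uK v.1 (x j) : ℝ))) * (nrm v.1 : ℝ) ^ (-(1 + δ)) =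
        (σ' i * σ' j) * ∑' v : Io S, ((uK v.1 (x i) : ℝ) * (uK v.1 (x j) : ℝ)) *
          (nrm v.1 : ℝ) ^ (-(1 + δ)) := by
      rw [← tsum_mul_left]
      refine tsum_congr fun v => ?_
      have h5 := (habs σ hσ).2
      linear_combination ((σ' i * σ' j) * ((uK v.1 (x i) : ℝ) * (uK v.1 (x j) : ℝ)) *
          (nrm v.1 : ℝ) ^ (-(1 + δ))) * h5
    rw [h4, abs_mul, abs_mul, (habs _ (hσ' i)).1, (habs _ (hσ' j)).1, one_mul, one_mul]
    exact h3
  · intro δ h1 h2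
    have hL : 0 ≤ Real.log (1 / δ) :=
      Real.log_nonneg (by rw [le_div_iff₀ h1, one_mul]; exact h2.trans (min_le_left _ _))
    have h3 : |∑' v : Io S, evm a z δ (nrm v.1) + (κ / 2) * Real.log (1 / δ)| ≤ C3 :=
      hC3 δ h1 (h2.trans ((min_le_right _ _).trans (min_le_left _ _)))
    rw [tsum_mul_left]
    generalize (∑' v : Io S, evm a z δ (nrm v.1)) = M at h3 ⊢
    generalize Real.log (1 / δ) = Lg at hL h3 ⊢
    have h4 : 1 ≤ -(σ * κ) := by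
      have := hσ1
      push_cast at this
      linarith
    have h5 : -(σ * (M + κ / 2 * Lg)) ≤ C3 := by
      have h6 : |σ * (M + κ / 2 * Lg)| ≤ C3 := by
        rw [abs_mul, (habs σ hσ).1, one_mul]
        exact h3
      have := (abs_le.1 h6).1
      linarith
    nlinarith
  · intro i δ h1 h2
    have hL : 0 ≤ Real.log (1 / δ) :=
      Real.log_nonneg (by rw [le_div_iff₀ h1, one_mul]; exact h2.trans (min_le_left _ _))
    have h3 : |∑' v : Io S, evm a z δ (nrm v.1) + (κ / 2) * Real.log (1 / δ)| ≤ C3 :=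
      hC3 δ h1 (h2.trans ((min_le_right _ _).trans (min_le_left _ _)))
    have h4 := hC4 i δ h1
      ((h2.trans ((min_le_right _ _).trans (min_le_right _ _))).trans (hi0 i))
    have h5 : ∑' v : Io S, (1 + (uK v.1 (x i) : ℝ)) * evm a z δ (nrm v.1) =
        ∑' v : Io S, evm a z δ (nrm v.1) +
          ∑' v : Io S, (uK v.1 (x i) : ℝ) * evm a z δ (nrm v.1) := by
      rw [← (hs0 δ h1).tsum_add (hs1 i δ h1)]
      exact tsum_congr fun v => by ring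
    have h6 : ∑' v : Io S, -(σ * σ' i) * (uK v.1 (x i) : ℝ) * (σ * evm a z δ (nrm v.1)) =
        -(σ' i) * ∑' v : Io S, (uK v.1 (x i) : ℝ) * evm a z δ (nrm v.1) := by
      rw [← tsum_mul_left]
      refine tsum_congr fun v => ?_
      have h7 := (habs σ hσ).2
      linear_combination (-(σ' i) * (uK v.1 (x i) : ℝ) * evm a z δ (nrm v.1)) * h7
    have h8 := t4 i
    rw [h6]
    rw [h5] at h4
    generalize (∑' v : Io S, evm a z δ (nrm v.1)) = M at h3 h4 ⊢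
    generalize (∑' v : Io S, (uK v.1 (x i) : ℝ) * evm a z δ (nrm v.1)) = U at h4 ⊢
    generalize Real.log (1 / δ) = Lg at hL h3 h4 ⊢
    have h9 : 1 ≤ σ' i * (κ - κ' i) := by
      have := hσ1' i
      push_cast at this
      exact this
    have h10 : |U + (κ' i - κ) / 2 * Lg| ≤ C3 + C4 i := by
      have e : U + (κ' i - κ) / 2 * Lg = (M + U + κ' i / 2 * Lg) - (M + κ / 2 * Lg) := by ring
      rw [e]
      refine (abs_sub _ _).trans ?_
      linarith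
    have h11 : |σ' i * (U + (κ' i - κ) / 2 * Lg)| ≤ C3 + C4 i := by
      rw [abs_mul, (habs _ (hσ' i)).1, one_mul]
      exact h10
    have h12 := (abs_le.1 h11).1
    nlinarith

end Pool.Agent.MD
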