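import Pool.Agent.MD.S.SqrtB

/-!
# MD/S-Sqrt: entire functions with zeros of even order are squares

PLAN.  `sqrt_ball` (MD/S/SqrtB) gives a square root on every ball.  Gluing: fix a point `z1` with `h z1 ≠ 0`, `|z1| < 1 + |z1| =: r0`, and a square root `c` of `h z1`.  For `n ≥ r0` choose `G_n` on `ball 0 n` with `G_n z1 = c` (change the sign).  `G_n` and `G_{n'}` agree on the smaller ball: `(G_n - G_{n'}) (G_n + G_{n'}) = 0`, the ring of analytic functions on a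
connected set has no zero divisors (`AnalyticOnNhd.eq_zero_or_eq_zero_of_mul_eq_zero`-like, or frequently equal near `z1`: near `z1` both are nonzero and continuous with the same value so `G_n = G_{n'}` near `z1`, then the identity theorem).  Define `G z = G_n z` for `n = ⌈|z| + r0⌉ + 1`.
-/

namespace Pool.Agent.MD

open Filter Topology in
private theorem sqrt_agree {h : ℂ → ℂ} {z1 c : ℂ} (hc0 : c ≠ 0) {r r' : ℝ} (hrr : r ≤ r')
    (hz1 : z1 ∈ Metric.ball (0 : ℂ) r) {F G : ℂ → ℂ}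
    (hF : DifferentiableOn ℂ F (Metric.ball 0 r)) (hG : DifferentiableOn ℂ G (Metric.ball 0 r'))
    (hF2 : ∀ z ∈ Metric.ball (0 : ℂ) r, F z ^ 2 = h z)
    (hG2 : ∀ z ∈ Metric.ball (0 : ℂ) r', G z ^ 2 = h z) (hF1 : F z1 = c) (hG1 : G z1 = c) :
    ∀ z ∈ Metric.ball (0 : ℂ) r, F z = G z := by
  have hsub : Metric.ball (0 : ℂ) r ⊆ Metric.ball (0 : ℂ) r' := Metric.ball_subset_ball hrr
  have hFa : AnalyticOnNhd ℂ F (Metric.ball 0 r) := hF.analyticOnNhd Metric.isOpen_ball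
  have hGa : AnalyticOnNhd ℂ G (Metric.ball 0 r) :=
    (hG.mono hsub).analyticOnNhd Metric.isOpen_ball
  have hev : F =ᶠ[𝓝 z1] G := by
    have h1 : ∀ᶠ z in 𝓝 z1, F z + G z ≠ 0 := by
      have hcont : ContinuousAt (fun z => F z + G z) z1 :=
        ((hFa z1 hz1).continuousAt).add ((hGa z1 hz1).continuousAt)
      apply hcont.eventually_ne
      rw [hF1, hG1]
      intro h0
      apply hc0
      have : (2 : ℂ) * c = 0 := by linear_combination h0
      simpa using this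
    filter_upwards [h1, Metric.isOpen_ball.mem_nhds hz1] with z hz hzb
    have h2 := hF2 z hzb
    have h3 := hG2 z (hsub hzb)
    have h4 : (F z - G z) * (F z + G z) = 0 := by linear_combination h2 - h3
    exact sub_eq_zero.1 ((mul_eq_zero.1 h4).resolve_right hz)
  exact hFa.eqOn_of_preconnected_of_eventuallyEq hGa
    (convex_ball (0 : ℂ) r).isPreconnected hz1 hev

open Filter Topology in
theorem exists_sqrt {h : ℂ → ℂ} (hd : Differentiable ℂ h) (hne : ∃ z, h z ≠ 0)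
    (hev : ∀ (z : ℂ) (n : ℕ), analyticOrderAt h z = n → Even n) :
    ∃ G : ℂ → ℂ, Differentiable ℂ G ∧ ∀ z, G z ^ 2 = h z := by
  obtain ⟨z1, hz1⟩ := hne
  obtain ⟨c, hc⟩ : ∃ c : ℂ, c ^ 2 = h z1 := IsAlgClosed.exists_pow_nat_eq _ (by norm_num)
  have hc0 : c ≠ 0 := by
    rintro rfl
    apply hz1
    rw [← hc]
    ring
  set k0 : ℕ := ⌈‖z1‖⌉₊ + 1 with hk0
  have hz1k : ∀ k : ℕ, z1 ∈ Metric.ball (0 : ℂ) ((k0 + k : ℕ) : ℝ) := by
    intro k
    rw [mem_ball_zero_iff]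
    have h1 := Nat.le_ceil ‖z1‖
    have hk : (0 : ℝ) ≤ (k : ℝ) := Nat.cast_nonneg k
    rw [hk0]
    push_cast
    linarith
  have hex : ∀ k : ℕ, ∃ F : ℂ → ℂ, DifferentiableOn ℂ F (Metric.ball 0 ((k0 + k : ℕ) : ℝ)) ∧
      (∀ z ∈ Metric.ball (0 : ℂ) ((k0 + k : ℕ) : ℝ), F z ^ 2 = h z) ∧ F z1 = c := by
    intro k
    have hpos : (0 : ℝ) < ((k0 + k : ℕ) : ℝ) := by
      rw [hk0]
      positivity
    obtain ⟨F, hF1, hF2⟩ := sqrt_ball hd ⟨z1, hz1⟩ hev _ hpos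
    have h1 := hF2 z1 (hz1k k)
    have h2 : (F z1 - c) * (F z1 + c) = 0 := by linear_combination h1 - hc
    rcases mul_eq_zero.1 h2 with h3 | h3
    · exact ⟨F, hF1, hF2, sub_eq_zero.1 h3⟩
    · refine ⟨fun z => -F z, hF1.neg, ?_, ?_⟩
      · intro z hz
        rw [neg_sq]
        exact hF2 z hz
      · show -F z1 = c
        linear_combination -h3
  choose F hF1 hF2 hF3 using hex
  have hag : ∀ k l : ℕ, k ≤ l → ∀ z ∈ Metric.ball (0 : ℂ) ((k0 + k : ℕ) : ℝ), F k z = F l z := by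
    intro k l hkl
    exact sqrt_agree hc0 (by exact_mod_cast (by omega : k0 + k ≤ k0 + l)) (hz1k k) (hF1 k) (hF1 l)
      (hF2 k) (hF2 l) (hF3 k) (hF3 l)
  have hin : ∀ z : ℂ, z ∈ Metric.ball (0 : ℂ) ((k0 + ⌈‖z‖⌉₊ : ℕ) : ℝ) := by
    intro z
    rw [mem_ball_zero_iff]
    have h1 := Nat.le_ceil ‖z‖
    have h2 : (0 : ℝ) ≤ (⌈‖z1‖⌉₊ : ℝ) := Nat.cast_nonneg _
    rw [hk0]
    push_cast
    linarith
  refine ⟨fun z => F ⌈‖z‖⌉₊ z, ?_, ?_⟩
  · intro z
    have hK : ∀ᶠ w in 𝓝 z, F ⌈‖w‖⌉₊ w = F (⌈‖z‖⌉₊ + 1) w := by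
      have h1 : ∀ᶠ w in 𝓝 z, ‖w‖ < ‖z‖ + 1 :=
        continuous_norm.continuousAt.eventually_lt continuousAt_const (by linarith)
      filter_upwards [h1] with w hw
      apply hag _ _ _ w (hin w)
      apply Nat.ceil_le.2
      have := Nat.le_ceil ‖z‖
      push_cast
      linarith
    have hzK : z ∈ Metric.ball (0 : ℂ) ((k0 + (⌈‖z‖⌉₊ + 1) : ℕ) : ℝ) := by
      have h1 := hin z
      rw [mem_ball_zero_iff] at h1 ⊢
      push_cast at h1 ⊢
      linarith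
    have hd2 : DifferentiableAt ℂ (F (⌈‖z‖⌉₊ + 1)) z :=
      (hF1 _).differentiableAt (Metric.isOpen_ball.mem_nhds hzK)
    exact hd2.congr_of_eventuallyEq hK
  · intro z
    exact hF2 _ z (hin z)

end Pool.Agent.MD
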