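import Pool.Agent.MD.S.Even
import Pool.Agent.MD.S.Sqrt
import Pool.Agent.MD.E.Defs2

/-! # MD/S-Fin: the completed L-function is entire -/

namespace Pool.Agent.MD

open NumberField IsDedekindDomain Pool.Agent.HWR Pool.Agent.QD Pool.Agent.QD.In Pool.Agent.LD
  Pool.Agent.H73.AL

private theorem hp_conn (c : ℝ) : IsPreconnected {s : ℂ | c < s.re} :=
  (convex_halfSpace_re_gt c).isPreconnected

private theorem hp_open (c : ℝ) : IsOpen {s : ℂ | c < s.re} :=
  isOpen_lt continuous_const Complex.continuous_re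

private theorem ord_refl {h : ℂ → ℂ} (hfe : ∀ s : ℂ, h s = h (2 - s)) (z : ℂ) :
    analyticOrderAt h z = analyticOrderAt h (2 - z) := by
  have hσ : AnalyticAt ℂ (fun s : ℂ => 2 - s) z := analyticAt_const.sub analyticAt_id
  have hσ' : deriv (fun s : ℂ => 2 - s) z ≠ 0 := by
    rw [deriv_const_sub, deriv_id'']
    exact neg_ne_zero.2 one_ne_zero
  have hcf : analyticOrderAt (h ∘ fun s : ℂ => 2 - s) z = analyticOrderAt h (2 - z) :=
    analyticOrderAt_comp_of_deriv_ne_zero hσ hσ'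
  rw [← hcf]
  congr 1
  funext s
  exact hfe s

open Filter Topology in
private theorem agree {U : Set ℂ} (hU : IsOpen U) (hUc : IsPreconnected U) {F G : ℂ → ℂ}
    (hF : DifferentiableOn ℂ F U) (hG : DifferentiableOn ℂ G U) (h2 : ∀ z ∈ U, F z ^ 2 = G z ^ 2)
    {z1 : ℂ} (hz1 : z1 ∈ U) (h1 : F z1 = G z1) (h0 : G z1 ≠ 0) : ∀ z ∈ U, F z = G z := by
  have hFa : AnalyticOnNhd ℂ F U := hF.analyticOnNhd hU
  have hGa : AnalyticOnNhd ℂ G U := hG.analyticOnNhd hU
  have hev : F =ᶠ[𝓝 z1] G := by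
    have h3 : ∀ᶠ z in 𝓝 z1, F z + G z ≠ 0 := by
      have hcont : ContinuousAt (fun z => F z + G z) z1 :=
        ((hFa z1 hz1).continuousAt).add ((hGa z1 hz1).continuousAt)
      apply hcont.eventually_ne
      rw [h1]
      intro h4
      apply h0
      have : (2 : ℂ) * G z1 = 0 := by linear_combination h4
      simpa using this
    filter_upwards [h3, hU.mem_nhds hz1] with z hz hzb
    have h4 : (F z - G z) * (F z + G z) = 0 := by linear_combination h2 z hzb
    exact sub_eq_zero.1 ((mul_eq_zero.1 h4).resolve_right hz)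
  exact hFa.eqOn_of_preconnected_of_eventuallyEq hGa hUc hz1 hev

private theorem finOrd_sq {h G : ℂ → ℂ} (hh : FinOrd h) (hG : ∀ z, G z ^ 2 = h z) : FinOrd G := by
  intro a b
  obtain ⟨A, C, hAC⟩ := hh a b
  refine ⟨A, C / 2, fun s h1 h2 => ?_⟩
  have h3 := hAC s h1 h2
  rw [← hG, norm_pow] at h3
  have h4 : Real.exp (C * (1 + |s.im|) ^ A) = Real.exp (C / 2 * (1 + |s.im|) ^ A) ^ 2 := by
    rw [← Real.exp_nat_mul]
    congr 1
    push_cast
    ring
  rw [h4] at h3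
  exact (pow_le_pow_iff_left₀ (norm_nonneg _) (Real.exp_pos _).le two_ne_zero).1 h3

private theorem fe_sign {G : ℂ → ℂ} (hG : Differentiable ℂ G) (h : ∀ s : ℂ, G s ^ 2 = G (2 - s) ^ 2) :
    (∀ s : ℂ, G s = G (2 - s)) ∨ ∀ s : ℂ, G s = -G (2 - s) := by
  have hσ : Differentiable ℂ (fun s : ℂ => G (2 - s)) :=
    hG.comp ((differentiable_const (2 : ℂ)).sub differentiable_id)
  have hP : AnalyticOnNhd ℂ (fun s : ℂ => G s - G (2 - s)) Set.univ :=
    (hG.sub hσ).differentiableOn.analyticOnNhd isOpen_univ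
  have hQ : AnalyticOnNhd ℂ (fun s : ℂ => G s + G (2 - s)) Set.univ :=
    (hG.add hσ).differentiableOn.analyticOnNhd isOpen_univ
  have hPQ : ∀ s ∈ (Set.univ : Set ℂ), (G s - G (2 - s)) * (G s + G (2 - s)) = 0 := by
    intro s _
    linear_combination h s
  rcases AnalyticOnNhd.eq_zero_or_eq_zero_of_mul_eq_zero hP hQ hPQ isPreconnected_univ with h1 | h1
  · left
    intro s
    exact sub_eq_zero.1 (h1 s (Set.mem_univ s))
  · right
    intro s
    exact eq_neg_of_add_eq_zero_left (h1 s (Set.mem_univ s))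

theorem hwpm_of (K : Type) [Field K] [NumberField K] (T : Finset ℕ) (hTp : ∀ p ∈ T, p.Prime)
    (hT : ∀ p : ℕ, p.Prime → p < 101 → p ∈ T) (D : LocData T) (a : ℕ → ℝ)
    (ha : ∀ q : ℕ, |a q| ≤ 2 * Real.sqrt q) (hfr : FrobRel T a)
    (V : Finset (HeightOneSpectrum (𝓞 K))) (hV : ∀ v ∈ V, Away K T v) (hne : V.Nonempty)
    (H : HWV D a V) (H2 : HW4 D a V) (R1 : ℂ → ℂ)
    (hR1 : DifferentiableOn ℂ R1 {s : ℂ | 1 < s.re})
    (hR1e : ∀ s : ℂ, 3 / 2 < s.re → R1 s = D.Lam a K s) (hK : HW2 D a K) : HWpm D a K := by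
  obtain ⟨h, hd, hfo, hfe, he⟩ := hK
  have hLne : ∀ s : ℂ, 3 / 2 < s.re → D.Lam a K s ≠ 0 := fun s hs => Lam_ne D hTp hT ha K hs
  have h2re : (3 : ℝ) / 2 < (2 : ℂ).re := by
    simp only [Complex.re_ofNat]
    norm_num
  have h2re' : (1 : ℝ) < (2 : ℂ).re := by
    simp only [Complex.re_ofNat]
    norm_num
  have hR2 : R1 2 ≠ 0 := by
    rw [hR1e 2 h2re]
    exact hLne 2 h2re
  -- `h = R1²` on the half plane
  have hsq : ∀ s : ℂ, 1 < s.re → h s = R1 s ^ 2 := by
    have hha : AnalyticOnNhd ℂ h {s : ℂ | 1 < s.re} := hd.differentiableOn.analyticOnNhd (hp_open 1)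
    have hRa : AnalyticOnNhd ℂ (fun s => R1 s ^ 2) {s : ℂ | 1 < s.re} :=
      (hR1.pow 2).analyticOnNhd (hp_open 1)
    have hev : h =ᶠ[nhds (2 : ℂ)] fun s => R1 s ^ 2 := by
      filter_upwards [(hp_open (3 / 2)).mem_nhds h2re] with s hs
      rw [he s hs, hR1e s hs]
    exact fun s hs => hha.eqOn_of_preconnected_of_eventuallyEq hRa (hp_conn 1) h2re' hev hs
  have hright : ∀ (z : ℂ) (n : ℕ), 1 < z.re → analyticOrderAt h z = n → Even n := by
    intro z n hz hn
    have h1 : h =ᶠ[nhds z] (R1 ^ 2) := by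
      filter_upwards [(hp_open 1).mem_nhds hz] with s hs
      exact hsq s hs
    have h2 : AnalyticAt ℂ R1 z := (hR1.analyticOnNhd (hp_open 1)) z hz
    rw [analyticOrderAt_congr h1, analyticOrderAt_pow h2] at hn
    by_cases htop : analyticOrderAt R1 z = ⊤
    · rw [htop, nsmul_eq_mul] at hn
      exfalso
      have h3 : ((2 : ℕ) : ℕ∞) * ⊤ = ⊤ := ENat.mul_top (by norm_num)
      rw [h3] at hn
      exact ENat.natCast_ne_top n hn.symm
    · obtain ⟨k, hk⟩ := ENat.ne_top_iff_exists.1 htop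
      rw [← hk, nsmul_eq_mul] at hn
      have h4 : 2 * k = n := by exact_mod_cast hn
      exact ⟨k, by omega⟩
  have hev : ∀ (z : ℂ) (n : ℕ), analyticOrderAt h z = n → Even n := by
    intro z n hn
    rcases lt_trichotomy z.re 1 with hz | hz | hz
    · rw [ord_refl hfe z] at hn
      refine hright (2 - z) n ?_ hn
      simp only [Complex.sub_re, Complex.re_ofNat]
      linarith
    · exact even_line K T hTp hT D a ha hfr V hV hne H H2 R1 hR1 hR1e h hd he hz hn
    · exact hright z n hz hn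
  have hne0 : ∃ z, h z ≠ 0 := by
    refine ⟨2, ?_⟩
    rw [he 2 h2re]
    exact pow_ne_zero 2 (hLne 2 h2re)
  obtain ⟨G0, hG0, hG02⟩ := exists_sqrt hd hne0 hev
  -- choose the sign
  obtain ⟨G, hG, hG2, hG1⟩ : ∃ G : ℂ → ℂ, Differentiable ℂ G ∧ (∀ z, G z ^ 2 = h z) ∧ G 2 = R1 2 := by
    have h1 : (G0 2 - R1 2) * (G0 2 + R1 2) = 0 := by
      have h2 := hG02 2
      rw [hsq 2 h2re'] at h2
      linear_combination h2
    rcases mul_eq_zero.1 h1 with h2 | h2
    · exact ⟨G0, hG0, hG02, sub_eq_zero.1 h2⟩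
    · refine ⟨fun z => -G0 z, hG0.neg, fun z => ?_, ?_⟩
      · rw [neg_sq]
        exact hG02 z
      · show -G0 2 = R1 2
        linear_combination -h2
  have hGR : ∀ s : ℂ, 1 < s.re → G s = R1 s := fun s hs =>
    agree (hp_open 1) (hp_conn 1) hG.differentiableOn hR1
      (fun z hz => by rw [hG2 z, hsq z hz]) h2re' hG1 hR2 s hs
  refine ⟨G, hG, finOrd_sq hfo hG2, fe_sign hG (fun s => ?_), fun s hs => ?_⟩
  · rw [hG2, hG2, hfe s]
  · rw [hGR s (by linarith), hR1e s hs]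

end Pool.Agent.MD
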