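import Pool.Agent.MD.S.Defs
import Pool.Agent.MD.A.Kf1

/-!
# MD/S-Lcf: the local factors at the places of `V`

The combination of the factors `ka`, `kb` at one place is `lcf`; the sum over all choices of the
classes is a product over the places.
-/

namespace Pool.Agent.MD

open Pool.Agent.QD Pool.Agent.QD.SysD Pool.Agent.LD

private theorem lcf_alg (r X l : ℂ) (hr : r ≠ 0) :
    (1 + X ^ 2 / (r ^ 2 * r)) * (r ^ 2 * (1 + l * (X / (r ^ 2) ^ 2) + X ^ 2 / (r ^ 2) ^ 3)) -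
      r * (1 + X ^ 2 / ((r ^ 2) ^ 2 * r)) * (1 + l * (X / r ^ 2) + X ^ 2 / r ^ 2) =
    (r ^ 2 - r) * (1 - X ^ 2 / (r ^ 2) ^ 2) * (1 - l * (X / (r ^ 2 * r)) + X ^ 2 / (r ^ 2) ^ 2) := by
  field_simp
  ring

private theorem lcf_half {q : ℕ} : (q : ℂ) ^ (1 / 2 : ℂ) = (Real.sqrt q : ℂ) := by
  rw [Real.sqrt_eq_rpow, Complex.ofReal_cpow (Nat.cast_nonneg q)]
  norm_num

theorem lcf_id {q : ℕ} (hq : 101 ≤ q) (lam : ℝ) (s : ℂ) :
    r2 q (2 * s - 1) * kb q lam (2 - s) - r1 q (2 * s - 1) * ka q lam (2 - s) = lcf q lam s := by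
  have hQ : (q : ℂ) ≠ 0 := by exact_mod_cast (by omega : q ≠ 0)
  have h2s : (q : ℂ) ^ (2 * s) = ((q : ℂ) ^ s) ^ 2 := by
    rw [two_mul, Complex.cpow_add _ _ hQ, sq]
  have e1 : (q : ℂ) ^ (2 * s - 1 - 1 / 2) = ((q : ℂ) ^ s) ^ 2 / ((q : ℂ) * (Real.sqrt q : ℂ)) := by
    have h : 2 * s - 1 - 1 / 2 = 2 * s - (1 + 1 / 2) := by ring
    rw [h, Complex.cpow_sub _ _ hQ, Complex.cpow_add _ _ hQ, Complex.cpow_one, lcf_half, h2s]
  have e2 : (q : ℂ) ^ (2 * s - 1 - 3 / 2) =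
      ((q : ℂ) ^ s) ^ 2 / ((q : ℂ) ^ 2 * (Real.sqrt q : ℂ)) := by
    have h : 2 * s - 1 - 3 / 2 = 2 * s - (2 + 1 / 2) := by ring
    rw [h, Complex.cpow_sub _ _ hQ, Complex.cpow_add _ _ hQ, Complex.cpow_ofNat, lcf_half, h2s]
  have e3 : (q : ℂ) ^ (-(2 - s)) = (q : ℂ) ^ s / (q : ℂ) ^ 2 := by
    have h : -(2 - s) = s - 2 := by ring
    rw [h, Complex.cpow_sub _ _ hQ, Complex.cpow_ofNat]
  have e4 : (q : ℂ) ^ (1 - 2 * (2 - s)) = ((q : ℂ) ^ s) ^ 2 / (q : ℂ) ^ 3 := by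
    have h : 1 - 2 * (2 - s) = 2 * s - 3 := by ring
    rw [h, Complex.cpow_sub _ _ hQ, h2s, Complex.cpow_ofNat]
  have e5 : (q : ℂ) ^ (1 - (2 - s)) = (q : ℂ) ^ s / (q : ℂ) := by
    have h : 1 - (2 - s) = s - 1 := by ring
    rw [h, Complex.cpow_sub _ _ hQ, Complex.cpow_one]
  have e6 : (q : ℂ) ^ (3 - 2 * (2 - s)) = ((q : ℂ) ^ s) ^ 2 / (q : ℂ) := by
    have h : 3 - 2 * (2 - s) = 2 * s - 1 := by ring
    rw [h, Complex.cpow_sub _ _ hQ, h2s, Complex.cpow_one]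
  have e7 : (q : ℂ) ^ (2 * s - 2) = ((q : ℂ) ^ s) ^ 2 / (q : ℂ) ^ 2 := by
    rw [Complex.cpow_sub _ _ hQ, h2s, Complex.cpow_ofNat]
  have e8 : (q : ℂ) ^ (s - 3 / 2) = (q : ℂ) ^ s / ((q : ℂ) * (Real.sqrt q : ℂ)) := by
    have h : s - 3 / 2 = s - (1 + 1 / 2) := by ring
    rw [h, Complex.cpow_sub _ _ hQ, Complex.cpow_add _ _ hQ, Complex.cpow_one, lcf_half]
  unfold r1 r2 ka kb lcf
  rw [e1, e2, e3, e4, e5, e6, e7, e8]
  obtain ⟨X, hX⟩ : ∃ X : ℂ, X = (q : ℂ) ^ s := ⟨_, rfl⟩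
  obtain ⟨r, hr⟩ : ∃ r : ℂ, r = (Real.sqrt q : ℂ) := ⟨_, rfl⟩
  have hqr : (q : ℂ) = r ^ 2 := by
    rw [hr, ← Complex.ofReal_pow, Real.sq_sqrt (Nat.cast_nonneg q), Complex.ofReal_natCast]
  have hr0 : r ≠ 0 := by
    intro h
    rw [h] at hqr
    exact hQ (by rw [hqr]; norm_num)
  rw [← hX, ← hr, hqr]
  exact lcf_alg r X lam hr0

theorem lcf_diff {q : ℕ} (hq : 101 ≤ q) (lam : ℝ) : Differentiable ℂ (lcf q lam) := by
  have hQ : (q : ℂ) ≠ 0 := by exact_mod_cast (by omega : q ≠ 0)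
  have h1 : Differentiable ℂ (fun s : ℂ => (q : ℂ) ^ (2 * s - 2)) :=
    ((differentiable_id.const_mul 2).sub_const 2).const_cpow (Or.inl hQ)
  have h2 : Differentiable ℂ (fun s : ℂ => (q : ℂ) ^ (s - 3 / 2)) :=
    (differentiable_id.sub_const (3 / 2)).const_cpow (Or.inl hQ)
  have h3 : lcf q lam = fun s : ℂ => ((q : ℂ) - (Real.sqrt q : ℂ)) *
      (1 - (q : ℂ) ^ (2 * s - 2)) *
      (1 - (lam : ℂ) * (q : ℂ) ^ (s - 3 / 2) + (q : ℂ) ^ (2 * s - 2)) := rfl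
  rw [h3]
  exact ((h1.const_sub 1).const_mul _).mul (((h2.const_mul _).const_sub 1).add h1)

theorem lcf_ne {q : ℕ} (hq : 101 ≤ q) {lam : ℝ} (hl : |lam| ≤ 2 * Real.sqrt q) :
    lcf q lam (5 / 4) ≠ 0 := by
  have hq0 : (0 : ℝ) < q := by exact_mod_cast (by omega : 0 < q)
  have hq1 : (1 : ℝ) < q := by exact_mod_cast (by omega : 1 < q)
  obtain ⟨Y, hY⟩ : ∃ Y : ℝ, Y = (q : ℝ) ^ (1 / 4 : ℝ) := ⟨_, rfl⟩
  have hY1 : 1 < Y := by
    rw [hY]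
    exact Real.one_lt_rpow hq1 (by norm_num)
  have hY0 : 0 < Y := by linarith
  have hY2 : Real.sqrt q = Y ^ 2 := by
    rw [hY, Real.sqrt_eq_rpow, ← Real.rpow_natCast, ← Real.rpow_mul hq0.le]
    norm_num
  have hY4 : (q : ℝ) = Y ^ 4 := by
    rw [hY, ← Real.rpow_natCast, ← Real.rpow_mul hq0.le]
    norm_num
  have e1 : (q : ℂ) ^ (2 * (5 / 4) - 2 : ℂ) = ((Y ^ 2 : ℝ) : ℂ) := by
    have h : (2 * (5 / 4) - 2 : ℂ) = 1 / 2 := by norm_num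
    rw [h, lcf_half, hY2]
  have e2 : (q : ℂ) ^ (5 / 4 - 3 / 2 : ℂ) = ((Y⁻¹ : ℝ) : ℂ) := by
    have h : (5 / 4 - 3 / 2 : ℂ) = ((-(1 / 4) : ℝ) : ℂ) := by norm_num
    have h2 : Y⁻¹ = (q : ℝ) ^ (-(1 / 4) : ℝ) := by rw [hY, Real.rpow_neg hq0.le]
    rw [h, h2, Complex.ofReal_cpow hq0.le, Complex.ofReal_natCast]
  have e3 : lcf q lam (5 / 4) =
      (((Y ^ 4 - Y ^ 2) * (1 - Y ^ 2) * (1 - lam * Y⁻¹ + Y ^ 2) : ℝ) : ℂ) := by
    unfold lcf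
    rw [e1, e2, hY2]
    have h : (q : ℂ) = ((Y ^ 4 : ℝ) : ℂ) := by rw [← hY4, Complex.ofReal_natCast]
    rw [h]
    push_cast
    ring
  rw [e3, Complex.ofReal_ne_zero]
  have h1 : 1 < Y ^ 2 := by nlinarith
  have h2 : 0 < Y ^ 4 - Y ^ 2 := by nlinarith
  have h3 : 1 - Y ^ 2 < 0 := by linarith
  have h4 : lam * Y⁻¹ ≤ 2 * Y := by
    have h5 : lam ≤ 2 * Y ^ 2 := (le_abs_self lam).trans (by rw [← hY2]; exact hl)
    calc lam * Y⁻¹ ≤ 2 * Y ^ 2 * Y⁻¹ := mul_le_mul_of_nonneg_right h5 (by positivity)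
      _ = 2 * Y := by field_simp
  have h6 : 0 < 1 - lam * Y⁻¹ + Y ^ 2 := by nlinarith
  exact mul_ne_zero (mul_ne_zero h2.ne' h3.ne) h6.ne'

variable {S : SysD} {H : Subgroup S.G} {Kn : Set S.G} {M0 : S.G → ℂ → ℂ} {κ : Type} [Fintype κ]
  [DecidableEq κ] {e p : κ → S.G} {q : κ → ℕ} {lam : κ → ℝ}

theorem sum_lcf (hL : IsLocs S H Kn M0 e p q lam) {s : ℂ} (hs : 3 / 2 < s.re) :
    (∑ f : κ → Bool, (∏ i, co (q i) (f i) (2 * s - 1)) *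
        S.GG (cl e p fun i => ef (f i)) (2 - s)) * ∏ i, ka (q i) (lam i) (2 - s) =
      S.GG (cl e p fun _ => ef false) (2 - s) * ∏ i, lcf (q i) (lam i) s := by
  have hre : (2 - s).re < 1 / 2 := by
    rw [Complex.sub_re, Complex.re_ofNat]
    linarith
  have h1 : ∀ f : κ → Bool, S.GG (cl e p fun i => ef (f i)) (2 - s) *
      ∏ i, ka (q i) (lam i) (2 - s) = S.GG (cl e p fun _ => ef false) (2 - s) *
        ∏ i, (if f i then kb (q i) (lam i) (2 - s) else ka (q i) (lam i) (2 - s)) := by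
    intro f
    have h2 := hL.GG_rel 1 H.one_mem f (2 - s) hre
    rw [one_mul, one_mul] at h2
    have h3 : ∏ i, ka (q i) (lam i) (2 - s) =
        (∏ i, if f i then ka (q i) (lam i) (2 - s) else 1) *
          ∏ i, if f i then 1 else ka (q i) (lam i) (2 - s) := by
      rw [← Finset.prod_mul_distrib]
      refine Finset.prod_congr rfl fun i _ => ?_
      split_ifs
      · rw [mul_one]
      · rw [one_mul]
    rw [h3, ← mul_assoc, h2, mul_assoc, ← Finset.prod_mul_distrib]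
    congr 1
    refine Finset.prod_congr rfl fun i _ => ?_
    split_ifs
    · rw [mul_one]
    · rw [one_mul]
  have h4 : ∀ i : κ, ∑ b : Bool, co (q i) b (2 * s - 1) *
      (if b then kb (q i) (lam i) (2 - s) else ka (q i) (lam i) (2 - s)) =
      lcf (q i) (lam i) s := by
    intro i
    rw [Fintype.sum_bool, ← lcf_id (hL.hq i) (lam i) s]
    simp only [co, if_true, Bool.false_eq_true, if_false]
    ring
  rw [Finset.sum_mul, ← Finset.prod_congr rfl fun i _ => h4 i, Finset.prod_univ_sum,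
    Fintype.piFinset_univ, Finset.mul_sum]
  refine Finset.sum_congr rfl fun f _ => ?_
  rw [mul_assoc, h1 f, Finset.prod_mul_distrib]
  ring

end Pool.Agent.MD
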