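import Pool.Agent.MD.S.Defs

/-!
# MD/S-OrdL: logarithmic growth of analytic functions on the right of a point
-/

namespace Pool.Agent.MD

theorem logO_of {f : ℂ → ℂ} {z : ℂ} (hf : AnalyticAt ℂ f z) {n : ℕ}
    (h : analyticOrderAt f z = n) : LogO f z n := by
  obtain ⟨g, hg, hg0, hfg⟩ := hf.analyticOrderAt_eq_natCast.1 h
  have hgz : 0 < ‖g z‖ := norm_pos_iff.2 hg0
  have h1 : ∀ᶠ y in nhds z, ‖g y‖ < 2 * ‖g z‖ :=
    hg.continuousAt.norm.eventually_lt_const (by linarith)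
  have h2 : ∀ᶠ y in nhds z, ‖g z‖ / 2 < ‖g y‖ :=
    hg.continuousAt.norm.eventually_const_lt (by linarith)
  obtain ⟨ε, hε, hball⟩ := Metric.eventually_nhds_iff.1 (hfg.and (h1.and h2))
  refine ⟨|Real.log ‖g z‖| + Real.log 2, ε, hε, fun δ hδ hδε => ?_⟩
  have hd : dist (z + (δ : ℂ)) z < ε := by
    rw [dist_eq_norm, add_sub_cancel_left, Complex.norm_real, Real.norm_eq_abs, abs_of_pos hδ]
    exact hδε
  obtain ⟨h3, h4, h5⟩ := hball hd
  have hgp : 0 < ‖g (z + (δ : ℂ))‖ := by linarith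
  have hδn : (δ : ℂ) ^ n ≠ 0 := pow_ne_zero _ (by exact_mod_cast hδ.ne')
  have h6 : f (z + (δ : ℂ)) = (δ : ℂ) ^ n * g (z + (δ : ℂ)) := by
    rw [h3, add_sub_cancel_left, smul_eq_mul]
  refine ⟨?_, ?_⟩
  · rw [h6]
    exact mul_ne_zero hδn (norm_pos_iff.1 hgp)
  · have h7 : Real.log ‖f (z + (δ : ℂ))‖ = n * Real.log δ + Real.log ‖g (z + (δ : ℂ))‖ := by
      rw [h6, norm_mul, norm_pow, Complex.norm_real, Real.norm_eq_abs, abs_of_pos hδ,
        Real.log_mul (pow_pos hδ n).ne' hgp.ne', Real.log_pow]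
    have h8 : Real.log ‖g (z + (δ : ℂ))‖ ≤ Real.log 2 + Real.log ‖g z‖ := by
      rw [← Real.log_mul (by norm_num) hgz.ne']
      exact Real.log_le_log hgp h4.le
    have h9 : Real.log ‖g z‖ - Real.log 2 ≤ Real.log ‖g (z + (δ : ℂ))‖ := by
      rw [← Real.log_div hgz.ne' (by norm_num)]
      exact Real.log_le_log (by linarith) h5.le
    rw [h7, add_sub_cancel_left]
    have h10 := neg_abs_le (Real.log ‖g z‖)
    have h11 := le_abs_self (Real.log ‖g z‖)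
    have h12 : 0 ≤ Real.log 2 := Real.log_nonneg (by norm_num)
    exact abs_le.2 ⟨by linarith, by linarith⟩

theorem LogO.mul {f g : ℂ → ℂ} {z : ℂ} {x y : ℝ} (hf : LogO f z x) (hg : LogO g z y) :
    LogO (fun s => f s * g s) z (x + y) := by
  obtain ⟨C, d, hd, h⟩ := hf
  obtain ⟨C', d', hd', h'⟩ := hg
  refine ⟨C + C', min d d', lt_min hd hd', fun δ h0 h1 => ?_⟩
  obtain ⟨a1, a2⟩ := h δ h0 (h1.trans_le (min_le_left _ _))
  obtain ⟨b1, b2⟩ := h' δ h0 (h1.trans_le (min_le_right _ _))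
  refine ⟨mul_ne_zero a1 b1, ?_⟩
  dsimp only
  rw [norm_mul, Real.log_mul (norm_ne_zero_iff.2 a1) (norm_ne_zero_iff.2 b1)]
  have e : Real.log ‖f (z + (δ : ℂ))‖ + Real.log ‖g (z + (δ : ℂ))‖ - (x + y) * Real.log δ =
      (Real.log ‖f (z + (δ : ℂ))‖ - x * Real.log δ) +
        (Real.log ‖g (z + (δ : ℂ))‖ - y * Real.log δ) := by ring
  rw [e]
  exact (abs_add_le _ _).trans (add_le_add a2 b2)

theorem LogO.of_mul {f g : ℂ → ℂ} {z : ℂ} {x y : ℝ} (h : LogO (fun s => f s * g s) z x)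
    (hf : LogO f z y) : LogO g z (x - y) := by
  obtain ⟨C, d, hd, h⟩ := h
  obtain ⟨C', d', hd', h'⟩ := hf
  refine ⟨C + C', min d d', lt_min hd hd', fun δ h0 h1 => ?_⟩
  obtain ⟨a1, a2⟩ := h δ h0 (h1.trans_le (min_le_left _ _))
  obtain ⟨b1, b2⟩ := h' δ h0 (h1.trans_le (min_le_right _ _))
  dsimp only at a1 a2
  have c1 : g (z + (δ : ℂ)) ≠ 0 := right_ne_zero_of_mul a1
  refine ⟨c1, ?_⟩
  rw [norm_mul, Real.log_mul (norm_ne_zero_iff.2 b1) (norm_ne_zero_iff.2 c1)] at a2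
  have e : Real.log ‖g (z + (δ : ℂ))‖ - (x - y) * Real.log δ =
      (Real.log ‖f (z + (δ : ℂ))‖ + Real.log ‖g (z + (δ : ℂ))‖ - x * Real.log δ) -
        (Real.log ‖f (z + (δ : ℂ))‖ - y * Real.log δ) := by ring
  rw [e]
  exact (abs_sub _ _).trans (add_le_add a2 b2)

theorem LogO.of_sq {f : ℂ → ℂ} {z : ℂ} {x : ℝ} (h : LogO (fun s => f s ^ 2) z x) :
    LogO f z (x / 2) := by
  obtain ⟨C, d, hd, h⟩ := h
  refine ⟨C / 2, d, hd, fun δ h0 h1 => ?_⟩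
  obtain ⟨a1, a2⟩ := h δ h0 h1
  dsimp only at a1 a2
  have c1 : f (z + (δ : ℂ)) ≠ 0 := fun e => a1 (by rw [e]; norm_num)
  refine ⟨c1, ?_⟩
  rw [norm_pow, Real.log_pow] at a2
  have e : Real.log ‖f (z + (δ : ℂ))‖ - x / 2 * Real.log δ =
      (((2 : ℕ) : ℝ) * Real.log ‖f (z + (δ : ℂ))‖ - x * Real.log δ) / 2 := by
    push_cast
    ring
  rw [e, abs_div, abs_of_pos (by norm_num : (0 : ℝ) < 2)]
  exact div_le_div_of_nonneg_right a2 (by norm_num)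

theorem LogO.congr {f g : ℂ → ℂ} {z : ℂ} {x : ℝ} (h : LogO f z x) {ε : ℝ} (hε : 0 < ε)
    (hfg : ∀ δ : ℝ, 0 < δ → δ < ε → f (z + (δ : ℂ)) = g (z + (δ : ℂ))) : LogO g z x := by
  obtain ⟨C, d, hd, h⟩ := h
  refine ⟨C, min d ε, lt_min hd hε, fun δ h0 h1 => ?_⟩
  rw [← hfg δ h0 (h1.trans_le (min_le_right _ _))]
  exact h δ h0 (h1.trans_le (min_le_left _ _))

end Pool.Agent.MD
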