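import Pool.Agent.MD.S.One
import Pool.Agent.MD.S.Lcf
import Pool.Agent.MD.A.Kf2
import Pool.Agent.MD.A.YC
import Pool.Agent.LD.A.Beta

/-!
# MD/S-QA: the function `Q`

`Q s = E (2 - s) (s + 1/2)` for the continuation `E` of `K1f` (`exists_E`), evaluated by `YR_one` and
`sum_lcf`.
-/

namespace Pool.Agent.MD

open Pool.Agent.QD Pool.Agent.QD.SysD Pool.Agent.LD

variable {S : SysD} {H : Subgroup S.G} {Kn : Set S.G} {M0 : S.G → ℂ → ℂ} {κ : Type} [Fintype κ]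
  [DecidableEq κ] {e p : κ → S.G} {q : κ → ℕ} {lam : κ → ℝ}

theorem exists_Q (hS : IsSys0 S) (hE : IsExt S) (hG : IsKn S Kn)
    (hL : IsLocs S H Kn M0 e p q lam) : ∃ (R : ℝ) (c0 : ℂ) (Q : ℂ → ℂ), 6 ≤ R ∧ c0 ≠ 0 ∧
      DifferentiableOn ℂ Q {s : ℂ | 0 < s.re ∧ s.re < R + 1} ∧
      ∀ s : ℂ, R < s.re → s.re < R + 1 →
        Q s * ∏ i, ka (q i) (lam i) (2 - s) =
          c0 * S.GG (cl e p fun _ => ef false) (2 - s) * (∏ i, lcf (q i) (lam i) s) *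
            (S.Ls s * S.Ls (s + 1 / 2) * ((2 * s - 2) ^ 2 * S.Z1 (2 * s - 1))) * Sym S s := by
  obtain ⟨R1, Y, hR1, hY1⟩ := Pool.Agent.MD.exists_Y hS hG
  obtain ⟨A0, -, hbeta⟩ := YR_beta hS
  obtain ⟨A2, -, hone⟩ := YR_one hS hE
  obtain ⟨R, hR⟩ : ∃ R : ℝ, R = max R1 (max A0 A2) := ⟨_, rfl⟩
  have hRR1 : R1 ≤ R := by rw [hR]; exact le_max_left _ _
  have hRA0 : A0 ≤ R := by rw [hR]; exact (le_max_left _ _).trans (le_max_right _ _)
  have hRA2 : A2 ≤ R := by rw [hR]; exact (le_max_right _ _).trans (le_max_right _ _)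
  have hR6 : (6 : ℝ) ≤ R := hR1.trans hRR1
  have hY : Pool.Agent.MD.IsY S Kn R Y := Pool.Agent.MD.IsY.mono hY1 hRR1
  have hB : Beta S R := fun c s t hs ht hw =>
    hbeta c s t (hRA0.trans_lt hs) (hRA0.trans_lt ht) hw
  obtain ⟨E, hE1, -, hE2⟩ := Pool.Agent.MD.exists_E hS hL (by linarith) hY hB (H.one_mem)
    (-R - 1) 3 0 (R + 2)
  have hre1 : ∀ s : ℂ, (2 - s).re = 2 - s.re := fun s => by simp
  have hre2 : ∀ s : ℂ, (s + 1 / 2).re = s.re + 1 / 2 := fun s => by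
    rw [Complex.add_re]
    norm_num
  refine ⟨R, (S.cU : ℂ)⁻¹ * S.Zf 0 1 1, fun s => E (2 - s) (s + 1 / 2), hR6, ?_, ?_, ?_⟩
  · exact mul_ne_zero (inv_ne_zero (Pool.Agent.LD.cU_ne hS)) hE.Z_ne
  · intro s hs
    obtain ⟨h1, h2⟩ : 0 < s.re ∧ s.re < R + 1 := hs
    have h3 : DifferentiableAt ℂ (fun z : ℂ => E (2 - z) (z + 1 / 2)) s := by
      refine hE1 (fun z => 2 - z) (fun z => z + 1 / 2) (differentiable_id.const_sub 2)
        (differentiable_id.add_const (1 / 2)) s ?_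
      show -R - 1 < (2 - s).re ∧ (2 - s).re < 3 ∧ 0 < (s + 1 / 2).re ∧ (s + 1 / 2).re < R + 2
      rw [hre1, hre2]
      refine ⟨?_, ?_, ?_, ?_⟩ <;> linarith
    exact h3.differentiableWithinAt
  · intro s hs1 hs2
    have hw : ww (2 - s) (s + 1 / 2) = 2 * s - 1 := by
      unfold ww
      ring
    have h1 : E (2 - s) (s + 1 / 2) = K1f S Y e p q 1 (2 - s) (s + 1 / 2) := by
      refine hE2 _ _ ?_ ?_ ?_ ?_ ?_
      · rw [hre1]; linarith
      · rw [hre1]; linarith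
      · rw [hre2]; linarith
      · rw [hre2]; linarith
      · rw [hre2]; linarith
    obtain ⟨y, hy⟩ : ∃ y : ℂ, y = (S.cU : ℂ)⁻¹ * S.Zf 0 1 1 *
        (S.Ls s * S.Ls (s + 1 / 2) * ((2 * s - 2) ^ 2 * S.Z1 (2 * s - 1))) * Sym S s := ⟨_, rfl⟩
    have h2 : ∀ f : κ → Bool, Y (1 * cl e p fun i => ef (f i)) (2 - s) (s + 1 / 2) =
        S.GG (cl e p fun i => ef (f i)) (2 - s) * y := by
      intro f
      have hc := kn_ef hL H.one_mem f
      rw [hY.fe _ hc (2 - s) (s + 1 / 2) (by rw [hre1]; linarith) (by rw [hre2]; linarith),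
        sub_sub_cancel, hY.eq _ hc s (s + 1 / 2) hs1 (by rw [hre2]; linarith), one_mul,
        hone _ s (lt_of_le_of_lt hRA2 hs1), ← hy]
    have h3 : K1f S Y e p q 1 (2 - s) (s + 1 / 2) =
        (∑ f : κ → Bool, (∏ i, co (q i) (f i) (2 * s - 1)) *
          S.GG (cl e p fun i => ef (f i)) (2 - s)) * y := by
      unfold K1f
      rw [Finset.sum_mul, hw]
      refine Finset.sum_congr rfl fun f _ => ?_
      rw [h2 f, mul_assoc]
    have h4 := sum_lcf hL (s := s) (by linarith)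
    show E (2 - s) (s + 1 / 2) * ∏ i, ka (q i) (lam i) (2 - s) = _
    rw [h1, h3, mul_right_comm, h4, hy]
    ring

end Pool.Agent.MD
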