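import Mathlib

/-!
# MD/S-SqrtB: square roots on balls

PLAN.  The zeros of `h` in `closedBall 0 (r + 1)` are finitely many (`h` is not identically `0`; analytic functions have isolated zeros, compactness).  Induction on their number, or `h = P u` with `P = ∏ (z - z_i)^(2 m_i)` and `u` differentiable without zeros on `ball 0 r`
(dividing out the zeros one after the other: at a zero `z0` of order `2 m` the function `h / (z - z0)^(2m)` extends to an entire function `h1` (`dslope` iterated, or `entire_quot` of QD/F/Quot.lean with `g = (z - z0)^(2m)`), whose order at all other points is the same, and which does not vanish at `z0`).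
So: claim by induction on the number `N` of zeros in the closed ball: for every entire `h` with even orders there is `G` differentiable on the open ball with `G² = h` there.  `N = 0`: `h` has no zeros in the ball: a holomorphic function without zeros on a ball has a holomorphic logarithm (Mathlib:
primitives on discs, e.g. `Complex.IsExactOn` / `DifferentiableOn.isExactOn_ball`: `h'/h` has a primitive `g`, `(h exp (-g))' = 0`, so `h = c exp g`; root `c' exp (g/2)`, `c'^2 = c`).
-/

namespace Pool.Agent.MD

open Filter Topology in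
private theorem ord_fin {h : ℂ → ℂ} (hd : Differentiable ℂ h) (hne : ∃ z, h z ≠ 0) (z : ℂ) :
    ∃ n : ℕ, analyticOrderAt h z = n := by
  have han : AnalyticAt ℂ h z := hd.analyticAt z
  have h1 : analyticOrderAt h z ≠ ⊤ := by
    intro htop
    rw [analyticOrderAt_eq_top] at htop
    have hU : AnalyticOnNhd ℂ h Set.univ := fun w _ => hd.analyticAt w
    have h2 := hU.eqOn_zero_of_preconnected_of_eventuallyEq_zero isPreconnected_univ
      (Set.mem_univ z) htop
    obtain ⟨w, hw⟩ := hne
    exact hw (h2 (Set.mem_univ w))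
  exact ⟨analyticOrderNatAt h z, (Nat.cast_analyticOrderNatAt h1).symm⟩

open Filter Topology in
private theorem fin_zeros {h : ℂ → ℂ} (hd : Differentiable ℂ h) (hne : ∃ z, h z ≠ 0) (r : ℝ) :
    {z | z ∈ Metric.closedBall (0 : ℂ) r ∧ h z = 0}.Finite := by
  by_contra hinf
  obtain ⟨x, -, hx⟩ := Set.Infinite.exists_accPt_of_subset_isCompact hinf
    (isCompact_closedBall (0 : ℂ) r) (fun z hz => hz.1)
  have hU : AnalyticOnNhd ℂ h Set.univ := fun w _ => hd.analyticAt w
  have h1 : ∃ᶠ z in 𝓝[≠] x, h z = 0 := by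
    rw [accPt_iff_frequently] at hx
    rw [frequently_nhdsWithin_iff]
    refine hx.mono ?_
    rintro z ⟨hz1, hz2⟩
    exact ⟨hz2.2, hz1⟩
  have h2 := hU.eqOn_zero_of_preconnected_of_frequently_eq_zero isPreconnected_univ
    (Set.mem_univ x) h1
  obtain ⟨w, hw⟩ := hne
  exact hw (h2 (Set.mem_univ w))

/-- no zeros in the ball -/
private theorem sqrt_zero_free {h : ℂ → ℂ} (hd : Differentiable ℂ h) (r : ℝ) (hr : 0 < r)
    (hz : ∀ z ∈ Metric.ball (0 : ℂ) r, h z ≠ 0) :
    ∃ G : ℂ → ℂ, DifferentiableOn ℂ G (Metric.ball 0 r) ∧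
      ∀ z ∈ Metric.ball (0 : ℂ) r, G z ^ 2 = h z := by
  have h0 : (0 : ℂ) ∈ Metric.ball (0 : ℂ) r := Metric.mem_ball_self hr
  have hder : Differentiable ℂ (deriv h) := by
    intro z
    exact (hd.analyticAt z).deriv.differentiableAt
  have hq : DifferentiableOn ℂ (fun z => deriv h z / h z) (Metric.ball 0 r) := by
    intro z hz1
    exact ((hder z).div (hd z) (hz z hz1)).differentiableWithinAt
  obtain ⟨g, hg⟩ := hq.isExactOn_ball
  have hcon : ∀ z ∈ Metric.ball (0 : ℂ) r, h z * Complex.exp (-g z) = h 0 * Complex.exp (-g 0) := by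
    intro z hz1
    have hD : ∀ w ∈ Metric.ball (0 : ℂ) r,
        HasDerivAt (fun w => h w * Complex.exp (-g w)) 0 w := by
      intro w hw
      have e1 := (hd w).hasDerivAt.mul (hg w hw).neg.cexp
      have e2 : deriv h w * Complex.exp (-g w) +
          h w * (Complex.exp (-g w) * -(deriv h w / h w)) = 0 := by
        field_simp [hz w hw]
        ring
      rw [← e2]
      exact e1
    have hdo : DifferentiableOn ℂ (fun w => h w * Complex.exp (-g w)) (Metric.ball 0 r) :=
      fun w hw => (hD w hw).differentiableAt.differentiableWithinAt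
    exact (convex_ball (0 : ℂ) r).is_const_of_fderivWithin_eq_zero hdo (fun w hw => by
      rw [fderivWithin_of_isOpen Metric.isOpen_ball hw]
      have := (hD w hw).hasFDerivAt.fderiv
      rw [this]
      ext
      simp) hz1 h0
  obtain ⟨c, hc⟩ : ∃ c : ℂ, c ^ 2 = h 0 * Complex.exp (-g 0) :=
    IsAlgClosed.exists_pow_nat_eq _ (by norm_num)
  refine ⟨fun z => c * Complex.exp (g z / 2), ?_, ?_⟩
  · intro z hz1
    exact (((hg z hz1).differentiableAt.div_const 2).cexp.const_mul c).differentiableWithinAt
  · intro z hz1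
    have h1 := hcon z hz1
    calc (c * Complex.exp (g z / 2)) ^ 2 = c ^ 2 * (Complex.exp (g z / 2)) ^ 2 := by ring
      _ = (h z * Complex.exp (-g z)) * Complex.exp (g z) := by
          rw [hc, ← h1, ← Complex.exp_nat_mul]
          congr 2
          push_cast
          ring
      _ = h z := by
          rw [mul_assoc, ← Complex.exp_add]
          simp

open Filter Topology in
private theorem sqrt_ind (r : ℝ) (hr : 0 < r) : ∀ (N : ℕ) (h : ℂ → ℂ), Differentiable ℂ h →
    (∃ z, h z ≠ 0) → (∀ (z : ℂ) (n : ℕ), analyticOrderAt h z = n → Even n) →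
    {z | z ∈ Metric.closedBall (0 : ℂ) r ∧ h z = 0}.ncard = N →
    ∃ G : ℂ → ℂ, DifferentiableOn ℂ G (Metric.ball 0 r) ∧
      ∀ z ∈ Metric.ball (0 : ℂ) r, G z ^ 2 = h z := by
  intro N
  induction N with
  | zero =>
    intro h hd hne hev hN
    rw [Set.ncard_eq_zero (fin_zeros hd hne r)] at hN
    apply sqrt_zero_free hd r hr
    intro z hz h0
    have : z ∈ {z | z ∈ Metric.closedBall (0 : ℂ) r ∧ h z = 0} :=
      ⟨Metric.ball_subset_closedBall hz, h0⟩
    rw [hN] at this
    exact this
  | succ N ih =>
    intro h hd hne hev hN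
    have hfin := fin_zeros hd hne r
    have hnon : {z | z ∈ Metric.closedBall (0 : ℂ) r ∧ h z = 0}.Nonempty := by
      rw [← Set.ncard_pos hfin]
      omega
    obtain ⟨z0, hz0, hz0'⟩ := hnon
    obtain ⟨n, hn⟩ := ord_fin hd hne z0
    obtain ⟨m, hm⟩ := hev z0 n hn
    have hn0 : n ≠ 0 := by
      rintro rfl
      rw [Nat.cast_zero, (hd.analyticAt z0).analyticOrderAt_eq_zero] at hn
      exact hn hz0'
    obtain ⟨g, hg1, hg2, hg3⟩ := ((hd.analyticAt z0).analyticOrderAt_eq_natCast).1 hn
    let h1 : ℂ → ℂ := fun z => if z = z0 then g z0 else h z / (z - z0) ^ n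
    have hh1 : ∀ z, h z = (z - z0) ^ n * h1 z := by
      intro z
      by_cases hz : z = z0
      · subst hz
        rw [sub_self, zero_pow hn0, zero_mul, hz0']
      · have e : h1 z = h z / (z - z0) ^ n := if_neg hz
        rw [e, mul_div_cancel₀ _ (pow_ne_zero _ (sub_ne_zero.2 hz))]
    have hloc : ∀ᶠ z in 𝓝 z0, h1 z = g z := by
      filter_upwards [hg3] with z hz
      by_cases hzz : z = z0
      · rw [hzz]; exact if_pos rfl
      · have e : h1 z = h z / (z - z0) ^ n := if_neg hzz
        rw [e, hz, smul_eq_mul, mul_div_cancel_left₀ _ (pow_ne_zero _ (sub_ne_zero.2 hzz))]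
    have hd1 : Differentiable ℂ h1 := by
      intro z
      by_cases hz : z = z0
      · subst hz
        exact (hg1.congr (hloc.mono fun _ hx => hx.symm)).differentiableAt
      · have e : ∀ᶠ w in 𝓝 z, h1 w = h w / (w - z0) ^ n := by
          filter_upwards [isOpen_ne.mem_nhds hz] with w hw
          exact if_neg hw
        have e2 : DifferentiableAt ℂ (fun w => h w / (w - z0) ^ n) z :=
          (hd z).div (((differentiableAt_id).sub_const z0).pow n)
            (pow_ne_zero _ (sub_ne_zero.2 hz))
        exact e2.congr_of_eventuallyEq e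
    have h10 : h1 z0 = g z0 := if_pos rfl
    have hne1 : ∃ z, h1 z ≠ 0 := ⟨z0, by rw [h10]; exact hg2⟩
    have hev1 : ∀ (z : ℂ) (k : ℕ), analyticOrderAt h1 z = k → Even k := by
      intro z k hk
      by_cases hz : z = z0
      · subst hz
        have e : analyticOrderAt h1 z = 0 := by
          rw [(hd1.analyticAt z).analyticOrderAt_eq_zero, h10]
          exact hg2
        rw [e] at hk
        have : k = 0 := by exact_mod_cast hk.symm
        rw [this]
        exact Even.zero
      · apply hev z k
        have e : h = (fun w => (w - z0) ^ n) * h1 := by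
          funext w
          exact hh1 w
        have e2 : AnalyticAt ℂ (fun w : ℂ => (w - z0) ^ n) z :=
          ((analyticAt_id).sub analyticAt_const).pow n
        have e3 : analyticOrderAt (fun w : ℂ => (w - z0) ^ n) z = 0 := by
          rw [e2.analyticOrderAt_eq_zero]
          exact pow_ne_zero _ (sub_ne_zero.2 hz)
        rw [e, analyticOrderAt_mul e2 (hd1.analyticAt z), e3, zero_add, hk]
    have hset : {z | z ∈ Metric.closedBall (0 : ℂ) r ∧ h1 z = 0} =
        {z | z ∈ Metric.closedBall (0 : ℂ) r ∧ h z = 0} \ {z0} := by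
      ext z
      constructor
      · rintro ⟨ha, hb⟩
        refine ⟨⟨ha, by rw [hh1, hb, mul_zero]⟩, ?_⟩
        rintro (rfl : z = z0)
        rw [h10] at hb
        exact hg2 hb
      · rintro ⟨⟨ha, hb⟩, hc⟩
        refine ⟨ha, ?_⟩
        rw [hh1] at hb
        exact (mul_eq_zero.1 hb).resolve_left (pow_ne_zero _ (sub_ne_zero.2 hc))
    have hmem : z0 ∈ {z | z ∈ Metric.closedBall (0 : ℂ) r ∧ h z = 0} := ⟨hz0, hz0'⟩
    obtain ⟨G, hG1, hG2⟩ := ih h1 hd1 hne1 hev1 (by
      rw [hset, Set.ncard_sdiff_singleton_of_mem hmem, hN]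
      rfl)
    refine ⟨fun z => (z - z0) ^ m * G z, ?_, ?_⟩
    · exact DifferentiableOn.mul
        (((differentiable_id.sub_const z0).pow m).differentiableOn) hG1
    · intro z hz
      rw [mul_pow, hG2 z hz, hh1 z, ← pow_mul, hm]
      congr 2
      ring

theorem sqrt_ball {h : ℂ → ℂ} (hd : Differentiable ℂ h) (hne : ∃ z, h z ≠ 0)
    (hev : ∀ (z : ℂ) (n : ℕ), analyticOrderAt h z = n → Even n) (r : ℝ) (hr : 0 < r) :
    ∃ G : ℂ → ℂ, DifferentiableOn ℂ G (Metric.ball 0 r) ∧
      ∀ z ∈ Metric.ball (0 : ℂ) r, G z ^ 2 = h z :=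
  sqrt_ind r hr _ h hd hne hev rfl

end Pool.Agent.MD
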