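import Pool.Agent.MD.S.SymK
import Pool.Agent.MD.S.OrdL
import Pool.Agent.H73.AL.Final

/-!
# MD/S-SymO: the order of the symmetric square on the line `Re s = 1`

PLAN.  `symK`: `N`, `B`.  On `Re s > 1`: `h = R1²` (identity theorem on the half plane, both differentiable, equal for `Re s > 3/2`).  `analyticOrderAt N z = n1`, `B`: `n2`, `R1` at `z + 1/2` (`Re = 3/2 > 1`): `n3`, all finite: the functions are not identically `0` on the (preconnected) regions:
`B (5/4) ≠ 0`; `R1 ≠ 0` on `Re s > 3/2` (`Lam_ne`, H73/AL/Final), so `h` and `R1` are not locally `0` anywhere; `N` is not locally `0`: otherwise `N = 0` on the strip `1/2 < Re s < 3/2`, but on `1 < Re s < 3/2` it is a product of functions none of which vanishes identically (take a point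
near `5/4` where `B`, `R1`, `R1 (· + 1/2)` do not vanish: zeros are isolated; `SP ≠ 0` by `gen_ne`).  `logO_of` for `N`, `B`, `h`, `R1 (· + 1/2)` at `z`; `LogO h z n`, `h = R1²` at `z + δ`: `LogO R1 z (n/2)` (`of_sq`, `congr`); `N (z+δ) = B R1 R1(+1/2) SP` for `0 < δ < 1/2`;
`LogO.mul`, `of_mul`: `LogO SP z (n1 - n2 - n/2 - n3)`; `κ = 2 (n1 - n2 - n3) - n`.
-/

namespace Pool.Agent.MD

open NumberField IsDedekindDomain Pool.Agent.HWR Pool.Agent.QD Pool.Agent.LD Pool.Agent.H73.AL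

private theorem hp_open (c : ℝ) : IsOpen {s : ℂ | c < s.re} :=
  isOpen_lt continuous_const Complex.continuous_re

private theorem hp_pre (c : ℝ) : IsPreconnected {s : ℂ | c < s.re} :=
  (convex_halfSpace_re_gt c).isPreconnected

private theorem st_open (c d : ℝ) : IsOpen {s : ℂ | c < s.re ∧ s.re < d} :=
  (isOpen_lt continuous_const Complex.continuous_re).inter
    (isOpen_lt Complex.continuous_re continuous_const)

private theorem st_pre (c d : ℝ) : IsPreconnected {s : ℂ | c < s.re ∧ s.re < d} :=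
  ((convex_halfSpace_re_gt c).inter (convex_halfSpace_re_lt d)).isPreconnected

/-- a holomorphic function on a preconnected open set which does not vanish at one point has finite
order at every point -/
private theorem ord_fin {f : ℂ → ℂ} {U : Set ℂ} (hU : IsOpen U) (hUp : IsPreconnected U)
    (hf : DifferentiableOn ℂ f U) {z w : ℂ} (hz : z ∈ U) (hw : w ∈ U) (hne : f w ≠ 0) :
    ∃ n : ℕ, analyticOrderAt f z = n := by
  have han : AnalyticOnNhd ℂ f U := hf.analyticOnNhd hU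
  have h1 : analyticOrderAt f z ≠ ⊤ := by
    intro h
    rw [analyticOrderAt_eq_top] at h
    exact hne (han.eqOn_zero_of_preconnected_of_eventuallyEq_zero hUp hz h hw)
  obtain ⟨n, hn⟩ := ENat.ne_top_iff_exists.mp h1
  exact ⟨n, hn.symm⟩

theorem sym_ord (K : Type) [Field K] [NumberField K] (T : Finset ℕ) (hTp : ∀ p ∈ T, p.Prime)
    (hT : ∀ p : ℕ, p.Prime → p < 101 → p ∈ T) (D : LocData T) (a : ℕ → ℝ)
    (ha : ∀ q : ℕ, |a q| ≤ 2 * Real.sqrt q) (ha2 : SqRel K T a)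
    (V : Finset (HeightOneSpectrum (𝓞 K))) (hV : ∀ v ∈ V, Away K T v) (hne : V.Nonempty)
    (H : HWV D a V) (R1 : ℂ → ℂ) (hR1 : DifferentiableOn ℂ R1 {s : ℂ | 1 < s.re})
    (hR1e : ∀ s : ℂ, 3 / 2 < s.re → R1 s = D.Lam a K s) (h : ℂ → ℂ) (hd : Differentiable ℂ h)
    (he : ∀ s : ℂ, 3 / 2 < s.re → h s = D.Lam a K s ^ 2) {z : ℂ} (hz : z.re = 1) {n : ℕ}
    (hn : analyticOrderAt h z = n) :
    ∃ κ : ℤ, Even (κ + n) ∧ LogO (SP K a T) z (κ / 2) := by
  obtain ⟨N, B, hN, hB, hB54, hNB⟩ := symK K T hTp hT D a ha ha2 V hV hne H R1 hR1 hR1e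
  -- `R1` on `Re s > 3/2`
  have hR1ne : ∀ s : ℂ, 3 / 2 < s.re → R1 s ≠ 0 := by
    intro s hs
    rw [hR1e s hs]
    exact Lam_ne D hTp hT ha K hs
  -- `SP`
  have hSP : ∀ s : ℂ, 1 < s.re → SP K a T s ≠ 0 := by
    intro s hs
    exact gen_ne (fun v : {v : HeightOneSpectrum (𝓞 K) // Away K T v} => nrm v.1)
      (fun v => a (nrm v.1)) (fun v => nrm_away K T hT v.1 v.2) (fun v => ha _)
      (fun x hx => (summable_nrm K hx).subtype _) hs
  -- `h = R1 ^ 2` on `Re s > 1`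
  have hsq : ∀ s : ℂ, 1 < s.re → h s = R1 s ^ 2 := by
    have ha1 : AnalyticOnNhd ℂ h {s : ℂ | 1 < s.re} :=
      hd.differentiableOn.analyticOnNhd (hp_open 1)
    have ha2 : AnalyticOnNhd ℂ (fun s => R1 s ^ 2) {s : ℂ | 1 < s.re} :=
      (hR1.pow 2).analyticOnNhd (hp_open 1)
    have hev : h =ᶠ[nhds (2 : ℂ)] (fun s => R1 s ^ 2) := by
      have hmem : {s : ℂ | 3 / 2 < s.re} ∈ nhds (2 : ℂ) :=
        (hp_open (3 / 2)).mem_nhds (by show (3 / 2 : ℝ) < (2 : ℂ).re; norm_num)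
      filter_upwards [hmem] with s hs
      rw [he s hs, hR1e s hs]
    have := ha1.eqOn_of_preconnected_of_eventuallyEq ha2 (hp_pre 1)
      (show (2 : ℂ) ∈ {s : ℂ | 1 < s.re} by show (1 : ℝ) < (2 : ℂ).re; norm_num) hev
    exact fun s hs => this hs
  -- `R1` is not locally `0` near `5 / 4`
  have h54 : (5 / 4 : ℂ).re = 5 / 4 := by
    rw [Complex.div_ofNat_re]; norm_num
  have hR54 : ¬ (∀ᶠ s in nhds (5 / 4 : ℂ), R1 s = 0) := by
    intro hc
    have han : AnalyticOnNhd ℂ R1 {s : ℂ | 1 < s.re} := hR1.analyticOnNhd (hp_open 1)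
    have h1 := han.eqOn_zero_of_preconnected_of_eventuallyEq_zero (hp_pre 1)
      (show (5 / 4 : ℂ) ∈ {s : ℂ | 1 < s.re} by show (1 : ℝ) < (5 / 4 : ℂ).re; rw [h54]; norm_num)
      hc (show (2 : ℂ) ∈ {s : ℂ | 1 < s.re} by show (1 : ℝ) < (2 : ℂ).re; norm_num)
    exact hR1ne 2 (by show (3 / 2 : ℝ) < (2 : ℂ).re; norm_num) h1
  -- a point of the strip where `N` does not vanish
  obtain ⟨w, hw1, hw2, hNw⟩ : ∃ w : ℂ, 1 < w.re ∧ w.re < 3 / 2 ∧ N w ≠ 0 := by
    by_contra hcon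
    push Not at hcon
    apply hR54
    have hBc : ContinuousAt B (5 / 4) :=
      (hB.differentiableAt ((st_open (1 / 2) (3 / 2)).mem_nhds (by
        show (1 / 2 : ℝ) < (5 / 4 : ℂ).re ∧ (5 / 4 : ℂ).re < 3 / 2
        rw [h54]; norm_num))).continuousAt
    have hBe : ∀ᶠ s in nhds (5 / 4 : ℂ), B s ≠ 0 := hBc.eventually_ne hB54
    have hst : ∀ᶠ s in nhds (5 / 4 : ℂ), s ∈ {s : ℂ | 1 < s.re ∧ s.re < 3 / 2} :=
      (st_open 1 (3 / 2)).mem_nhds (by
        show (1 : ℝ) < (5 / 4 : ℂ).re ∧ (5 / 4 : ℂ).re < 3 / 2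
        rw [h54]; norm_num)
    filter_upwards [hBe, hst] with s hs1 hs2
    have h0 := hcon s hs2.1 hs2.2
    rw [hNB s hs2.1 hs2.2] at h0
    have h3 : R1 (s + 1 / 2) ≠ 0 := by
      apply hR1ne
      have : (s + 1 / 2).re = s.re + 1 / 2 := by
        rw [Complex.add_re, Complex.div_ofNat_re]; norm_num
      rw [this]
      linarith [hs2.1]
    have h4 := hSP s hs2.1
    rcases mul_eq_zero.mp h0 with h5 | h5
    · rcases mul_eq_zero.mp h5 with h6 | h6
      · rcases mul_eq_zero.mp h6 with h7 | h7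
        · exact absurd h7 hs1
        · exact h7
      · exact absurd h6 h3
    · exact absurd h5 h4
  have hzU : z ∈ {s : ℂ | 1 / 2 < s.re ∧ s.re < 3 / 2} := by
    show (1 / 2 : ℝ) < z.re ∧ z.re < 3 / 2
    rw [hz]; norm_num
  obtain ⟨n1, hn1⟩ := ord_fin (st_open (1 / 2) (3 / 2)) (st_pre _ _) hN hzU
    (show w ∈ {s : ℂ | 1 / 2 < s.re ∧ s.re < 3 / 2} from ⟨by linarith, hw2⟩) hNw
  obtain ⟨n2, hn2⟩ := ord_fin (st_open (1 / 2) (3 / 2)) (st_pre _ _) hB hzU
    (show (5 / 4 : ℂ) ∈ {s : ℂ | 1 / 2 < s.re ∧ s.re < 3 / 2} by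
      show (1 / 2 : ℝ) < (5 / 4 : ℂ).re ∧ (5 / 4 : ℂ).re < 3 / 2
      rw [h54]; norm_num) hB54
  have hshift : DifferentiableOn ℂ (fun s => R1 (s + 1 / 2)) {s : ℂ | 1 / 2 < s.re} := by
    refine hR1.comp (by fun_prop) ?_
    intro s hs
    show (1 : ℝ) < (s + 1 / 2).re
    have : (s + 1 / 2).re = s.re + 1 / 2 := by
      rw [Complex.add_re, Complex.div_ofNat_re]; norm_num
    rw [this]
    have hs' : 1 / 2 < s.re := hs
    linarith
  have hzH : z ∈ {s : ℂ | 1 / 2 < s.re} := hzU.1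
  obtain ⟨n3, hn3⟩ := ord_fin (hp_open (1 / 2)) (hp_pre _) hshift hzH
    (show (2 : ℂ) ∈ {s : ℂ | 1 / 2 < s.re} by show (1 / 2 : ℝ) < (2 : ℂ).re; norm_num)
    (hR1ne (2 + 1 / 2) (by
      have : ((2 : ℂ) + 1 / 2).re = 5 / 2 := by
        rw [Complex.add_re, Complex.div_ofNat_re]; norm_num
      rw [this]; norm_num))
  have lN : LogO N z n1 := logO_of (hN.analyticAt ((st_open _ _).mem_nhds hzU)) hn1
  have lB : LogO B z n2 := logO_of (hB.analyticAt ((st_open _ _).mem_nhds hzU)) hn2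
  have l3 : LogO (fun s => R1 (s + 1 / 2)) z n3 :=
    logO_of (hshift.analyticAt ((hp_open _).mem_nhds hzH)) hn3
  have lh : LogO h z n := logO_of (hd.analyticAt z) hn
  have hre : ∀ δ : ℝ, (z + (δ : ℂ)).re = 1 + δ := by
    intro δ
    rw [Complex.add_re, hz, Complex.ofReal_re]
  have lR2 : LogO (fun s => R1 s ^ 2) z n := lh.congr one_pos fun δ h0 _ =>
    hsq _ (by rw [hre]; linarith)
  have lR : LogO R1 z ((n : ℝ) / 2) := lR2.of_sq
  have lP : LogO (fun s => B s * R1 s * R1 (s + 1 / 2)) z ((n2 : ℝ) + (n : ℝ) / 2 + n3) :=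
    (lB.mul lR).mul l3
  have lN2 : LogO (fun s => (B s * R1 s * R1 (s + 1 / 2)) * SP K a T s) z n1 :=
    lN.congr (show (0 : ℝ) < 1 / 2 by norm_num) fun δ h0 h1 =>
      hNB _ (by rw [hre]; linarith) (by rw [hre]; linarith)
  have lS := lN2.of_mul lP
  refine ⟨2 * ((n1 : ℤ) - n2 - n3) - n, ?_, ?_⟩
  · refine ⟨(n1 : ℤ) - n2 - n3, by ring⟩
  · have : (((2 * ((n1 : ℤ) - n2 - n3) - n : ℤ) : ℝ) / 2) =
        (n1 : ℝ) - ((n2 : ℝ) + (n : ℝ) / 2 + n3) := by
      push_cast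
      ring
    rw [this]
    exact lS

end Pool.Agent.MD
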