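import Pool.Agent.MD.S.Defs
import Pool.Agent.QD.In.Sys

/-!
# MD/S-ZExt: the zeta functions at `w = 1`

PLAN.  `Zc S m g = ZS S x` for an `x` with the given orders and class (`Zc_of`, used in QD/In/Sys.lean), `ZS S x w = ZZ x w * ∏ v ∈ S, (zf ..)⁻¹` and `isZZ x` (QD/In/ZZ, QD/In/Def).
`ZZ_one`: `x` no square: by `zeta_fe` (QD/N1Main) for `L = (qf h).L` there is an entire `Z` with `Z w = (w - 1) ZP L w` for `Re w > 1`; `ZP_quad` (QD/N4Main) and `tt = ty`: `ZZ x w = (w - 1) * Z w` for `Re w > 1`, so everywhere (identity theorem), `= 0` at `1`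
(`not_sq_of`, QD/In/Sys: `¬ Sq m g` gives `¬ IsSquare x`).
`Z_ne`: `m = 0`, `g = 1`: take `x = 1`-like: the chosen `x` is a square (`square_iff`, QD/In/Alg: orders `0` and class `1`); for a square `ZZ x w = Z w ^ 2` with `Z` of `zeta_fe K`, `Z 1 ≠ 0` (as in `exists_ZZ`), and `(zf q 1 1)⁻¹ = (1 - q⁻¹)^2 ≠ 0`.
`Z1_ext`: `(w - 1) Z1 w = (w - 1) ZP K w ∏_{v ∈ S} (1 - q^(-w))` for `Re w > 1` (`tprod_split`, QD/In/Prod): `Z w * ∏ v ∈ S, (1 - q^(-w))`.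
-/

namespace Pool.Agent.MD

open NumberField IsDedekindDomain Pool.Agent.HWR Pool.Agent.QD Pool.Agent.QD.In Pool.Agent.LD

variable {K : Type} [Field K] [NumberField K] {T : Finset ℕ} (D : LocData T) {a : ℕ → ℝ}
  {T1 : Finset ℕ} {S : Finset (HeightOneSpectrum (𝓞 K))}

private theorem zx_id {f g : ℂ → ℂ} (hf : Differentiable ℂ f) (hg : Differentiable ℂ g)
    (h : ∀ w : ℂ, 1 < w.re → f w = g w) : f = g := by
  have h1 : AnalyticOnNhd ℂ f Set.univ := fun z _ => hf.analyticAt z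
  have h2 : AnalyticOnNhd ℂ g Set.univ := fun z _ => hg.analyticAt z
  refine h1.eq_of_eventuallyEq (z₀ := 2) h2 ?_
  have h3 : IsOpen {w : ℂ | 1 < w.re} := isOpen_lt continuous_const Complex.continuous_re
  have h4 : (2 : ℂ) ∈ {w : ℂ | 1 < w.re} := by
    show (1 : ℝ) < (2 : ℂ).re
    norm_num
  filter_upwards [h3.mem_nhds h4] with w hw
  exact h w hw

private theorem zx_nrm (v : HeightOneSpectrum (𝓞 K)) : 2 ≤ nrm v := by
  have hq0 : nrm v ≠ 0 := nrm_ne_zero v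
  have hq1 : nrm v ≠ 1 := nrm_ne_one v
  omega

private theorem zx_pow {q : ℕ} (hq : 2 ≤ q) : (1 : ℂ) - (q : ℂ) ^ (-(1 : ℂ)) ≠ 0 := by
  rw [Complex.cpow_neg_one]
  intro h
  have hq0 : (q : ℂ) ≠ 0 := by
    have : q ≠ 0 := by omega
    exact_mod_cast this
  have h1 : (q : ℂ) = 1 := by
    have h2 : (q : ℂ)⁻¹ = 1 := (sub_eq_zero.1 h).symm
    exact inv_eq_one.1 h2
  have h3 : q = 1 := by exact_mod_cast h1
  omega

private theorem zx_nonsq {x : Kˣ} (h : ¬ IsSquare x) : ZZ x 1 = 0 := by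
  obtain ⟨Z, h1, -, -, h4, -⟩ := zeta_fe (qf h).L
  have e : ∀ v : HeightOneSpectrum (𝓞 K), tt x v = ty K (qf h).L v := fun v => dif_neg h
  have hz := isZZ x
  have hid : ZZ x = fun w => (w - 1) * Z w := by
    refine zx_id hz.1 ((differentiable_id.sub_const 1).mul h1) fun w hw => ?_
    rw [hz.2.2.1 w hw]
    simp only [e]
    rw [h4 w hw, ← ZP_quad (qf h).L (qf h).deg hw]
    ring
  rw [hid]
  simp

private theorem zx_cfac (w : ℂ) (v : HeightOneSpectrum (𝓞 K)) :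
    zf (nrm v) 0 w = (1 - (nrm v : ℂ) ^ (-w))⁻¹ := by
  unfold zf
  rw [Int.cast_zero, zero_mul, sub_zero, inv_one, mul_one]

private theorem zx_sum {w : ℂ} (hw : 1 < w.re) :
    Summable fun v : HeightOneSpectrum (𝓞 K) => ‖(1 - (nrm v : ℂ) ^ (-w))⁻¹ - 1‖ := by
  have h1 := sum_zf (K := K) (fun _ => 0) (fun _ => Or.inr (Or.inr rfl)) hw
  refine h1.congr fun v => ?_
  rw [zx_cfac]

private theorem zx_sqprod {w : ℂ} (hw : 1 < w.re) :
    ∏' v : HeightOneSpectrum (𝓞 K), zf (nrm v) 1 w = ZP K w ^ 2 := by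
  have h2 : Multipliable fun v : HeightOneSpectrum (𝓞 K) => (1 - (nrm v : ℂ) ^ (-w))⁻¹ := by
    have h3 := multipliable_one_add_of_summable (zx_sum (K := K) hw)
    refine h3.congr fun v => ?_
    ring
  unfold ZP
  rw [pow_two, ← Multipliable.tprod_mul h2 h2]
  refine tprod_congr fun v => ?_
  unfold zf
  rw [Int.cast_one, one_mul]

private theorem zx_sq {x : Kˣ} (h : IsSquare x) : ZZ x 1 ≠ 0 := by
  obtain ⟨Z, h1, -, h3, h4, -⟩ := zeta_fe K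
  have e : ∀ v : HeightOneSpectrum (𝓞 K), tt x v = 1 := fun v => dif_pos h
  have hz := isZZ x
  have hid : ZZ x = fun w => Z w ^ 2 := by
    refine zx_id hz.1 (h1.pow 2) fun w hw => ?_
    rw [hz.2.2.1 w hw]
    simp only [e]
    rw [zx_sqprod hw, h4 w hw]
    ring
  rw [hid]
  exact pow_ne_zero 2 h3

theorem zext_one (hS : Nic T1 S) (m : (sys S D a).J) (g : (sys S D a).G)
    (h : (sys S D a).R m g) (hn : ¬ (sys S D a).Sq m g) : (sys S D a).Zf m g 1 = 0 := by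
  obtain ⟨x, hx, hc, he⟩ := Zc_of h
  have hns := not_sq_of (D := D) hS hx hc hn
  show Zc S m g 1 = 0
  rw [he]
  unfold ZS
  rw [zx_nonsq hns, zero_mul]

theorem zext_ne (hS : Nic T1 S) : (sys S D a).Zf 0 1 1 ≠ 0 := by
  have hr : Rel S 0 1 := ⟨1, fun v => by rw [ordK_one]; rfl, rfl⟩
  obtain ⟨x, hx, hc, he⟩ := Zc_of hr
  have hsq : IsSquare x := by
    rw [square_iff hS x]
    refine ⟨fun v => ?_, hc⟩
    rw [hx v]
    exact ⟨0, by simp⟩
  show Zc S 0 1 1 ≠ 0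
  rw [he]
  unfold ZS
  refine mul_ne_zero (zx_sq hsq) (Finset.prod_ne_zero_iff.2 fun v _ => ?_)
  have e : tt x v = 1 := dif_pos hsq
  rw [e]
  unfold zf
  rw [Int.cast_one, one_mul]
  have h1 := zx_pow (zx_nrm v)
  exact inv_ne_zero (mul_ne_zero (inv_ne_zero h1) (inv_ne_zero h1))

theorem zext_ext (S : Finset (HeightOneSpectrum (𝓞 K))) : ∃ Z : ℂ → ℂ, Differentiable ℂ Z ∧
    ∀ w : ℂ, 1 < w.re → Z w = (w - 1) * (sys S D a).Z1 w := by
  classical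
  obtain ⟨Z, h1, -, -, h4, -⟩ := zeta_fe K
  have hq0 : ∀ v : HeightOneSpectrum (𝓞 K), (nrm v : ℂ) ≠ 0 := fun v => by
    exact_mod_cast nrm_ne_zero v
  have hd1 : ∀ v : HeightOneSpectrum (𝓞 K),
      Differentiable ℂ fun w : ℂ => 1 - (nrm v : ℂ) ^ (-w) := by
    intro v
    refine (differentiable_const 1).sub ?_
    intro w
    exact DifferentiableAt.const_cpow (differentiable_neg w) (Or.inl (hq0 v))
  have hd : Differentiable ℂ fun w : ℂ => ∏ v ∈ S, (1 - (nrm v : ℂ) ^ (-w)) := by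
    induction S using Finset.induction_on with
    | empty => simp only [Finset.prod_empty]; exact differentiable_const _
    | insert v S hv ih =>
      simp only [Finset.prod_insert hv]
      exact (hd1 v).mul ih
  refine ⟨fun w => Z w * ∏ v ∈ S, (1 - (nrm v : ℂ) ^ (-w)), h1.mul hd, fun w hw => ?_⟩
  have hsplit := tprod_split S (fun v : HeightOneSpectrum (𝓞 K) => (1 - (nrm v : ℂ) ^ (-w))⁻¹)
    (zx_sum hw)
  have hne : ∀ v ∈ S, (1 : ℂ) - (nrm v : ℂ) ^ (-w) ≠ 0 := by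
    intro v _ h0
    have h5 : ‖(nrm v : ℂ) ^ (-w)‖ = 1 := by
      rw [← sub_eq_zero.1 h0, norm_one]
    rw [Complex.norm_natCast_cpow_of_pos (Nat.pos_of_ne_zero (nrm_ne_zero v)), Complex.neg_re] at h5
    have h6 : (1 : ℝ) < nrm v := by
      have := zx_nrm v
      exact_mod_cast this
    have h7 : (nrm v : ℝ) ^ (-w.re) < 1 := Real.rpow_lt_one_of_one_lt_of_neg h6 (by linarith)
    linarith
  show Z w * ∏ v ∈ S, (1 - (nrm v : ℂ) ^ (-w)) =
    (w - 1) * ∏' v : Io S, (1 - (nrm v.1 : ℂ) ^ (-w))⁻¹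
  rw [h4 w hw]
  unfold ZP
  rw [hsplit]
  have h8 : (∏ v ∈ S, (1 - (nrm v : ℂ) ^ (-w))⁻¹) * ∏ v ∈ S, (1 - (nrm v : ℂ) ^ (-w)) = 1 := by
    rw [← Finset.prod_mul_distrib]
    exact Finset.prod_eq_one fun v hv => inv_mul_cancel₀ (hne v hv)
  calc (w - 1) * ((∏ v ∈ S, (1 - (nrm v : ℂ) ^ (-w))⁻¹) *
        ∏' v : Io S, (1 - (nrm v.1 : ℂ) ^ (-w))⁻¹) * ∏ v ∈ S, (1 - (nrm v : ℂ) ^ (-w))
      = ((∏ v ∈ S, (1 - (nrm v : ℂ) ^ (-w))⁻¹) * ∏ v ∈ S, (1 - (nrm v : ℂ) ^ (-w))) *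
        ((w - 1) * ∏' v : Io S, (1 - (nrm v.1 : ℂ) ^ (-w))⁻¹) := by ring
    _ = _ := by rw [h8, one_mul]

end Pool.Agent.MD
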